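import Pool.Agent.Helper85.NS.Defs

/-!
Convex cocompact homomorphisms to `PSL₂(ℂ)`.
-/

namespace Helper85.NS

/-- A homomorphism `j : A → PSL₂(ℂ)` is convex cocompact if its orbit maps are quasi-isometric
embeddings: there is a finite set `F` in `A` such that every `a` in `A` is a product of `n`
elements of `F` when `2 cosh d(O, j a O) ≤ 2ⁿ`; here `O` is the identity matrix in the model `H3`,
and `2 cosh d(O, g O)` is the squared Frobenius norm `N g`. -/
def ConvexCocompact {A : Type} [Group A] (j : A →* PSL2) : Prop :=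
  ∃ F : Set A, F.Finite ∧ ∀ (a : A) (g : SL2) (n : ℕ), toPSL g = j a → N g.1 ≤ 2 ^ n →
    ∃ l : List A, l.length = n ∧ (∀ f ∈ l, f ∈ F) ∧ l.prod = a

end Helper85.NS
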