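import Pool.Agent.Helper85.NS.Defs
import Pool.Agent.Helper85.NS.Cc

/-!
The notions which occur in the statements.
-/

namespace Helper85.NS

open Monoid Function

/-- A power of `g` lies in the subgroup `Γ'` but not in the kernel of the character `χ` of
`Γ'`. -/
def Detects {Γ : Type} [Group Γ] {Γ' : Subgroup Γ} (χ : Γ' →* Multiplicative ℤ) (g : Γ) : Prop :=
  ∃ (m : ℕ) (h : g ^ m ∈ Γ'), χ ⟨g ^ m, h⟩ ≠ 1

/-- The group has a finitely presented subgroup `H` which is not separable and which is conjugate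
to a proper subgroup of itself. -/
def HasNonseparable (G : Type) [Group G] : Prop :=
  ∃ H : Subgroup G, Group.IsFinitelyPresented H ∧
    (∃ g, H.map (MulAut.conj g).toMonoidHom < H) ∧ ¬ Separable H

/-- The homomorphism of a free product `B ∗ C` which is equal to `j` on `B` and to the conjugate
of `j` by `(j κ)⁻¹` on `C`. -/
def pconj {B C Γ : Type} [Group B] [Group C] [Group Γ] (j : Coprod B C →* Γ) (κ : Coprod B C) :
    Coprod B C →* Γ :=
  Coprod.lift (j.comp Coprod.inl) (((MulAut.conj (j κ)⁻¹).toMonoidHom.comp j).comp Coprod.inr)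

/-- The partial conjugate of `j` by `j (xᵖ z^q)`. -/
def pc {B C Γ : Type} [Group B] [Group C] [Group Γ] (j : Coprod B C →* Γ) (x : B) (z : C) (p : ℕ)
    (q : ℤ) : Coprod B C →* Γ :=
  pconj j (Coprod.inl (x ^ p) * Coprod.inr (z ^ q))

/-- The subgroup has no torsion. -/
def TorsionFree (Γ : Subgroup PSL2) : Prop := ∀ g ∈ Γ, ∀ n : ℕ, 0 < n → g ^ n = 1 → g = 1

/-- The subgroup is not abelian. -/
def Nonabelian (Γ : Subgroup PSL2) : Prop := ∃ g ∈ Γ, ∃ h ∈ Γ, g * h ≠ h * g

end Helper85.NS
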