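import Pool.Agent.Helper85.NS.Am

/-!
Maps between free products with amalgamation over the same group are injective.
-/

namespace Helper85.NS

open Monoid Function

/-- NS-1a -/
theorem push_inj {ι : Type*} [Nonempty ι] {H : Type*} {G G' : ι → Type*} [Group H]
    [∀ i, Group (G i)] [∀ i, Group (G' i)] (φ : ∀ i, H →* G i) (φ' : ∀ i, H →* G' i)
    (hφ : ∀ i, Injective (φ i)) (hφ' : ∀ i, Injective (φ' i)) (f : ∀ i, G i →* G' i)
    (hf : ∀ i, Injective (f i)) (hcomp : ∀ i x, f i (φ i x) = φ' i x)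
    (F : PushoutI φ →* PushoutI φ')
    (hF : ∀ i x, F (PushoutI.of i x) = PushoutI.of i (f i x)) : Injective F := by
  classical
  rw [injective_iff_map_eq_one]
  intro x hx
  obtain ⟨d⟩ := PushoutI.NormalWord.transversal_nonempty φ hφ
  set w : PushoutI.NormalWord d := x • PushoutI.NormalWord.empty with hw
  have hwx : w.prod = x := by
    rw [hw, PushoutI.NormalWord.prod_smul, PushoutI.NormalWord.prod_empty, mul_one]
  -- letters of `w` are not in the base group
  have hlet : ∀ l ∈ w.toList, l.2 ∉ (φ l.1).range := by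
    intro l hl hmem
    have h1 : l.2 ∈ d.set l.1 := w.normalized l.1 l.2 hl
    have h2 : l.2 ≠ 1 := w.ne_one l hl
    have h3 := (d.compl l.1).1
    have h4 : ((⟨l.2, hmem⟩, ⟨1, d.one_mem l.1⟩) : (φ l.1).range × d.set l.1) =
        (1, ⟨l.2, h1⟩) := by
      apply h3
      simp
    have h5 := congrArg (fun p : (φ l.1).range × d.set l.1 => (p.2 : G l.1)) h4
    exact h2 h5.symm
  -- the image word
  let w' : CoprodI.Word G' :=
    { toList := w.toList.map fun l => ⟨l.1, f l.1 l.2⟩
      ne_one := by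
        intro l hl
        rw [List.mem_map] at hl
        obtain ⟨m, hm, rfl⟩ := hl
        intro h
        exact w.ne_one m hm ((hf m.1) (h.trans (map_one _).symm))
      chain_ne := by
        rw [List.isChain_map]
        exact w.chain_ne }
  have hred : PushoutI.Reduced φ' w' := by
    intro l hl hmem
    have hl' : l ∈ w.toList.map fun l => (⟨l.1, f l.1 l.2⟩ : Σ i, G' i) := hl
    rw [List.mem_map] at hl'
    obtain ⟨m, hm, rfl⟩ := hl'
    obtain ⟨y, hy⟩ := hmem
    apply hlet m hm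
    refine ⟨y, hf m.1 ?_⟩
    rw [hcomp]
    exact hy
  have hbase : ∀ y, F (PushoutI.base φ y) = PushoutI.base φ' y := by
    intro y
    obtain ⟨i⟩ := ‹Nonempty ι›
    rw [← PushoutI.of_apply_eq_base φ i, hF, hcomp, PushoutI.of_apply_eq_base]
  have hprod : F (PushoutI.ofCoprodI w.toWord.prod) = PushoutI.ofCoprodI w'.prod := by
    unfold CoprodI.Word.prod
    rw [map_list_prod, map_list_prod, map_list_prod]
    simp only [w', List.map_map]
    congr 1
    apply List.map_congr_left
    intro l _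
    simp [hF]
  have h1 : PushoutI.base φ' w.head * PushoutI.ofCoprodI w'.prod = 1 := by
    rw [← hbase, ← hprod, ← map_mul]
    have h2 : PushoutI.base φ w.head * PushoutI.ofCoprodI w.toWord.prod = x := hwx
    rw [h2, hx]
  have h2 : w' = CoprodI.Word.empty := by
    apply hred.eq_empty_of_mem_range hφ'
    rw [eq_inv_of_mul_eq_one_right h1]
    exact inv_mem ⟨w.head, rfl⟩
  have h3 : w.toList = [] := by
    have h4 : w.toList.map (fun l => (⟨l.1, f l.1 l.2⟩ : Σ i, G' i)) = [] :=
      congrArg CoprodI.Word.toList h2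
    exact List.map_eq_nil_iff.mp h4
  have h4 : w.toWord = CoprodI.Word.empty := by
    ext1
    rw [h3]
    rfl
  rw [h2] at h1
  have h5 : w.head = 1 := by
    have h6 : PushoutI.base φ' w.head = 1 := by simpa using h1
    exact PushoutI.base_injective hφ' (h6.trans (map_one _).symm)
  rw [← hwx]
  unfold PushoutI.NormalWord.prod
  rw [h4, h5]
  simp

/-- the family of two groups -/
def Fam (Γ₁ Γ₂ : Type) : Bool → Type
  | true => Γ₁
  | false => Γ₂

instance famGroup (Γ₁ Γ₂ : Type) [Group Γ₁] [Group Γ₂] : ∀ b, Group (Fam Γ₁ Γ₂ b)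
  | true => inferInstanceAs (Group Γ₁)
  | false => inferInstanceAs (Group Γ₂)

/-- the two maps of the amalgam -/
def famHom {A Γ₁ Γ₂ : Type} [Group A] [Group Γ₁] [Group Γ₂] (i₁ : A →* Γ₁) (i₂ : A →* Γ₂) :
    ∀ b, A →* Fam Γ₁ Γ₂ b
  | true => i₁
  | false => i₂

/-- the two maps between the factors -/
def famMap {Γ₁ Γ₂ Δ₁ Δ₂ : Type} [Group Γ₁] [Group Γ₂] [Group Δ₁] [Group Δ₂] (f₁ : Γ₁ →* Δ₁)
    (f₂ : Γ₂ →* Δ₂) : ∀ b, Fam Γ₁ Γ₂ b →* Fam Δ₁ Δ₂ b
  | true => f₁
  | false => f₂

/-- from the amalgam to the pushout -/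
def toPush {A Γ₁ Γ₂ : Type} [Group A] [Group Γ₁] [Group Γ₂] (i₁ : A →* Γ₁) (i₂ : A →* Γ₂) :
    Amalgam i₁ i₂ →* PushoutI (famHom i₁ i₂) :=
  Amalgam.lift i₁ i₂ (PushoutI.of (φ := famHom i₁ i₂) true)
    (PushoutI.of (φ := famHom i₁ i₂) false)
    (fun a => (PushoutI.of_apply_eq_base (famHom i₁ i₂) true a).trans
      (PushoutI.of_apply_eq_base (famHom i₁ i₂) false a).symm)

theorem toPush_injective {A Γ₁ Γ₂ : Type} [Group A] [Group Γ₁] [Group Γ₂] (i₁ : A →* Γ₁)
    (i₂ : A →* Γ₂) : Injective (toPush i₁ i₂) := by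
  let g : ∀ b, Fam Γ₁ Γ₂ b →* Amalgam i₁ i₂ := fun b => match b with
    | true => Amalgam.inl i₁ i₂
    | false => Amalgam.inr i₁ i₂
  let back : PushoutI (famHom i₁ i₂) →* Amalgam i₁ i₂ :=
    PushoutI.lift g ((Amalgam.inl i₁ i₂).comp i₁) (by
      intro b
      cases b
      · ext a
        exact (Amalgam.inl_eq_inr i₁ i₂ a).symm
      · rfl)
  have h1 : back.comp (toPush i₁ i₂) = MonoidHom.id _ := by
    apply Amalgam.hom_ext
    · intro x
      change back (PushoutI.of (φ := famHom i₁ i₂) true x) = _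
      simp only [back, PushoutI.lift_of]
      rfl
    · intro x
      change back (PushoutI.of (φ := famHom i₁ i₂) false x) = _
      simp only [back, PushoutI.lift_of]
      rfl
  intro x y hxy
  have h2 := congrArg back hxy
  have h3 := DFunLike.congr_fun h1 x
  have h4 := DFunLike.congr_fun h1 y
  simp only [MonoidHom.comp_apply, MonoidHom.id_apply] at h3 h4
  rw [← h3, ← h4, h2]

/-- NS-1b -/
theorem amalgam_map_injective {A Γ₁ Γ₂ Δ₁ Δ₂ : Type} [Group A] [Group Γ₁] [Group Γ₂] [Group Δ₁]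
    [Group Δ₂] (i₁ : A →* Γ₁) (i₂ : A →* Γ₂) (hi₁ : Injective i₁) (hi₂ : Injective i₂)
    (f₁ : Γ₁ →* Δ₁) (f₂ : Γ₂ →* Δ₂) (hf₁ : Injective f₁) (hf₂ : Injective f₂)
    (F : Amalgam i₁ i₂ →* Amalgam (f₁.comp i₁) (f₂.comp i₂))
    (hF₁ : ∀ x, F (Amalgam.inl i₁ i₂ x) = Amalgam.inl (f₁.comp i₁) (f₂.comp i₂) (f₁ x))
    (hF₂ : ∀ x, F (Amalgam.inr i₁ i₂ x) = Amalgam.inr (f₁.comp i₁) (f₂.comp i₂) (f₂ x)) :
    Injective F := by
  have hcomp : ∀ b x, famMap f₁ f₂ b (famHom i₁ i₂ b x) =
      famHom (f₁.comp i₁) (f₂.comp i₂) b x := by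
    intro b x
    cases b <;> rfl
  let F' : PushoutI (famHom i₁ i₂) →* PushoutI (famHom (f₁.comp i₁) (f₂.comp i₂)) :=
    PushoutI.lift (fun b => (PushoutI.of (φ := famHom (f₁.comp i₁) (f₂.comp i₂)) b).comp
      (famMap f₁ f₂ b)) (PushoutI.base _) (by
      intro b
      ext x
      rw [MonoidHom.comp_apply, MonoidHom.comp_apply, hcomp, PushoutI.of_apply_eq_base])
  have hF' : Injective F' := by
    refine push_inj (famHom i₁ i₂) (famHom (f₁.comp i₁) (f₂.comp i₂)) ?_ ?_ (famMap f₁ f₂) ?_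
      hcomp F' ?_
    · intro b
      cases b
      · exact hi₂
      · exact hi₁
    · intro b
      cases b
      · exact hf₂.comp hi₂
      · exact hf₁.comp hi₁
    · intro b
      cases b
      · exact hf₂
      · exact hf₁
    · intro b x
      simp only [F', PushoutI.lift_of]
      rfl
  have h1 : (toPush (f₁.comp i₁) (f₂.comp i₂)).comp F = F'.comp (toPush i₁ i₂) := by
    apply Amalgam.hom_ext
    · intro x
      rw [MonoidHom.comp_apply, MonoidHom.comp_apply, hF₁]
      change PushoutI.of (φ := famHom (f₁.comp i₁) (f₂.comp i₂)) true (f₁ x) =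
        F' (PushoutI.of (φ := famHom i₁ i₂) true x)
      simp only [F', PushoutI.lift_of]
      rfl
    · intro x
      rw [MonoidHom.comp_apply, MonoidHom.comp_apply, hF₂]
      change PushoutI.of (φ := famHom (f₁.comp i₁) (f₂.comp i₂)) false (f₂ x) =
        F' (PushoutI.of (φ := famHom i₁ i₂) false x)
      simp only [F', PushoutI.lift_of]
      rfl
  intro x y hxy
  apply toPush_injective i₁ i₂
  apply hF'
  have h2 := DFunLike.congr_fun h1 x
  have h3 := DFunLike.congr_fun h1 y
  rw [MonoidHom.comp_apply, MonoidHom.comp_apply] at h2 h3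
  rw [← h2, ← h3, hxy]

/-- NS-1c -/
theorem coprod_map_injective {S T S' T' : Type} [Group S] [Group T] [Group S'] [Group T']
    (f : S →* S') (g : T →* T') (hf : Injective f) (hg : Injective g) :
    Injective (Monoid.Coprod.map f g) := by
  let u₁ : Unit →* S := 1
  let u₂ : Unit →* T := 1
  let F : Amalgam u₁ u₂ →* Amalgam (f.comp u₁) (g.comp u₂) :=
    Amalgam.lift u₁ u₂ ((Amalgam.inl (f.comp u₁) (g.comp u₂)).comp f)
      ((Amalgam.inr (f.comp u₁) (g.comp u₂)).comp g)
      (fun a => Amalgam.inl_eq_inr (f.comp u₁) (g.comp u₂) a)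
  have hF : Injective F := amalgam_map_injective u₁ u₂ (fun _ _ _ => Subsingleton.elim _ _)
    (fun _ _ _ => Subsingleton.elim _ _) f g hf hg F (fun _ => rfl) (fun _ => rfl)
  let p : Monoid.Coprod S T →* Amalgam u₁ u₂ :=
    Monoid.Coprod.lift (Amalgam.inl u₁ u₂) (Amalgam.inr u₁ u₂)
  let p' : Monoid.Coprod S' T' →* Amalgam (f.comp u₁) (g.comp u₂) :=
    Monoid.Coprod.lift (Amalgam.inl _ _) (Amalgam.inr _ _)
  let back : Amalgam u₁ u₂ →* Monoid.Coprod S T :=
    Amalgam.lift u₁ u₂ Monoid.Coprod.inl Monoid.Coprod.inr (fun a => by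
      simp only [u₁, u₂, MonoidHom.one_apply, map_one])
  have hp : Injective p := by
    have h1 : back.comp p = MonoidHom.id _ := by
      apply Monoid.Coprod.hom_ext
      · ext x
        simp only [p, MonoidHom.comp_apply, Monoid.Coprod.lift_apply_inl, back,
          Amalgam.lift_inl, MonoidHom.id_apply]
      · ext x
        simp only [p, MonoidHom.comp_apply, Monoid.Coprod.lift_apply_inr, back,
          Amalgam.lift_inr, MonoidHom.id_apply]
    intro x y hxy
    have h3 := DFunLike.congr_fun h1 x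
    have h4 := DFunLike.congr_fun h1 y
    simp only [MonoidHom.comp_apply, MonoidHom.id_apply] at h3 h4
    rw [← h3, ← h4, hxy]
  have h1 : p'.comp (Monoid.Coprod.map f g) = F.comp p := by
    apply Monoid.Coprod.hom_ext
    · ext x
      simp only [p, p', F, MonoidHom.comp_apply, Monoid.Coprod.lift_apply_inl,
        Monoid.Coprod.map_apply_inl, Amalgam.lift_inl]
    · ext x
      simp only [p, p', F, MonoidHom.comp_apply, Monoid.Coprod.lift_apply_inr,
        Monoid.Coprod.map_apply_inr, Amalgam.lift_inr]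
  intro x y hxy
  apply hp
  apply hF
  have h2 := DFunLike.congr_fun h1 x
  have h3 := DFunLike.congr_fun h1 y
  rw [MonoidHom.comp_apply, MonoidHom.comp_apply] at h2 h3
  rw [← h2, ← h3, hxy]

end Helper85.NS
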