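import Pool.Agent.Helper85.NS.Wpq

/-!
Powers of generators generate a free group.
-/

namespace Helper85.NS

open Function

/-- the exponent of a block -/
private def pwN (p q : ℕ) (c : Bool) : ℕ := cond c p q

/-- the generator of a block -/
private def pwV {α : Type} (b₀ k₀ : α) (c : Bool) : α := cond c b₀ k₀

/-- the block of a letter -/
private def pwB {α : Type} (b₀ k₀ : α) (p q : ℕ) (x : Bool × Bool) : List (α × Bool) :=
  List.replicate (pwN p q x.1) (pwV b₀ k₀ x.1, x.2)

private theorem mk_replicate {α : Type} (v : α) (n : ℕ) :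
    FreeGroup.mk (List.replicate n (v, true)) = FreeGroup.of v ^ n := by
  induction n with
  | zero => rw [pow_zero]; rfl
  | succ n ih => rw [pow_succ', ← ih, List.replicate_succ]; rfl

private theorem mk_replicate_inv {α : Type} (v : α) (n : ℕ) :
    FreeGroup.mk (List.replicate n (v, false)) = (FreeGroup.of v ^ n)⁻¹ := by
  induction n with
  | zero => rw [pow_zero, inv_one]; rfl
  | succ n ih =>
    rw [pow_succ, mul_inv_rev, ← ih, List.replicate_succ]; rfl

private theorem pw_letter {α : Type} (b₀ k₀ : α) (p q : ℕ) (x : Bool × Bool) :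
    pw b₀ k₀ p q (FreeGroup.mk [x]) = FreeGroup.mk (pwB b₀ k₀ p q x) := by
  obtain ⟨c, e⟩ := x
  cases e
  · have h : FreeGroup.mk [(c, false)] = (FreeGroup.of c)⁻¹ := rfl
    rw [h, map_inv]
    unfold pwB
    rw [mk_replicate_inv]
    cases c <;> simp [pw, pwN, pwV]
  · have h : FreeGroup.mk [(c, true)] = FreeGroup.of c := rfl
    rw [h]
    unfold pwB
    rw [mk_replicate]
    cases c <;> simp [pw, pwN, pwV]

private theorem pw_mk {α : Type} (b₀ k₀ : α) (p q : ℕ) (L : List (Bool × Bool)) :
    pw b₀ k₀ p q (FreeGroup.mk L) = FreeGroup.mk (L.flatMap (pwB b₀ k₀ p q)) := by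
  induction L with
  | nil => exact map_one _
  | cons x L ih =>
    have h : FreeGroup.mk (x :: L) = FreeGroup.mk [x] * FreeGroup.mk L := rfl
    rw [h, map_mul, ih, pw_letter, FreeGroup.mul_mk, List.flatMap_cons]

private theorem pw_red {α : Type} (b₀ k₀ : α) (hbk : b₀ ≠ k₀) (p q : ℕ) (hp : 0 < p) (hq : 0 < q)
    (L : List (Bool × Bool)) (hL : FreeGroup.IsReduced L) :
    FreeGroup.IsReduced (L.flatMap (pwB b₀ k₀ p q)) := by
  have hN : ∀ c, 0 < pwN p q c := by intro c; cases c <;> assumption
  have hV : ∀ c c', pwV b₀ k₀ c = pwV b₀ k₀ c' → c = c' := by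
    intro c c' h
    cases c <;> cases c' <;> simp_all [pwV]
  induction L with
  | nil => simp [FreeGroup.IsReduced]
  | cons x L ih =>
    rw [List.flatMap_cons]
    unfold FreeGroup.IsReduced at hL ih ⊢
    apply List.IsChain.append
    · unfold pwB
      exact List.isChain_replicate_of_rel _ (fun _ => rfl)
    · exact ih hL.tail
    · intro y hy z hz
      obtain ⟨n, hn⟩ : ∃ n, pwN p q x.1 = n + 1 := ⟨pwN p q x.1 - 1, by have := hN x.1; omega⟩
      have hy' : y = (pwV b₀ k₀ x.1, x.2) := by
        unfold pwB at hy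
        have := List.mem_of_mem_getLast? hy
        exact List.eq_of_mem_replicate this
      cases L with
      | nil => simp at hz
      | cons x' L' =>
        obtain ⟨n', hn'⟩ : ∃ n, pwN p q x'.1 = n + 1 :=
          ⟨pwN p q x'.1 - 1, by have := hN x'.1; omega⟩
        rw [List.flatMap_cons, pwB, hn', List.replicate_succ, List.cons_append,
          List.head?_cons] at hz
        simp only [Option.mem_def, Option.some.injEq] at hz
        subst hz
        subst hy'
        intro h
        have h1 := hV _ _ h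
        rw [List.isChain_cons_cons] at hL
        exact hL.1 h1

/-- NS-21 -/
theorem pw_injective {α : Type} (b₀ k₀ : α) (hbk : b₀ ≠ k₀) (p q : ℕ) (hp : 0 < p) (hq : 0 < q) :
    Injective (pw b₀ k₀ p q) := by
  classical
  rw [injective_iff_map_eq_one]
  intro w hw
  have h1 : pw b₀ k₀ p q (FreeGroup.mk w.toWord) = 1 := by rw [FreeGroup.mk_toWord, hw]
  rw [pw_mk] at h1
  have h2 := pw_red b₀ k₀ hbk p q hp hq w.toWord FreeGroup.isReduced_toWord
  have h3 := congrArg FreeGroup.toWord h1
  rw [FreeGroup.toWord_mk, h2.reduce_eq, FreeGroup.toWord_one] at h3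
  rw [← FreeGroup.toWord_eq_nil_iff]
  cases hL : w.toWord with
  | nil => rfl
  | cons x L =>
    exfalso
    rw [hL, List.flatMap_cons] at h3
    have h4 := (List.append_eq_nil_iff.mp h3).1
    unfold pwB at h4
    rw [List.replicate_eq_nil_iff] at h4
    have hN : 0 < pwN p q x.1 := by cases x.1 <;> assumption
    omega

end Helper85.NS
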