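import Pool.Agent.Helper85.NS.Defs

/-!
Basic maps for free products with amalgamation.
-/

namespace Helper85.NS

namespace Amalgam

variable {A Γ₁ Γ₂ : Type} [Group A] [Group Γ₁] [Group Γ₂] (i₁ : A →* Γ₁) (i₂ : A →* Γ₂)

/-- The first factor. -/
def inl : Γ₁ →* Amalgam i₁ i₂ :=
  (QuotientGroup.mk' (Subgroup.normalClosure (Set.range fun a : A =>
    (Monoid.Coprod.inl (i₁ a) : Monoid.Coprod Γ₁ Γ₂) * (Monoid.Coprod.inr (i₂ a))⁻¹))).comp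
    Monoid.Coprod.inl

/-- The second factor. -/
def inr : Γ₂ →* Amalgam i₁ i₂ :=
  (QuotientGroup.mk' (Subgroup.normalClosure (Set.range fun a : A =>
    (Monoid.Coprod.inl (i₁ a) : Monoid.Coprod Γ₁ Γ₂) * (Monoid.Coprod.inr (i₂ a))⁻¹))).comp
    Monoid.Coprod.inr

theorem inl_eq_inr (a : A) : inl i₁ i₂ (i₁ a) = inr i₁ i₂ (i₂ a) := by
  have h : QuotientGroup.mk' (Subgroup.normalClosure (Set.range fun a : A =>
      (Monoid.Coprod.inl (i₁ a) : Monoid.Coprod Γ₁ Γ₂) * (Monoid.Coprod.inr (i₂ a))⁻¹))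
      ((Monoid.Coprod.inl (i₁ a) : Monoid.Coprod Γ₁ Γ₂) * (Monoid.Coprod.inr (i₂ a))⁻¹) = 1 := by
    rw [← MonoidHom.mem_ker, QuotientGroup.ker_mk']
    exact Subgroup.subset_normalClosure ⟨a, rfl⟩
  rw [map_mul, map_inv, mul_inv_eq_one] at h
  exact h

/-- The universal property. -/
def lift {K : Type*} [Group K] (f₁ : Γ₁ →* K) (f₂ : Γ₂ →* K) (h : ∀ a, f₁ (i₁ a) = f₂ (i₂ a)) :
    Amalgam i₁ i₂ →* K :=
  QuotientGroup.lift _ (Monoid.Coprod.lift f₁ f₂) (by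
    apply Subgroup.normalClosure_le_normal
    rintro _ ⟨a, rfl⟩
    simp [MonoidHom.mem_ker, h a])

@[simp]
theorem lift_inl {K : Type*} [Group K] (f₁ : Γ₁ →* K) (f₂ : Γ₂ →* K)
    (h : ∀ a, f₁ (i₁ a) = f₂ (i₂ a)) (x : Γ₁) : lift i₁ i₂ f₁ f₂ h (inl i₁ i₂ x) = f₁ x := rfl

@[simp]
theorem lift_inr {K : Type*} [Group K] (f₁ : Γ₁ →* K) (f₂ : Γ₂ →* K)
    (h : ∀ a, f₁ (i₁ a) = f₂ (i₂ a)) (x : Γ₂) : lift i₁ i₂ f₁ f₂ h (inr i₁ i₂ x) = f₂ x := rfl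

theorem hom_ext {K : Type*} [Group K] {f g : Amalgam i₁ i₂ →* K}
    (h₁ : ∀ x, f (inl i₁ i₂ x) = g (inl i₁ i₂ x)) (h₂ : ∀ x, f (inr i₁ i₂ x) = g (inr i₁ i₂ x)) :
    f = g := by
  apply QuotientGroup.monoidHom_ext
  apply Monoid.Coprod.hom_ext
  · ext x
    exact h₁ x
  · ext x
    exact h₂ x

end Amalgam

end Helper85.NS
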