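import Pool.Agent.Helper85.NS.Norm

/-!
Asymptotics of norms of words.
-/

namespace Helper85.NS

open Matrix Filter Topology

namespace Asym

theorem N_smul (c : ℂ) (M : Matrix (Fin 2) (Fin 2) ℂ) : N (c • M) = ‖c‖ ^ 2 * N M := by
  unfold N
  simp only [Matrix.smul_apply, norm_smul, mul_pow, Finset.mul_sum]

theorem N_continuous : Continuous N := by
  unfold N
  fun_prop

theorem N_pos {M : Matrix (Fin 2) (Fin 2) ℂ} (hM : M ≠ 0) : 0 < N M := by
  rcases (N_nonneg M).lt_or_eq with h | h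
  · exact h
  · exfalso
    apply hM
    unfold N at h
    rw [Fin.sum_univ_two, Fin.sum_univ_two, Fin.sum_univ_two] at h
    have h00 := sq_nonneg ‖M 0 0‖
    have h01 := sq_nonneg ‖M 0 1‖
    have h10 := sq_nonneg ‖M 1 0‖
    have h11 := sq_nonneg ‖M 1 1‖
    have z00 : M 0 0 = 0 := norm_eq_zero.1 ((pow_eq_zero_iff two_ne_zero).1 (by linarith))
    have z01 : M 0 1 = 0 := norm_eq_zero.1 ((pow_eq_zero_iff two_ne_zero).1 (by linarith))
    have z10 : M 1 0 = 0 := norm_eq_zero.1 ((pow_eq_zero_iff two_ne_zero).1 (by linarith))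
    have z11 : M 1 1 = 0 := norm_eq_zero.1 ((pow_eq_zero_iff two_ne_zero).1 (by linarith))
    ext i j
    fin_cases i <;> fin_cases j
    · exact z00
    · exact z01
    · exact z10
    · exact z11

theorem dg_pow (l : ℂ) (hl : l ≠ 0) (n : ℕ) :
    ((dg l hl) ^ n).1 = !![l ^ n, 0; 0, (l⁻¹) ^ n] := by
  induction n with
  | zero => ext i j; fin_cases i <;> fin_cases j <;> simp
  | succ n ih =>
    have : ((dg l hl) ^ (n + 1)).1 = ((dg l hl) ^ n).1 * (dg l hl).1 := by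
      rw [pow_succ]; rfl
    rw [this, ih]
    ext i j
    fin_cases i <;> fin_cases j <;> simp [dg, Matrix.mul_apply, Fin.sum_univ_two, pow_succ]

theorem dg_pow_inv (l : ℂ) (hl : l ≠ 0) (n : ℕ) :
    (((dg l hl) ^ n)⁻¹).1 = !![(l⁻¹) ^ n, 0; 0, l ^ n] := by
  rw [Matrix.SpecialLinearGroup.coe_inv, dg_pow]
  ext i j
  fin_cases i <;> fin_cases j <;> simp [Matrix.adjugate_fin_two]

variable {α : Type}

/-- the value of a letter -/
noncomputable def val (G H : α → SL2) (D : SL2) (s : α × Bool) : SL2 :=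
  cond s.2 (G s.1 * D * (H s.1)⁻¹) (G s.1 * D * (H s.1)⁻¹)⁻¹

/-- the column of a letter -/
noncomputable def cl (G H : α → SL2) (s : α × Bool) : Fin 2 → ℂ :=
  fun a => cond s.2 ((G s.1).1 a 0) ((H s.1).1 a 1)

/-- the row of a letter -/
noncomputable def rw' (G H : α → SL2) (s : α × Bool) : Fin 2 → ℂ :=
  fun a => cond s.2 (((H s.1)⁻¹).1 0 a) (((G s.1)⁻¹).1 1 a)

theorem row_ne (g : SL2) (i : Fin 2) : (fun a => g.1 i a) ≠ 0 := by
  intro h
  have hd := g.2
  rw [Matrix.det_eq_zero_of_row_eq_zero i (fun j => congrFun h j)] at hd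
  exact zero_ne_one hd

theorem col_ne (g : SL2) (j : Fin 2) : (fun a => g.1 a j) ≠ 0 := by
  intro h
  have hd := g.2
  rw [Matrix.det_eq_zero_of_column_eq_zero j (fun i => congrFun h i)] at hd
  exact zero_ne_one hd

theorem cl_ne (G H : α → SL2) (s : α × Bool) : cl G H s ≠ 0 := by
  obtain ⟨i, b⟩ := s
  cases b
  · exact col_ne (H i) 1
  · exact col_ne (G i) 0

theorem rw_ne (G H : α → SL2) (s : α × Bool) : rw' G H s ≠ 0 := by
  obtain ⟨i, b⟩ := s
  cases b
  · exact row_ne (G i)⁻¹ 1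
  · exact row_ne (H i)⁻¹ 0

theorem val_tendsto (G H : α → SL2) (l : ℂ) (hl : l ≠ 0) (hl1 : 1 < ‖l‖) (s : α × Bool) :
    Tendsto (fun n : ℕ => (l ^ n)⁻¹ • (val G H ((dg l hl) ^ n) s).1) atTop
      (𝓝 (vecMulVec (cl G H s) (rw' G H s))) := by
  have h0 : Tendsto (fun n : ℕ => (l ^ n)⁻¹ * (l⁻¹) ^ n) atTop (𝓝 0) := by
    have : (fun n : ℕ => (l ^ n)⁻¹ * (l⁻¹) ^ n) = fun n : ℕ => (l⁻¹ * l⁻¹) ^ n := by
      funext n; rw [mul_pow, inv_pow]
    rw [this]
    apply tendsto_pow_atTop_nhds_zero_of_norm_lt_one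
    rw [norm_mul, norm_inv]
    have h1 : ‖l‖⁻¹ < 1 := inv_lt_one_of_one_lt₀ hl1
    have h2 : 0 ≤ ‖l‖⁻¹ := by positivity
    nlinarith
  have hln : ∀ n : ℕ, (l ^ n)⁻¹ * l ^ n = 1 := fun n => inv_mul_cancel₀ (pow_ne_zero n hl)
  obtain ⟨i, b⟩ := s
  cases b
  · have hm : Tendsto (fun n : ℕ => (H i).1 * ((l ^ n)⁻¹ • (((dg l hl) ^ n)⁻¹).1) * ((G i)⁻¹).1)
        atTop (𝓝 ((H i).1 * !![0, 0; 0, 1] * ((G i)⁻¹).1)) := by
      refine ((tendsto_const_nhds.mul ?_).mul tendsto_const_nhds)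
      refine tendsto_pi_nhds.2 fun a => tendsto_pi_nhds.2 fun c => ?_
      simp only [Matrix.smul_apply, dg_pow_inv, smul_eq_mul]
      fin_cases a <;> fin_cases c
      · exact h0
      · simp
      · simp
      · simp [hln]
    have e1 : (H i).1 * !![0, 0; 0, 1] * ((G i)⁻¹).1 =
        vecMulVec (cl G H (i, false)) (rw' G H (i, false)) := by
      ext a c
      fin_cases a <;> fin_cases c <;>
        simp [Matrix.mul_apply, Fin.sum_univ_two, vecMulVec_apply, cl, rw']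
    rw [e1] at hm
    refine hm.congr fun n => ?_
    have e2 : (val G H ((dg l hl) ^ n) (i, false)).1 =
        (H i).1 * (((dg l hl) ^ n)⁻¹).1 * ((G i)⁻¹).1 := by
      have : val G H ((dg l hl) ^ n) (i, false) = H i * ((dg l hl) ^ n)⁻¹ * (G i)⁻¹ := by
        change (G i * (dg l hl) ^ n * (H i)⁻¹)⁻¹ = _
        group
      rw [this]; rfl
    rw [e2, Matrix.mul_smul, Matrix.smul_mul]
  · have hm : Tendsto (fun n : ℕ => (G i).1 * ((l ^ n)⁻¹ • ((dg l hl) ^ n).1) * ((H i)⁻¹).1)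
        atTop (𝓝 ((G i).1 * !![1, 0; 0, 0] * ((H i)⁻¹).1)) := by
      refine ((tendsto_const_nhds.mul ?_).mul tendsto_const_nhds)
      refine tendsto_pi_nhds.2 fun a => tendsto_pi_nhds.2 fun c => ?_
      simp only [Matrix.smul_apply, dg_pow, smul_eq_mul]
      fin_cases a <;> fin_cases c
      · simp [hln]
      · simp
      · simp
      · exact h0
    have e1 : (G i).1 * !![1, 0; 0, 0] * ((H i)⁻¹).1 =
        vecMulVec (cl G H (i, true)) (rw' G H (i, true)) := by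
      ext a c
      fin_cases a <;> fin_cases c <;>
        simp [Matrix.mul_apply, Fin.sum_univ_two, vecMulVec_apply, cl, rw']
    rw [e1] at hm
    refine hm.congr fun n => ?_
    have e2 : (val G H ((dg l hl) ^ n) (i, true)).1 =
        (G i).1 * ((dg l hl) ^ n).1 * ((H i)⁻¹).1 := rfl
    rw [e2, Matrix.mul_smul, Matrix.smul_mul]

/-- the limit of a word -/
noncomputable def lim (G H : α → SL2) (L : List (α × Bool)) : Matrix (Fin 2) (Fin 2) ℂ :=
  (L.map (fun s => vecMulVec (cl G H s) (rw' G H s))).prod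

theorem word_tendsto (G H : α → SL2) (l : ℂ) (hl : l ≠ 0) (hl1 : 1 < ‖l‖)
    (L : List (α × Bool)) :
    Tendsto (fun n : ℕ => ((l ^ n)⁻¹) ^ L.length •
      ((L.map (val G H ((dg l hl) ^ n))).prod).1) atTop (𝓝 (lim G H L)) := by
  induction L with
  | nil =>
    refine tendsto_const_nhds.congr fun n => ?_
    simp [lim]
  | cons s L ih =>
    have h := (val_tendsto G H l hl hl1 s).mul ih
    have e : lim G H (s :: L) = vecMulVec (cl G H s) (rw' G H s) * lim G H L := by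
      unfold lim
      rw [List.map_cons, List.prod_cons]
    rw [e]
    refine h.congr fun n => ?_
    rw [List.map_cons, List.prod_cons, List.length_cons, pow_succ', Matrix.smul_mul,
      Matrix.mul_smul, smul_smul]
    rfl

theorem lim_ne (G H : α → SL2)
    (h11 : ∀ i j, ((H i)⁻¹ * G j).1 0 0 ≠ 0)
    (h22 : ∀ i j, ((G i)⁻¹ * H j).1 1 1 ≠ 0)
    (h12 : ∀ i j, i ≠ j → ((H i)⁻¹ * H j).1 0 1 ≠ 0)
    (h21 : ∀ i j, i ≠ j → ((G i)⁻¹ * G j).1 1 0 ≠ 0) :
    ∀ (L : List (α × Bool)) (s : α × Bool), FreeGroup.IsReduced (s :: L) →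
      ∃ ρ : Fin 2 → ℂ, ρ ≠ 0 ∧ lim G H (s :: L) = vecMulVec (cl G H s) ρ := by
  have hne : ∀ s t : α × Bool, (s.1 = t.1 → s.2 = t.2) → rw' G H s ⬝ᵥ cl G H t ≠ 0 := by
    rintro ⟨i, b⟩ ⟨j, c⟩ hst
    have key : ∀ (g h : SL2) (a d : Fin 2),
        (fun k => g.1 a k) ⬝ᵥ (fun k => h.1 k d) = (g * h).1 a d := fun g h a d => rfl
    cases b <;> cases c
    · exact h22 i j
    · refine h21 i j ?_
      intro hij
      exact absurd (hst hij) (by simp)
    · refine h12 i j ?_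
      intro hij
      exact absurd (hst hij) (by simp)
    · exact h11 i j
  intro L
  induction L with
  | nil =>
    intro s _
    refine ⟨rw' G H s, rw_ne G H s, ?_⟩
    simp [lim]
  | cons t L ih =>
    intro s hred
    have h1 := List.isChain_cons_cons.1 hred
    obtain ⟨ρ, hρ, hlim⟩ := ih t h1.2
    refine ⟨(rw' G H s ⬝ᵥ cl G H t) • ρ, smul_ne_zero (hne s t h1.1) hρ, ?_⟩
    have e : lim G H (s :: t :: L) =
        vecMulVec (cl G H s) (rw' G H s) * lim G H (t :: L) := by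
      unfold lim
      rw [List.map_cons, List.prod_cons]
    rw [e, hlim]
    ext a c
    simp only [Matrix.mul_apply, vecMulVec_apply, dotProduct, Pi.smul_apply, smul_eq_mul,
      Fin.sum_univ_two]
    ring

theorem vecMulVec_ne {a b : Fin 2 → ℂ} (ha : a ≠ 0) (hb : b ≠ 0) : vecMulVec a b ≠ 0 := by
  obtain ⟨i, hi⟩ := Function.ne_iff.1 ha
  obtain ⟨j, hj⟩ := Function.ne_iff.1 hb
  intro h
  have := congrFun (congrFun h i) j
  rw [vecMulVec_apply] at this
  exact mul_ne_zero hi hj this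

end Asym

open Asym in
/-- NS-10a -/
theorem asym {α : Type} [DecidableEq α] (G H : α → SL2) (l : ℂ) (hl : l ≠ 0) (hl1 : 1 < ‖l‖)
    (h11 : ∀ i j, ((H i)⁻¹ * G j).1 0 0 ≠ 0)
    (h22 : ∀ i j, ((G i)⁻¹ * H j).1 1 1 ≠ 0)
    (h12 : ∀ i j, i ≠ j → ((H i)⁻¹ * H j).1 0 1 ≠ 0)
    (h21 : ∀ i j, i ≠ j → ((G i)⁻¹ * G j).1 1 0 ≠ 0)
    (v : FreeGroup α) :
    ∃ C : ℝ, 0 < C ∧ Tendsto (fun n : ℕ =>
      N (FreeGroup.lift (fun i => G i * (dg l hl) ^ n * (H i)⁻¹) v).1 / ‖l‖ ^ (2 * n * v.norm))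
      atTop (𝓝 C) := by
  have hne : lim G H v.toWord ≠ 0 := by
    cases hw : v.toWord with
    | nil =>
      intro h
      have h2 := congrFun (congrFun h 0) 0
      have h3 : (1 : Matrix (Fin 2) (Fin 2) ℂ) 0 0 = 0 := h2
      simp at h3
    | cons s L =>
      have hred : FreeGroup.IsReduced (s :: L) := by
        rw [← hw]; exact FreeGroup.isReduced_toWord
      obtain ⟨ρ, hρ, h⟩ := lim_ne G H h11 h22 h12 h21 L s hred
      rw [h]
      exact vecMulVec_ne (cl_ne G H s) hρ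
  refine ⟨N (lim G H v.toWord), N_pos hne, ?_⟩
  have h := (N_continuous.tendsto _).comp (word_tendsto G H l hl hl1 v.toWord)
  refine h.congr fun n => ?_
  have e1 : FreeGroup.lift (fun i => G i * (dg l hl) ^ n * (H i)⁻¹) v =
      (v.toWord.map (val G H ((dg l hl) ^ n))).prod := by
    conv_lhs => rw [← FreeGroup.mk_toWord (x := v)]
    rw [FreeGroup.lift_mk]
    rfl
  rw [Function.comp_apply, e1, N_smul, norm_pow, norm_inv, norm_pow, ← pow_mul, inv_pow,
    ← pow_mul, FreeGroup.norm, div_eq_inv_mul]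
  congr 2
  congr 1
  ring

end Helper85.NS
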