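import Pool.Agent.Helper85.NS.Defs

/-!
Bases of free groups adapted to a character.
-/

namespace Helper85.NS

/-- the endomorphism `x_i ↦ x_i x_j ^ z` -/
def nielHom {α : Type} [DecidableEq α] (i j : α) (z : ℤ) : FreeGroup α →* FreeGroup α :=
  FreeGroup.lift (fun x => if x = i then FreeGroup.of i * (FreeGroup.of j) ^ z else FreeGroup.of x)

theorem nielHom_self {α : Type} [DecidableEq α] (i j : α) (z : ℤ) :
    nielHom i j z (FreeGroup.of i) = FreeGroup.of i * (FreeGroup.of j) ^ z := by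
  simp [nielHom]

theorem nielHom_ne {α : Type} [DecidableEq α] (i j x : α) (z : ℤ) (h : x ≠ i) :
    nielHom i j z (FreeGroup.of x) = FreeGroup.of x := by
  simp [nielHom, h]

theorem nielHom_comp {α : Type} [DecidableEq α] (i j : α) (hij : i ≠ j) (z : ℤ) :
    (nielHom i j (-z)).comp (nielHom i j z) = MonoidHom.id _ := by
  apply FreeGroup.ext_hom
  intro a
  by_cases ha : a = i
  · subst ha
    rw [MonoidHom.comp_apply, nielHom_self, map_mul, map_zpow, nielHom_self,
      nielHom_ne a j j _ hij.symm, MonoidHom.id_apply, mul_assoc, ← zpow_add]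
    simp
  · rw [MonoidHom.comp_apply, nielHom_ne _ _ _ _ ha, nielHom_ne _ _ _ _ ha, MonoidHom.id_apply]

/-- the Nielsen automorphism `x_i ↦ x_i x_j ^ z` -/
def niel {α : Type} [DecidableEq α] (i j : α) (hij : i ≠ j) (z : ℤ) :
    FreeGroup α ≃* FreeGroup α :=
  MonoidHom.toMulEquiv (nielHom i j z) (nielHom i j (-z)) (nielHom_comp i j hij z)
    (by have h := nielHom_comp i j hij (-z); rwa [neg_neg] at h)

theorem niel_self {α : Type} [DecidableEq α] (i j : α) (hij : i ≠ j) (z : ℤ) :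
    niel i j hij z (FreeGroup.of i) = FreeGroup.of i * (FreeGroup.of j) ^ z := nielHom_self i j z

theorem niel_ne {α : Type} [DecidableEq α] (i j : α) (hij : i ≠ j) (x : α) (z : ℤ) (h : x ≠ i) :
    niel i j hij z (FreeGroup.of x) = FreeGroup.of x := nielHom_ne i j x z h

/-- NS-7a -/
theorem exists_basis {α : Type} [Fintype α] [DecidableEq α] (b₀ k₀ : α) (hbk : b₀ ≠ k₀)
    (ψ : FreeGroup α →* Multiplicative ℤ) (hψ : ψ ≠ 1) :
    ∃ e : FreeGroup α ≃* FreeGroup α,
      (∀ i, i ≠ b₀ → i ≠ k₀ → ψ (e (FreeGroup.of i)) = 1) ∧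
      ψ (e (FreeGroup.of k₀)) = ψ (e (FreeGroup.of b₀)) ∧ ψ (e (FreeGroup.of b₀)) ≠ 1 := by
  classical
  -- the value on a basis element as an integer
  let m : (FreeGroup α ≃* FreeGroup α) → α → ℤ :=
    fun e i => Multiplicative.toAdd (ψ (e (FreeGroup.of i)))
  have hm1 : ∀ e i, ψ (e (FreeGroup.of i)) = 1 ↔ m e i = 0 := by
    intro e i
    exact Iff.rfl
  -- a minimal basis
  obtain ⟨e, he⟩ : ∃ e : FreeGroup α ≃* FreeGroup α, ∀ e' : FreeGroup α ≃* FreeGroup α,
      ∑ i, (m e i).natAbs ≤ ∑ i, (m e' i).natAbs := by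
    have hne : (Set.range (fun e : FreeGroup α ≃* FreeGroup α => ∑ i, (m e i).natAbs)).Nonempty :=
      ⟨_, MulEquiv.refl _, rfl⟩
    obtain ⟨e, he⟩ := Nat.sInf_mem hne
    refine ⟨e, fun e' => ?_⟩
    have he' : ∑ i, (m e i).natAbs = sInf (Set.range
      (fun e : FreeGroup α ≃* FreeGroup α => ∑ i, (m e i).natAbs)) := he
    rw [he']
    exact Nat.sInf_le ⟨e', rfl⟩
  -- at most one value is nonzero
  have huniq : ∀ i j, i ≠ j → (m e j).natAbs ≤ (m e i).natAbs → m e j = 0 := by
    intro i j hij hle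
    by_contra hj
    obtain ⟨z, hz⟩ : ∃ z : ℤ, (m e i + z * m e j).natAbs < (m e i).natAbs := by
      rcases lt_or_gt_of_ne hj with h1 | h1
      · rcases le_total (m e i) 0 with h2 | h2
        · exact ⟨-1, by omega⟩
        · exact ⟨1, by omega⟩
      · rcases le_total (m e i) 0 with h2 | h2
        · exact ⟨1, by omega⟩
        · exact ⟨-1, by omega⟩
    have h3 := he ((niel i j hij z).trans e)
    have h4 : ∀ x, m ((niel i j hij z).trans e) x = if x = i then m e i + z * m e j else m e x := by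
      intro x
      by_cases hx : x = i
      · subst hx
        rw [if_pos rfl]
        show Multiplicative.toAdd (ψ (e (niel x j hij z (FreeGroup.of x)))) = _
        rw [niel_self, map_mul, map_zpow, map_mul, map_zpow, toAdd_mul, toAdd_zpow, smul_eq_mul]
      · rw [if_neg hx]
        show Multiplicative.toAdd (ψ (e (niel i j hij z (FreeGroup.of x)))) = _
        rw [niel_ne _ _ _ _ _ hx]
    have h5 : ∑ x, (m ((niel i j hij z).trans e) x).natAbs < ∑ x, (m e x).natAbs := by
      apply Finset.sum_lt_sum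
      · intro x _
        rw [h4]
        split_ifs with hx
        · subst hx
          exact hz.le
        · exact le_rfl
      · refine ⟨i, Finset.mem_univ _, ?_⟩
        rw [h4, if_pos rfl]
        exact hz
    omega
  -- some value is nonzero
  obtain ⟨i0, hi0⟩ : ∃ i, m e i ≠ 0 := by
    by_contra hcon
    push Not at hcon
    apply hψ
    have h1 : ψ.comp e.toMonoidHom = 1 := by
      apply FreeGroup.ext_hom
      intro a
      exact (hm1 e a).2 (hcon a)
    refine MonoidHom.ext (fun x => ?_)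
    have h2 := DFunLike.congr_fun h1 (e.symm x)
    simpa using h2
  have hzero : ∀ i, i ≠ i0 → m e i = 0 := by
    intro i hi
    rcases le_total (m e i).natAbs (m e i0).natAbs with h | h
    · exact huniq i0 i (Ne.symm hi) h
    · exact absurd (huniq i i0 hi h) hi0
  -- permute
  let e2 : FreeGroup α ≃* FreeGroup α := (FreeGroup.freeGroupCongr (Equiv.swap b₀ i0)).trans e
  have he2 : ∀ x, m e2 x = m e (Equiv.swap b₀ i0 x) := by
    intro x
    show Multiplicative.toAdd (ψ (e (FreeGroup.freeGroupCongr (Equiv.swap b₀ i0)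
      (FreeGroup.of x)))) = _
    simp [m]
  have h2b : m e2 b₀ ≠ 0 := by
    rw [he2, Equiv.swap_apply_left]
    exact hi0
  have h2x : ∀ x, x ≠ b₀ → m e2 x = 0 := by
    intro x hx
    rw [he2]
    apply hzero
    intro h
    apply hx
    have := congrArg (Equiv.swap b₀ i0) h
    simpa using this
  refine ⟨(niel k₀ b₀ hbk.symm 1).trans e2, ?_, ?_, ?_⟩
  · intro i hi1 hi2
    show ψ (e2 (niel k₀ b₀ hbk.symm 1 (FreeGroup.of i))) = 1
    rw [niel_ne _ _ _ _ _ hi2, hm1]
    exact h2x i hi1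
  · show ψ (e2 (niel k₀ b₀ hbk.symm 1 (FreeGroup.of k₀))) =
      ψ (e2 (niel k₀ b₀ hbk.symm 1 (FreeGroup.of b₀)))
    rw [niel_ne _ _ _ _ _ hbk, niel_self, zpow_one, map_mul, map_mul]
    have h : ψ (e2 (FreeGroup.of k₀)) = 1 := (hm1 e2 k₀).2 (h2x k₀ hbk.symm)
    rw [h, one_mul]
  · show ψ (e2 (niel k₀ b₀ hbk.symm 1 (FreeGroup.of b₀))) ≠ 1
    rw [niel_ne _ _ _ _ _ hbk]
    exact fun h => h2b ((hm1 e2 b₀).1 h)

end Helper85.NS
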