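import Pool.Agent.Helper85.NS.Fp3

/-!
The range of `wz` is undistorted.
-/

namespace Helper85.NS

open Monoid

section Und

variable {B C : Type} [Group B] [Group C]

open Classical in
/-- the transition function of the automaton -/
noncomputable def undStep (x : B) (z : C) (s : ℕ) (l : Σ i, Fam B C i) : ℕ :=
  if s = 0 then (if l.1 = true then 1 else if l = ⟨false, z⟩ then 2 else 6)
  else if s = 1 then (if l = ⟨false, z⟩ then 2 else 6)
  else if s = 2 then (if l = ⟨true, x⟩ then 3 else 6)
  else if s = 3 then (if l.1 = false then 4 else 6)
  else if s = 4 then (if l = ⟨true, (x⁻¹ : B)⟩ then 5 else 6)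
  else if s = 5 then (if l = ⟨false, (z⁻¹ : C)⟩ then 0 else 6)
  else 6

/-- the state after reading a word from right to left -/
noncomputable def undSt (x : B) (z : C) : List (Σ i, Fam B C i) → ℕ
  | [] => 0
  | l :: t => undStep x z (undSt x z t) l

/-- the syllable is kept -/
def undEmit (s : ℕ) (i : Bool) : Prop := (s = 0 ∧ i = true) ∨ (s = 3 ∧ i = false)

open Classical in
/-- the output -/
noncomputable def undOut (x : B) (z : C) : List (Σ i, Fam B C i) → CoprodI (Fam B C)
  | [] => 1
  | l :: t => if undEmit (undSt x z t) l.1 then CoprodI.of l.2 * undOut x z t else undOut x z t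

open Classical in
theorem undOut_rcons (x : B) (z : C) {i : Bool} (p : CoprodI.Word.Pair (Fam B C) i) :
    undOut x z (CoprodI.Word.rcons p).toList =
      if undEmit (undSt x z p.tail.toList) i then CoprodI.of p.head * undOut x z p.tail.toList
      else undOut x z p.tail.toList := by
  unfold CoprodI.Word.rcons
  split_ifs with h1 h2
  · rw [h1, map_one, one_mul]
  · rfl
  · show (if undEmit (undSt x z p.tail.toList) i then CoprodI.of p.head *
      undOut x z p.tail.toList else undOut x z p.tail.toList) = _
    rw [if_pos ‹_›]
  · show (if undEmit (undSt x z p.tail.toList) i then CoprodI.of p.head *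
      undOut x z p.tail.toList else undOut x z p.tail.toList) = _
    rw [if_neg ‹_›]

open Classical in
theorem undOut_smul (x : B) (z : C) {i : Bool} (m : Fam B C i) (w : CoprodI.Word (Fam B C)) :
    undOut x z (CoprodI.of m • w).toList = undOut x z w.toList ∨
      undOut x z (CoprodI.of m • w).toList = CoprodI.of m * undOut x z w.toList := by
  have h1 : w = CoprodI.Word.rcons (CoprodI.Word.equivPair i w) := by
    rw [← CoprodI.Word.equivPair_symm, Equiv.symm_apply_apply]
  have h2 := undOut_rcons x z (CoprodI.Word.equivPair i w)
  rw [← h1] at h2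
  rw [CoprodI.Word.of_smul_def, undOut_rcons, h2]
  by_cases h : undEmit (undSt x z (CoprodI.Word.equivPair i w).tail.toList) i
  · right
    rw [if_pos h, if_pos h, map_mul, mul_assoc]
  · left
    rw [if_neg h, if_neg h]

/-- to the free product of the family -/
def undE (B C : Type) [Group B] [Group C] : Coprod B C →* CoprodI (Fam B C) :=
  Coprod.lift (CoprodI.of (M := Fam B C) (i := true)) (CoprodI.of (M := Fam B C) (i := false))

/-- back -/
def undE' (B C : Type) [Group B] [Group C] : CoprodI (Fam B C) →* Coprod B C :=
  CoprodI.lift fun b => match b with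
    | true => (Coprod.inl : B →* Coprod B C)
    | false => (Coprod.inr : C →* Coprod B C)

theorem undE_inl (b : B) : undE B C (Coprod.inl b) = CoprodI.of (M := Fam B C) (i := true) b := by
  simp [undE]
  rfl

theorem undE_inr (c : C) : undE B C (Coprod.inr c) = CoprodI.of (M := Fam B C) (i := false) c := by
  simp [undE]
  rfl

theorem undE'_true (b : B) :
    undE' B C (CoprodI.of (M := Fam B C) (i := true) b) = Coprod.inl b := by
  unfold undE'
  rw [CoprodI.lift_of]
  rfl

theorem undE'_false (c : C) :
    undE' B C (CoprodI.of (M := Fam B C) (i := false) c) = Coprod.inr c := by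
  unfold undE'
  rw [CoprodI.lift_of]
  rfl

theorem undE'_undE (g : Coprod B C) : undE' B C (undE B C g) = g := by
  have h : (undE' B C).comp (undE B C) = MonoidHom.id _ := by
    apply Coprod.hom_ext
    · ext b
      show undE' B C (undE B C (Coprod.inl b)) = Coprod.inl b
      rw [undE_inl, undE'_true]
    · ext c
      show undE' B C (undE B C (Coprod.inr c)) = Coprod.inr c
      rw [undE_inr, undE'_false]
  exact DFunLike.congr_fun h g

open Classical in
/-- a letter in front of a word -/
theorem und_cons {i : Bool} (m : Fam B C i) (w : CoprodI.Word (Fam B C)) (h1 : m ≠ 1)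
    (h2 : w.fstIdx ≠ some i) :
    (CoprodI.of m • w).toList = ⟨i, m⟩ :: w.toList ∧ (CoprodI.of m • w).fstIdx = some i := by
  rw [← CoprodI.Word.cons_eq_smul (h1 := h2) (h2 := h1)]
  exact ⟨rfl, CoprodI.Word.fstIdx_cons _ _ _ _⟩

open Classical in
/-- the word of the image of a word -/
theorem und_key (x : B) (z : C) (hx : x ≠ 1) (hz : z ≠ 1) (u : CoprodI.Word (Fam B C)) :
    ∃ w : CoprodI.Word (Fam B C), w = undE B C (wz x z (undE' B C u.prod)) •
        (CoprodI.Word.empty : CoprodI.Word (Fam B C)) ∧
      undOut x z w.toList = u.prod ∧ w.fstIdx = u.fstIdx ∧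
      undSt x z w.toList = (if u.fstIdx = some true then 1 else 0) := by
  induction u using CoprodI.Word.consRecOn with
  | empty =>
    refine ⟨CoprodI.Word.empty, ?_, ?_, rfl, ?_⟩
    · rw [CoprodI.Word.prod_empty, map_one, map_one, map_one, one_smul]
    · rw [CoprodI.Word.prod_empty]
      rfl
    · rfl
  | cons i m u h1 h2 ih =>
    obtain ⟨w, hw, hout, hfst, hst⟩ := ih
    rw [CoprodI.Word.prod_cons, CoprodI.Word.fstIdx_cons]
    cases i with
    | true =>
      have hc := und_cons (i := true) m w h2 (by rw [hfst]; exact h1)
      refine ⟨CoprodI.of m • w, ?_, ?_, hc.2, ?_⟩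
      · rw [map_mul, map_mul, map_mul]
        have h3 : undE B C (wz x z (undE' B C (CoprodI.of (M := Fam B C) (i := true) m))) =
            CoprodI.of (M := Fam B C) (i := true) m := by
          have h4 := undE'_true (B := B) (C := C) m
          rw [h4, wz_inl, undE_inl]
        rw [h3, mul_smul, ← hw]
      · rw [hc.1]
        have h0 : undSt x z w.toList = 0 := by rw [hst, if_neg h1]
        show (if undEmit (undSt x z w.toList) true then CoprodI.of m * undOut x z w.toList
          else undOut x z w.toList) = _
        have he : undEmit (undSt x z w.toList) true := Or.inl ⟨h0, rfl⟩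
        rw [if_pos he, hout]
      · rw [hc.1]
        have h0 : undSt x z w.toList = 0 := by rw [hst, if_neg h1]
        show undStep x z (undSt x z w.toList) ⟨true, m⟩ = _
        rw [h0]
        simp [undStep]
    | false =>
      have hz' : (z⁻¹ : C) ≠ 1 := inv_ne_one.mpr hz
      have hx' : (x⁻¹ : B) ≠ 1 := inv_ne_one.mpr hx
      let lz : Fam B C false := z
      let lx : Fam B C true := x
      let lz' : Fam B C false := (z⁻¹ : C)
      let lx' : Fam B C true := (x⁻¹ : B)
      have c1 := und_cons lz w hz (by rw [hfst]; exact h1)
      have c2 := und_cons lx (CoprodI.of lz • w) hx (by rw [c1.2]; simp)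
      have c3 := und_cons (i := false) m (CoprodI.of lx • CoprodI.of lz • w) h2
        (by rw [c2.2]; simp)
      have c4 := und_cons lx' (CoprodI.of m • CoprodI.of lx • CoprodI.of lz • w) hx'
        (by rw [c3.2]; simp)
      have c5 := und_cons lz' (CoprodI.of lx' • CoprodI.of m • CoprodI.of lx •
        CoprodI.of lz • w) hz' (by rw [c4.2]; simp)
      have s0 : undSt x z w.toList = 0 ∨ undSt x z w.toList = 1 := by
        rw [hst]
        split_ifs
        · exact Or.inr rfl
        · exact Or.inl rfl
      have s1 : undSt x z (CoprodI.of lz • w).toList = 2 := by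
        rw [c1.1]
        show undStep x z (undSt x z w.toList) ⟨false, z⟩ = 2
        rcases s0 with h | h
        · rw [h]
          simp [undStep]
        · rw [h]
          simp [undStep]
      have s2 : undSt x z (CoprodI.of lx • CoprodI.of lz • w).toList = 3 := by
        rw [c2.1]
        show undStep x z (undSt x z (CoprodI.of lz • w).toList) ⟨true, x⟩ = 3
        rw [s1]
        simp [undStep]
      have s3 : undSt x z (CoprodI.of m • CoprodI.of lx • CoprodI.of lz • w).toList = 4 := by
        rw [c3.1]
        show undStep x z (undSt x z (CoprodI.of lx • CoprodI.of lz • w).toList) ⟨false, m⟩ = 4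
        rw [s2]
        simp [undStep]
      have s4 : undSt x z (CoprodI.of lx' • CoprodI.of m • CoprodI.of lx •
          CoprodI.of lz • w).toList = 5 := by
        rw [c4.1]
        show undStep x z (undSt x z (CoprodI.of m • CoprodI.of lx • CoprodI.of lz • w).toList)
          ⟨true, (x⁻¹ : B)⟩ = 5
        rw [s3]
        simp [undStep]
      have s5 : undSt x z (CoprodI.of lz' • CoprodI.of lx' • CoprodI.of m • CoprodI.of lx •
          CoprodI.of lz • w).toList = 0 := by
        rw [c5.1]
        show undStep x z (undSt x z (CoprodI.of lx' • CoprodI.of m • CoprodI.of lx •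
          CoprodI.of lz • w).toList) ⟨false, (z⁻¹ : C)⟩ = 0
        rw [s4]
        simp [undStep]
      have o1 : undOut x z (CoprodI.of lz • w).toList = undOut x z w.toList := by
        rw [c1.1]
        show (if undEmit (undSt x z w.toList) false then CoprodI.of lz * undOut x z w.toList
          else undOut x z w.toList) = _
        rw [if_neg]
        rcases s0 with h | h <;> rw [h] <;> simp [undEmit]
      have o2 : undOut x z (CoprodI.of lx • CoprodI.of lz • w).toList = undOut x z w.toList := by
        rw [c2.1]
        show (if undEmit (undSt x z (CoprodI.of lz • w).toList) true then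
          CoprodI.of lx * undOut x z (CoprodI.of lz • w).toList
          else undOut x z (CoprodI.of lz • w).toList) = _
        rw [if_neg, o1]
        rw [s1]
        simp [undEmit]
      have o3 : undOut x z (CoprodI.of m • CoprodI.of lx • CoprodI.of lz • w).toList =
          CoprodI.of m * undOut x z w.toList := by
        rw [c3.1]
        show (if undEmit (undSt x z (CoprodI.of lx • CoprodI.of lz • w).toList) false then
          CoprodI.of m * undOut x z (CoprodI.of lx • CoprodI.of lz • w).toList
          else undOut x z (CoprodI.of lx • CoprodI.of lz • w).toList) = _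
        rw [if_pos, o2]
        rw [s2]
        simp [undEmit]
      have o4 : undOut x z (CoprodI.of lx' • CoprodI.of m • CoprodI.of lx •
          CoprodI.of lz • w).toList = CoprodI.of m * undOut x z w.toList := by
        rw [c4.1]
        show (if undEmit (undSt x z (CoprodI.of m • CoprodI.of lx • CoprodI.of lz • w).toList)
          true then CoprodI.of lx' *
            undOut x z (CoprodI.of m • CoprodI.of lx • CoprodI.of lz • w).toList
          else undOut x z (CoprodI.of m • CoprodI.of lx • CoprodI.of lz • w).toList) = _
        rw [if_neg, o3]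
        rw [s3]
        simp [undEmit]
      have o5 : undOut x z (CoprodI.of lz' • CoprodI.of lx' • CoprodI.of m • CoprodI.of lx •
          CoprodI.of lz • w).toList = CoprodI.of m * undOut x z w.toList := by
        rw [c5.1]
        show (if undEmit (undSt x z (CoprodI.of lx' • CoprodI.of m • CoprodI.of lx •
            CoprodI.of lz • w).toList) false then CoprodI.of lz' *
            undOut x z (CoprodI.of lx' • CoprodI.of m • CoprodI.of lx •
              CoprodI.of lz • w).toList
          else undOut x z (CoprodI.of lx' • CoprodI.of m • CoprodI.of lx •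
            CoprodI.of lz • w).toList) = _
        rw [if_neg, o4]
        rw [s4]
        simp [undEmit]
      refine ⟨CoprodI.of lz' • CoprodI.of lx' • CoprodI.of m • CoprodI.of lx •
          CoprodI.of lz • w, ?_, ?_, c5.2, ?_⟩
      · rw [map_mul, map_mul, map_mul]
        have h3 : undE B C (wz x z (undE' B C (CoprodI.of (M := Fam B C) (i := false) m))) =
            CoprodI.of lz' * (CoprodI.of lx' * (CoprodI.of (M := Fam B C) (i := false) m *
              (CoprodI.of lx * CoprodI.of lz))) := by
          have h4 := undE'_false (B := B) (C := C) m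
          rw [h4, wz_inr]
          have h5 : undE B C (kz x z) = CoprodI.of lx * CoprodI.of lz := by
            unfold kz
            rw [map_mul, undE_inl, undE_inr]
          have h6 : (undE B C (kz x z))⁻¹ = CoprodI.of lz' * CoprodI.of lx' := by
            rw [h5, mul_inv_rev]
            have h7 : (CoprodI.of lz)⁻¹ = CoprodI.of lz' := (map_inv _ _).symm
            have h8 : (CoprodI.of lx)⁻¹ = CoprodI.of lx' := (map_inv _ _).symm
            rw [h7, h8]
          rw [map_mul, map_mul, map_inv, h6, h5, undE_inr]
          simp only [mul_assoc]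
        rw [h3, mul_smul, ← hw, mul_smul, mul_smul, mul_smul, mul_smul]
      · rw [o5, hout]
      · rw [s5]
        simp

end Und

/-- NS-24 -/
theorem wz_undistorted {B C : Type} [Group B] [Group C] (x : B) (z : C) (hx : x ≠ 1) (hz : z ≠ 1)
    (F : Set (Coprod B C)) (h1 : 1 ∈ F)
    (hF : ∀ f ∈ F, f ∈ (Coprod.inl : B →* Coprod B C).range ∨
      f ∈ (Coprod.inr : C →* Coprod B C).range)
    (l : List (Coprod B C)) (hl : ∀ f ∈ l, f ∈ F) (a : Coprod B C) (ha : l.prod = wz x z a) :
    ∃ l' : List (Coprod B C), l'.length = l.length ∧ (∀ f ∈ l', f ∈ F) ∧ l'.prod = a := by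
  classical
  let r : Coprod B C → Coprod B C := fun g => undE' B C (undOut x z
    (undE B C g • (CoprodI.Word.empty : CoprodI.Word (Fam B C))).toList)
  have hr1 : r 1 = 1 := by
    show undE' B C (undOut x z
      (undE B C 1 • (CoprodI.Word.empty : CoprodI.Word (Fam B C))).toList) = 1
    rw [map_one, one_smul]
    exact map_one _
  have hr2 : r (wz x z a) = a := by
    have hu : ((undE B C a) • (CoprodI.Word.empty : CoprodI.Word (Fam B C))).prod =
        undE B C a := by
      rw [CoprodI.Word.prod_smul, CoprodI.Word.prod_empty, mul_one]
    obtain ⟨w, hw, hout, -, -⟩ := und_key x z hx hz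
      ((undE B C a) • (CoprodI.Word.empty : CoprodI.Word (Fam B C)))
    rw [hu, undE'_undE] at hw
    rw [hu] at hout
    show undE' B C (undOut x z
      (undE B C (wz x z a) • (CoprodI.Word.empty : CoprodI.Word (Fam B C))).toList) = a
    rw [← hw, hout, undE'_undE]
  have hr3 : ∀ f ∈ F, ∀ g, r (f * g) = r g ∨ r (f * g) = f * r g := by
    intro f hf g
    rcases hF f hf with ⟨b, rfl⟩ | ⟨c, rfl⟩
    · have h := undOut_smul x z (i := true) b
        (undE B C g • (CoprodI.Word.empty : CoprodI.Word (Fam B C)))
      have h2 : undE B C (Coprod.inl b * g) • (CoprodI.Word.empty : CoprodI.Word (Fam B C)) =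
          CoprodI.of (M := Fam B C) (i := true) b • undE B C g •
            (CoprodI.Word.empty : CoprodI.Word (Fam B C)) := by
        rw [map_mul, mul_smul, undE_inl]
      rcases h with h | h
      · left
        show undE' B C (undOut x z (undE B C (Coprod.inl b * g) •
          (CoprodI.Word.empty : CoprodI.Word (Fam B C))).toList) = _
        rw [h2, h]
      · right
        show undE' B C (undOut x z (undE B C (Coprod.inl b * g) •
          (CoprodI.Word.empty : CoprodI.Word (Fam B C))).toList) = _
        rw [h2, h, map_mul, undE'_true]
    · have h := undOut_smul x z (i := false) c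
        (undE B C g • (CoprodI.Word.empty : CoprodI.Word (Fam B C)))
      have h2 : undE B C (Coprod.inr c * g) • (CoprodI.Word.empty : CoprodI.Word (Fam B C)) =
          CoprodI.of (M := Fam B C) (i := false) c • undE B C g •
            (CoprodI.Word.empty : CoprodI.Word (Fam B C)) := by
        rw [map_mul, mul_smul, undE_inr]
      rcases h with h | h
      · left
        show undE' B C (undOut x z (undE B C (Coprod.inr c * g) •
          (CoprodI.Word.empty : CoprodI.Word (Fam B C))).toList) = _
        rw [h2, h]
      · right
        show undE' B C (undOut x z (undE B C (Coprod.inr c * g) •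
          (CoprodI.Word.empty : CoprodI.Word (Fam B C))).toList) = _
        rw [h2, h, map_mul, undE'_false]
  have key : ∀ l : List (Coprod B C), (∀ f ∈ l, f ∈ F) →
      ∃ l' : List (Coprod B C), l'.length = l.length ∧ (∀ f ∈ l', f ∈ F) ∧
        l'.prod = r l.prod := by
    intro l
    induction l with
    | nil =>
      intro _
      exact ⟨[], rfl, by simp, by simp [hr1]⟩
    | cons f t ih =>
      intro hl
      obtain ⟨t', ht1, ht2, ht3⟩ := ih (fun g hg => hl g (List.mem_cons_of_mem _ hg))
      have hf : f ∈ F := hl f List.mem_cons_self
      rcases hr3 f hf t.prod with h | h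
      · refine ⟨1 :: t', by simp [ht1], ?_, ?_⟩
        · intro g hg
          rcases List.mem_cons.mp hg with rfl | hg
          · exact h1
          · exact ht2 g hg
        · rw [List.prod_cons, List.prod_cons, one_mul, ht3, h]
      · refine ⟨f :: t', by simp [ht1], ?_, ?_⟩
        · intro g hg
          rcases List.mem_cons.mp hg with rfl | hg
          · exact hf
          · exact ht2 g hg
        · rw [List.prod_cons, List.prod_cons, ht3, h]
  obtain ⟨l', h1', h2', h3'⟩ := key l hl
  exact ⟨l', h1', h2', by rw [h3', ha, hr2]⟩

end Helper85.NS
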