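import Pool.Agent.Helper85.NS.Cc
import Pool.Agent.Helper85.NS.Und

/-!
Partial conjugation of convex cocompact homomorphisms.
-/

namespace Helper85.NS

open Monoid Function

/-- Products of `n` elements of a set. -/
def prods {A : Type} [Group A] (F : Set A) (n : ℕ) : Set A :=
  {a | ∃ l : List A, l.length = n ∧ (∀ f ∈ l, f ∈ F) ∧ l.prod = a}

theorem prods_finite {A : Type} [Group A] {F : Set A} (hF : F.Finite) (n : ℕ) :
    (prods F n).Finite := by
  induction n with
  | zero =>
    apply (Set.finite_singleton (1 : A)).subset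
    rintro a ⟨l, h1, -, rfl⟩
    rw [List.length_eq_zero_iff.mp h1]
    simp
  | succ n ih =>
    apply (hF.image2 (fun a b => a * b) ih).subset
    rintro a ⟨l, h1, h2, rfl⟩
    obtain ⟨b, l', rfl⟩ := List.exists_cons_of_length_eq_add_one h1
    refine ⟨b, h2 b (by simp), l'.prod, ⟨l', by simpa using h1, fun f hf => h2 f (by simp [hf]),
      rfl⟩, by simp⟩

theorem prods_mul {A : Type} [Group A] {F : Set A} {m n : ℕ} {a b : A} (ha : a ∈ prods F m)
    (hb : b ∈ prods F n) : a * b ∈ prods F (m + n) := by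
  obtain ⟨l, h1, h2, rfl⟩ := ha
  obtain ⟨l', h1', h2', rfl⟩ := hb
  refine ⟨l ++ l', by simp [h1, h1'], ?_, by simp⟩
  intro f hf
  rcases List.mem_append.mp hf with h | h
  · exact h2 f h
  · exact h2' f h

theorem prods_mono {A : Type} [Group A] {F : Set A} (h1 : 1 ∈ F) {m n : ℕ} (hmn : m ≤ n) :
    prods F m ⊆ prods F n := by
  obtain ⟨k, rfl⟩ := Nat.exists_eq_add_of_le hmn
  intro a ha
  have h2 : (1 : A) ∈ prods F k := ⟨List.replicate k 1, by simp, by
    intro f hf
    rw [List.eq_of_mem_replicate hf]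
    exact h1, by simp⟩
  have h3 := prods_mul ha h2
  rwa [mul_one] at h3

theorem prods_subset {A : Type} [Group A] {F F' : Set A} (h : F ⊆ F') (n : ℕ) :
    prods F n ⊆ prods F' n := by
  rintro a ⟨l, h1, h2, rfl⟩
  exact ⟨l, h1, fun f hf => h (h2 f hf), rfl⟩

/-- Products of products. -/
theorem prods_prods {A : Type} [Group A] {F : Set A} (m n : ℕ) :
    prods (prods F m) n = prods F (m * n) := by
  induction n with
  | zero =>
    ext a
    constructor
    · rintro ⟨l, h1, -, rfl⟩
      rw [List.length_eq_zero_iff.mp h1]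
      exact ⟨[], by simp, by simp, by simp⟩
    · rintro ⟨l, h1, -, rfl⟩
      rw [mul_zero] at h1
      rw [List.length_eq_zero_iff.mp h1]
      exact ⟨[], by simp, by simp, by simp⟩
  | succ n ih =>
    ext a
    constructor
    · rintro ⟨l, h1, h2, rfl⟩
      obtain ⟨b, l', rfl⟩ := List.exists_cons_of_length_eq_add_one h1
      have h3 : l'.prod ∈ prods (prods F m) n :=
        ⟨l', by simpa using h1, fun f hf => h2 f (by simp [hf]), rfl⟩
      rw [ih] at h3
      have h4 := prods_mul (h2 b (by simp)) h3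
      rw [List.prod_cons]
      rwa [show m * (n + 1) = m + m * n by ring]
    · rintro ⟨l, h1, h2, rfl⟩
      have h3 : (l.take m).prod ∈ prods F m := by
        refine ⟨l.take m, ?_, fun f hf => h2 f (List.mem_of_mem_take hf), rfl⟩
        rw [List.length_take, h1]
        apply min_eq_left
        nlinarith
      have h4 : (l.drop m).prod ∈ prods (prods F m) n := by
        rw [ih]
        refine ⟨l.drop m, ?_, fun f hf => h2 f (List.mem_of_mem_drop hf), rfl⟩
        rw [List.length_drop, h1]
        rw [show m * (n + 1) = m + m * n by ring]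
        simp
      obtain ⟨l', h5, h6, h7⟩ := h4
      refine ⟨(l.take m).prod :: l', by simp [h5], ?_, ?_⟩
      · intro f hf
        rcases List.mem_cons.mp hf with rfl | h
        · exact h3
        · exact h6 f h
      · rw [List.prod_cons, h7, List.prod_take_mul_prod_drop]

/-- Every element of a free product is a product of syllables. -/
theorem exists_syllables {B C : Type} [Group B] [Group C] (a : Coprod B C) :
    ∃ l : List (Coprod B C), (∀ f ∈ l, f ∈ (Coprod.inl : B →* Coprod B C).range ∨
      f ∈ (Coprod.inr : C →* Coprod B C).range) ∧ l.prod = a := by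
  induction a using Coprod.induction_on with
  | inl b => exact ⟨[Coprod.inl b], by simp, by simp⟩
  | inr c => exact ⟨[Coprod.inr c], by simp, by simp⟩
  | mul a b ha hb =>
    obtain ⟨l, h1, rfl⟩ := ha
    obtain ⟨l', h1', rfl⟩ := hb
    refine ⟨l ++ l', ?_, by simp⟩
    intro f hf
    rcases List.mem_append.mp hf with h | h
    · exact h1 f h
    · exact h1' f h

theorem cc_pconj {B C : Type} [Group B] [Group C] (x : B) (z : C) (hx : x ≠ 1) (hz : z ≠ 1)
    (j : Coprod B C →* PSL2) (hj : ConvexCocompact j) : ConvexCocompact (pconj j (kz x z)) := by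
  obtain ⟨F, hFfin, hF⟩ := hj
  choose s hs1 hs2 using fun a : Coprod B C => exists_syllables a
  -- the finite set of syllables
  let F₀ : Set (Coprod B C) := {1} ∪ ⋃ f ∈ F, {u | u ∈ s f}
  have hF₀fin : F₀.Finite := by
    apply (Set.finite_singleton _).union
    exact hFfin.biUnion fun f _ => (s f).finite_toSet
  have h1 : (1 : Coprod B C) ∈ F₀ := Or.inl rfl
  have hF₀ : ∀ f ∈ F₀, f ∈ (Coprod.inl : B →* Coprod B C).range ∨
      f ∈ (Coprod.inr : C →* Coprod B C).range := by
    rintro f (hf | hf)
    · rw [Set.mem_singleton_iff.mp hf]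
      exact Or.inl ⟨1, by simp⟩
    · simp only [Set.mem_iUnion] at hf
      obtain ⟨u, -, hu⟩ := hf
      exact hs1 u f hu
  obtain ⟨M, hM⟩ : ∃ M : ℕ, ∀ f ∈ F, (s f).length ≤ M := by
    obtain ⟨M, hM⟩ := (hFfin.image fun f => (s f).length).bddAbove
    exact ⟨M, fun f hf => hM ⟨f, hf, rfl⟩⟩
  have hFM : F ⊆ prods F₀ M := by
    intro f hf
    apply prods_mono h1 (hM f hf)
    refine ⟨s f, rfl, fun u hu => Or.inr ?_, hs2 f⟩
    simp only [Set.mem_iUnion]
    exact ⟨f, hf, hu⟩
  refine ⟨prods F₀ M, prods_finite hF₀fin M, ?_⟩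
  intro a g n hg hn
  rw [pconj_eq] at hg
  have h2 : wz x z a ∈ prods F n := hF (wz x z a) g n hg hn
  have h3 := prods_subset hFM n h2
  rw [prods_prods] at h3
  obtain ⟨l, h4, h5, h6⟩ := h3
  obtain ⟨l', h7, h8, h9⟩ := wz_undistorted x z hx hz F₀ h1 hF₀ l h5 a h6
  have h10 : a ∈ prods F₀ (M * n) := ⟨l', h7.trans h4, h8, h9⟩
  rw [← prods_prods] at h10
  exact h10

end Helper85.NS
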