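import Pool.Agent.Helper85.NS.Defs

/-!
Free products of finitely presented groups; conjugation into a proper subgroup.
-/

namespace Helper85.NS

/-- NS-2a -/
theorem fp_coprod {S T : Type} [Group S] [Group T] (hS : Group.IsFinitelyPresented S)
    (hT : Group.IsFinitelyPresented T) : Group.IsFinitelyPresented (Monoid.Coprod S T) :=
  inferInstance

/-- NS-2b -/
theorem fp_free_unit : Group.IsFinitelyPresented (FreeGroup Unit) := inferInstance

/-- NS-2c -/
theorem not_separable {G : Type*} [Group G] (H : Subgroup G) (g : G)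
    (h : H.map (MulAut.conj g).toMonoidHom < H) : ¬ Separable H := by
  intro hsep
  obtain ⟨hle, hnle⟩ := h
  obtain ⟨x, hx, hx'⟩ := SetLike.not_le_iff_exists.1 hnle
  have hg : g⁻¹ * x * g ∉ H := by
    intro hmem
    apply hx'
    refine ⟨g⁻¹ * x * g, hmem, ?_⟩
    simp [MulAut.conj_apply, mul_assoc]
  obtain ⟨K, hK, hHK, hgK⟩ := hsep _ hg
  set L : Subgroup G := H ⊔ K.normalCore with hL
  have hLK : L ≤ K := sup_le hHK K.normalCore_le
  have hfin : L.FiniteIndex := Subgroup.finiteIndex_of_le (le_sup_right : K.normalCore ≤ L)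
  have hmap : L.map (MulAut.conj g).toMonoidHom ≤ L := by
    rw [hL, Subgroup.map_sup]
    refine sup_le (hle.trans le_sup_left) (le_trans ?_ le_sup_right)
    rintro _ ⟨y, hy, rfl⟩
    exact (inferInstance : K.normalCore.Normal).conj_mem y hy g
  have hidx : (L.map (MulAut.conj g).toMonoidHom).index = L.index :=
    Subgroup.index_map_equiv L (MulAut.conj g)
  have h1 := Subgroup.relIndex_mul_index hmap
  rw [hidx] at h1
  have h2 : (L.map (MulAut.conj g).toMonoidHom).relIndex L = 1 := by
    have h3 : L.index ≠ 0 := hfin.index_ne_zero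
    exact Nat.eq_of_mul_eq_mul_right (Nat.pos_of_ne_zero h3) (by rw [h1, one_mul])
  have h3 : L ≤ L.map (MulAut.conj g).toMonoidHom := Subgroup.relIndex_eq_one.1 h2
  obtain ⟨y, hy, hyx⟩ := h3 ((le_sup_left : H ≤ L) hx)
  apply hgK
  apply hLK
  have : g⁻¹ * x * g = y := by
    rw [← hyx]
    simp [MulAut.conj_apply, mul_assoc]
  rw [this]
  exact hy

end Helper85.NS
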