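import Pool.Agent.Helper85.NS.Hnn
import Pool.Agent.Helper85.NS.FP

/-!
The group theoretic criterion.
-/

namespace Helper85.NS

open Monoid Function

theorem asc_inl {S : Type} [Group S] (τ : S ≃* S) (a s : S) :
    asc τ a (Coprod.inl s) = Coprod.inl (τ s) := by
  simp [asc]

theorem asc_inr {S : Type} [Group S] (τ : S ≃* S) (a : S) :
    asc τ a (Coprod.inr (FreeGroup.of ())) =
      (Coprod.inr (FreeGroup.of ())) ^ 2 * Coprod.inl a := by
  simp [asc]

theorem ofAdd_one_zpow (n : ℤ) : (Multiplicative.ofAdd (1 : ℤ)) ^ n = Multiplicative.ofAdd n := by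
  rw [← ofAdd_zsmul]
  simp

theorem zpow_ne_one_of_ne_one (m : Multiplicative ℤ) (hm : m ≠ 1) (n : ℤ) (h : m ^ n = 1) :
    n = 0 := by
  by_contra hn
  exact hm ((IsMulTorsionFree.zpow_eq_one_iff_left hn).mp h)

/-- Conjugation by powers of the stable letter. -/
theorem conj_zpow {S E : Type} [Group S] [Group E] (f : S →* E) (τ : MulAut S) (T : E)
    (h : ∀ s, T * f s * T⁻¹ = f (τ s)) (n : ℤ) : ∀ s, T ^ n * f s * (T ^ n)⁻¹ = f ((τ ^ n) s) := by
  induction n using Int.induction_on with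
  | zero => simp
  | succ n ih =>
    intro s
    rw [zpow_add_one, zpow_add_one, MulAut.mul_apply, ← ih, ← h]
    group
  | pred n ih =>
    intro s
    have h1 : T⁻¹ * f s * T = f (τ⁻¹ s) := by
      have h2 := h (τ⁻¹ s)
      rw [MulAut.apply_inv_self] at h2
      rw [← h2]
      group
    rw [zpow_sub_one, zpow_sub_one, MulAut.mul_apply, ← ih, ← h1]
    group

section

variable {Γ₁ : Type} [Group Γ₁] {Γ₁' : Subgroup Γ₁} (χ : Γ₁' →* Multiplicative ℤ) (t : Γ₁')

/-- The action of `ℤ` on the kernel of `χ` by conjugation by the powers of `t`. -/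
def act' : Multiplicative ℤ →* MulAut χ.ker :=
  (MulAut.conjNormal (H := χ.ker)).comp (zpowersHom Γ₁' t)

/-- The subgroup generated by the kernel of `χ` and `t`, as a semidirect product. -/
abbrev Del : Type := SemidirectProduct χ.ker (Multiplicative ℤ) (act' χ t)

/-- The inclusion. -/
def delHom : Del χ t →* Γ₁ :=
  SemidirectProduct.lift (Γ₁'.subtype.comp χ.ker.subtype) (Γ₁'.subtype.comp (zpowersHom Γ₁' t))
    (by
      intro n
      ext s
      simp only [act', MonoidHom.comp_apply, MulEquiv.toMonoidHom_eq_coe, MonoidHom.coe_coe,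
        zpowersHom_apply, Subgroup.coe_subtype, MulAut.conj_apply, MulAut.conjNormal_apply,
        Subgroup.coe_mul, Subgroup.coe_inv])

theorem delHom_injective (ht : χ t ≠ 1) : Injective (delHom χ t) := by
  rw [injective_iff_map_eq_one]
  intro x hx
  have h1 : (x.left : Γ₁') * t ^ (x.right.toAdd) = 1 := by
    apply Subtype.ext
    exact hx
  have h2 : χ t ^ (x.right.toAdd) = 1 := by
    have h3 := congrArg χ h1
    rw [map_mul, map_zpow, map_one, (MonoidHom.mem_ker).mp x.left.2, one_mul] at h3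
    exact h3
  have h3 := zpow_ne_one_of_ne_one _ ht _ h2
  rw [h3, zpow_zero, mul_one] at h1
  apply SemidirectProduct.ext
  · exact Subtype.ext h1
  · rw [SemidirectProduct.one_right]
    exact Multiplicative.toAdd.injective h3

end

theorem crit_aux {α : Type} [DecidableEq α] (b₀ k₀ : α) (hbk : b₀ ≠ k₀) {Γ₁ Γ₂ : Type} [Group Γ₁]
    [Group Γ₂] (Γ₁' : Subgroup Γ₁) (χ : Γ₁' →* Multiplicative ℤ)
    (e : FreeGroup α ≃* FreeGroup α)
    (i₁ : FreeGroup α →* Γ₁) (hi₁ : Injective i₁) (i₂ : FreeGroup α →* Γ₂)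
    (jΓ : FreeGroup α →* Γ₁') (hjΓ : ∀ v, (jΓ v : Γ₁) = i₁ (e v))
    (hχ : ∀ i, i ≠ b₀ → i ≠ k₀ → χ (jΓ (FreeGroup.of i)) = 1)
    (a : χ.ker) (ha : (a : Γ₁') = jΓ (FreeGroup.of k₀) * (jΓ (FreeGroup.of b₀))⁻¹)
    (hχb : χ (jΓ (FreeGroup.of b₀)) ≠ 1)
    (y : FreeGroup α →* Γ₂) (hy : Injective y) (hi₂ : ∀ a, i₂ (e a) = y (wmap b₀ k₀ a)) :
    ∃ Θ : Coprod χ.ker (FreeGroup Unit) →* Amalgam i₁ i₂, Injective Θ ∧
      (∀ s : χ.ker, Θ (Coprod.inl s) = Amalgam.inl i₁ i₂ (s : Γ₁')) ∧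
      Θ (Coprod.inr (FreeGroup.of ())) = Amalgam.inr i₁ i₂ (y (FreeGroup.of k₀)) ∧
      Injective (wmap b₀ k₀) := by
  classical
  set t : Γ₁' := jΓ (FreeGroup.of b₀) with ht
  set τ : MulAut χ.ker := MulAut.conjNormal t with hτ
  obtain ⟨E, _, o, T, ε, ho, hT, hε, hεT⟩ := exists_ascending τ a
  let cS : α → χ.ker := fun i =>
    if h : i ≠ b₀ ∧ i ≠ k₀ then ⟨jΓ (FreeGroup.of i), hχ i h.1 h.2⟩ else 1
  have hcS (i : α) (h1 : i ≠ b₀) (h2 : i ≠ k₀) : (cS i : Γ₁') = jΓ (FreeGroup.of i) := by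
    simp only [cS]
    rw [dif_pos ⟨h1, h2⟩]
  -- the map to the semidirect product
  let j₁ : FreeGroup α →* Del χ t := FreeGroup.lift fun i =>
    if i = b₀ then SemidirectProduct.inr (Multiplicative.ofAdd 1) else
    if i = k₀ then SemidirectProduct.inl a * SemidirectProduct.inr (Multiplicative.ofAdd 1) else
      SemidirectProduct.inl (cS i)
  have hj₁ (v : FreeGroup α) : delHom χ t (j₁ v) = i₁ (e v) := by
    have h1 : (delHom χ t).comp j₁ = i₁.comp e.toMonoidHom := by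
      ext i
      simp only [MonoidHom.comp_apply, j₁, FreeGroup.lift_apply_of]
      by_cases hib : i = b₀
      · subst hib
        rw [if_pos rfl]
        simp [delHom, ht, hjΓ]
      · rw [if_neg hib]
        by_cases hik : i = k₀
        · subst hik
          rw [if_pos rfl]
          simp [delHom, ht, hjΓ, ha]
        · rw [if_neg hik]
          simp [delHom, hjΓ, hcS i hib hik]
    exact DFunLike.congr_fun h1 v
  have hj₁inj : Injective j₁ := by
    intro v w hvw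
    apply e.injective
    apply hi₁
    rw [← hj₁, ← hj₁, hvw]
  -- the map of the semidirect product to the ascending HNN extension
  let θ₁ : Del χ t →* E := SemidirectProduct.lift (o.comp Coprod.inl) (zpowersHom E T) (by
    intro n
    ext s
    have h1 := conj_zpow (o.comp Coprod.inl) τ T (by
      intro s
      rw [MonoidHom.comp_apply, hT, asc_inl]
      rfl) n.toAdd s
    simp only [MonoidHom.comp_apply, MulEquiv.toMonoidHom_eq_coe, MonoidHom.coe_coe,
      MulAut.conj_apply, zpowersHom_apply, act']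
    rw [map_zpow]
    exact h1.symm)
  have hθ₁l (s : χ.ker) : θ₁ (SemidirectProduct.inl s) = o (Coprod.inl s) := by
    simp [θ₁]
  have hθ₁r : θ₁ (SemidirectProduct.inr (Multiplicative.ofAdd 1)) = T := by
    simp [θ₁]
  have hθ₁inj : Injective θ₁ := by
    rw [injective_iff_map_eq_one]
    intro x hx
    have h1 : o (Coprod.inl x.left) * T ^ (x.right.toAdd) = 1 := hx
    have h2 : x.right.toAdd = 0 := by
      have h3 := congrArg ε h1
      rw [map_mul, map_zpow, map_one, hε, hεT, one_mul, ofAdd_one_zpow] at h3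
      exact Multiplicative.ofAdd.injective h3
    rw [h2, zpow_zero, mul_one, ← map_one o] at h1
    have h3 := ho h1
    rw [← map_one (Coprod.inl : χ.ker →* Coprod χ.ker (FreeGroup Unit))] at h3
    apply SemidirectProduct.ext
    · exact Coprod.inl_injective h3
    · rw [SemidirectProduct.one_right]
      exact Multiplicative.toAdd.injective h2
  -- the map of the free group to the ascending HNN extension
  let θ₂ : FreeGroup α →* E := FreeGroup.lift fun i =>
    if i = b₀ then T else if i = k₀ then o (Coprod.inr (FreeGroup.of ())) else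
      o (Coprod.inl (cS i))
  have hθ₂b : θ₂ (FreeGroup.of b₀) = T := by simp [θ₂]
  have hθ₂k : θ₂ (FreeGroup.of k₀) = o (Coprod.inr (FreeGroup.of ())) := by
    simp [θ₂, hbk.symm]
  have hTk := hT (Coprod.inr (FreeGroup.of ()))
  rw [asc_inr, map_mul, map_pow] at hTk
  have hθ (v : FreeGroup α) : θ₁ (j₁ v) = θ₂ (wmap b₀ k₀ v) := by
    have h1 : θ₁.comp j₁ = θ₂.comp (wmap b₀ k₀) := by
      ext i
      simp only [MonoidHom.comp_apply, j₁, wmap, FreeGroup.lift_apply_of]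
      by_cases hib : i = b₀
      · subst hib
        rw [if_pos rfl, if_neg hbk, hθ₁r, hθ₂b]
      · rw [if_neg hib]
        by_cases hik : i = k₀
        · subst hik
          rw [if_pos rfl, if_pos rfl, map_mul, hθ₁r, hθ₁l, map_mul, map_mul, map_mul, map_inv,
            hθ₂b, hθ₂k]
          have h2 : T * o (Coprod.inr (FreeGroup.of ())) =
              o (Coprod.inr (FreeGroup.of ())) ^ 2 * o (Coprod.inl a) * T := by
            rw [← hTk]
            group
          rw [mul_assoc, h2]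
          group
        · rw [if_neg hik, if_neg hik, hθ₁l]
          simp [θ₂, hib, hik]
    exact DFunLike.congr_fun h1 v
  have hwinj : Injective (wmap b₀ k₀) := by
    intro v w hvw
    apply hj₁inj
    apply hθ₁inj
    rw [hθ, hθ, hvw]
  -- the maps of the amalgam
  let Ψ : Amalgam j₁ (wmap b₀ k₀) →* E := Amalgam.lift j₁ (wmap b₀ k₀) θ₁ θ₂ hθ
  let F₁ : Amalgam j₁ (wmap b₀ k₀) →*
      Amalgam ((delHom χ t).comp j₁) (y.comp (wmap b₀ k₀)) :=
    Amalgam.lift j₁ (wmap b₀ k₀)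
      ((Amalgam.inl ((delHom χ t).comp j₁) (y.comp (wmap b₀ k₀))).comp (delHom χ t))
      ((Amalgam.inr ((delHom χ t).comp j₁) (y.comp (wmap b₀ k₀))).comp y)
      (fun v => Amalgam.inl_eq_inr ((delHom χ t).comp j₁) (y.comp (wmap b₀ k₀)) v)
  have hF₁ : Injective F₁ := amalgam_map_injective j₁ (wmap b₀ k₀) hj₁inj hwinj (delHom χ t) y
    (delHom_injective χ t hχb) hy F₁ (fun x => rfl) (fun x => rfl)
  let F₂ : Amalgam ((delHom χ t).comp j₁) (y.comp (wmap b₀ k₀)) →* Amalgam i₁ i₂ :=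
    Amalgam.lift _ _ (Amalgam.inl i₁ i₂) (Amalgam.inr i₁ i₂) (by
      intro v
      rw [MonoidHom.comp_apply, hj₁, MonoidHom.comp_apply, ← hi₂]
      exact Amalgam.inl_eq_inr i₁ i₂ (e v))
  let F₃ : Amalgam i₁ i₂ →* Amalgam ((delHom χ t).comp j₁) (y.comp (wmap b₀ k₀)) :=
    Amalgam.lift i₁ i₂ (Amalgam.inl _ _) (Amalgam.inr _ _) (by
      intro v
      have h1 := Amalgam.inl_eq_inr ((delHom χ t).comp j₁) (y.comp (wmap b₀ k₀)) (e.symm v)
      have h2 : ((delHom χ t).comp j₁) (e.symm v) = i₁ v := by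
        rw [MonoidHom.comp_apply, hj₁, MulEquiv.apply_symm_apply]
      have h3 : (y.comp (wmap b₀ k₀)) (e.symm v) = i₂ v := by
        rw [MonoidHom.comp_apply, ← hi₂, MulEquiv.apply_symm_apply]
      rw [h2, h3] at h1
      exact h1)
  have hF₂ : Injective F₂ := by
    have h1 : F₃.comp F₂ = MonoidHom.id _ := Amalgam.hom_ext _ _ (fun x => rfl) (fun x => rfl)
    exact LeftInverse.injective (g := F₃) fun x => DFunLike.congr_fun h1 x
  let Θ₀ : Coprod χ.ker (FreeGroup Unit) →* Amalgam j₁ (wmap b₀ k₀) :=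
    Coprod.lift ((Amalgam.inl j₁ (wmap b₀ k₀)).comp SemidirectProduct.inl)
      (FreeGroup.lift fun _ => Amalgam.inr j₁ (wmap b₀ k₀) (FreeGroup.of k₀))
  have hΘ₀ : Injective Θ₀ := by
    have h1 : Ψ.comp Θ₀ = o := by
      apply Coprod.hom_ext
      · ext s
        simp only [MonoidHom.comp_apply, Θ₀, Coprod.lift_apply_inl, Ψ, Amalgam.lift_inl]
        exact hθ₁l s
      · ext u
        simp only [MonoidHom.comp_apply, Θ₀, Coprod.lift_apply_inr, Ψ, FreeGroup.lift_apply_of,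
          Amalgam.lift_inr]
        exact hθ₂k
    intro u v huv
    apply ho
    rw [← h1, MonoidHom.comp_apply, MonoidHom.comp_apply, huv]
  refine ⟨F₂.comp (F₁.comp Θ₀), hF₂.comp (hF₁.comp hΘ₀), ?_, ?_⟩
  · intro s
    simp only [MonoidHom.comp_apply, Θ₀, Coprod.lift_apply_inl, F₁, F₂, Amalgam.lift_inl]
    simp [delHom]
  · refine ⟨?_, hwinj⟩
    simp only [MonoidHom.comp_apply, Θ₀, Coprod.lift_apply_inr, F₁, F₂, FreeGroup.lift_apply_of,
      Amalgam.lift_inr]

/-- NS-4 -/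
theorem crit {α : Type} [DecidableEq α] (b₀ k₀ : α) (hbk : b₀ ≠ k₀) {Γ₁ Γ₂ : Type} [Group Γ₁]
    [Group Γ₂] (Γ₁' : Subgroup Γ₁) (χ : Γ₁' →* Multiplicative ℤ)
    (hfp : Group.IsFinitelyPresented χ.ker) (e : FreeGroup α ≃* FreeGroup α)
    (i₁ : FreeGroup α →* Γ₁) (hi₁ : Injective i₁) (i₂ : FreeGroup α →* Γ₂)
    (hmem : ∀ a, i₁ a ∈ Γ₁')
    (hχ : ∀ i, i ≠ b₀ → i ≠ k₀ → χ ⟨i₁ (e (FreeGroup.of i)), hmem _⟩ = 1)
    (hχk : χ ⟨i₁ (e (FreeGroup.of k₀)), hmem _⟩ = χ ⟨i₁ (e (FreeGroup.of b₀)), hmem _⟩)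
    (hχb : χ ⟨i₁ (e (FreeGroup.of b₀)), hmem _⟩ ≠ 1)
    (y : FreeGroup α →* Γ₂) (hy : Injective y) (hi₂ : ∀ a, i₂ (e a) = y (wmap b₀ k₀ a)) :
    ∃ H : Subgroup (Amalgam i₁ i₂), Group.IsFinitelyPresented H ∧
      ∃ g, H.map (MulAut.conj g).toMonoidHom < H := by
  let jΓ : FreeGroup α →* Γ₁' := (i₁.codRestrict Γ₁' hmem).comp e.toMonoidHom
  set t : Γ₁' := jΓ (FreeGroup.of b₀) with ht
  let a : χ.ker := ⟨jΓ (FreeGroup.of k₀) * t⁻¹, by
    rw [MonoidHom.mem_ker, map_mul, map_inv, mul_inv_eq_one]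
    exact hχk⟩
  obtain ⟨Θ, hΘ, hΘl, hΘr, -⟩ := crit_aux b₀ k₀ hbk Γ₁' χ e i₁ hi₁ i₂ jΓ (fun v => rfl) hχ a rfl hχb
    y hy hi₂
  set τ : MulAut χ.ker := MulAut.conjNormal t with hτ
  set κ : Amalgam i₁ i₂ := Amalgam.inr i₁ i₂ (y (FreeGroup.of k₀)) with hκ
  set g : Amalgam i₁ i₂ := Amalgam.inl i₁ i₂ (t : Γ₁) with hg
  have hg2 : g = Amalgam.inr i₁ i₂ (y (FreeGroup.of b₀)) := by
    have h1 := Amalgam.inl_eq_inr i₁ i₂ (e (FreeGroup.of b₀))
    rw [hi₂] at h1
    simp only [wmap, FreeGroup.lift_apply_of, if_neg hbk] at h1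
    exact h1
  have hag : Amalgam.inl i₁ i₂ ((a : Γ₁') : Γ₁) * g = κ⁻¹ * κ⁻¹ * g * κ := by
    have h1 := Amalgam.inl_eq_inr i₁ i₂ (e (FreeGroup.of k₀))
    rw [hi₂] at h1
    simp only [wmap, FreeGroup.lift_apply_of, if_true, map_mul, map_inv] at h1
    rw [← hg2] at h1
    rw [← h1, hg, ← map_mul]
    congr 1
    have h2 : ((a : Γ₁') : Γ₁) = i₁ (e (FreeGroup.of k₀)) * (t : Γ₁)⁻¹ := rfl
    rw [h2]
    group
  have hconj : (MulAut.conj g).toMonoidHom.comp Θ = Θ.comp (asc τ a) := by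
    apply Coprod.hom_ext
    · ext s
      simp only [MonoidHom.comp_apply, asc_inl, hΘl]
      have h1 : ((τ s : Γ₁') : Γ₁) = (t : Γ₁) * ((s : Γ₁') : Γ₁) * (t : Γ₁)⁻¹ := by
        rw [hτ]
        simp
      rw [h1, map_mul, map_mul, map_inv]
      rfl
    · ext u
      obtain ⟨⟩ := u
      simp only [MonoidHom.comp_apply, asc_inr, map_mul, map_pow, hΘl, hΘr]
      have h1 : κ ^ 2 * Amalgam.inl i₁ i₂ ((a : Γ₁') : Γ₁) = g * κ * g⁻¹ := by
        rw [eq_mul_inv_iff_mul_eq, mul_assoc, hag]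
        group
      rw [h1]
      rfl
  refine ⟨Θ.range, ?_, g, ?_⟩
  · have h1 := fp_coprod hfp fp_free_unit
    exact Group.IsFinitelyPresented.equiv (h := h1) (MonoidHom.ofInjective hΘ)
  · have h1 : Θ.range.map (MulAut.conj g).toMonoidHom = (Θ.comp (asc τ a)).range := by
      rw [MonoidHom.map_range, hconj]
    rw [h1]
    refine lt_of_le_of_ne ?_ ?_
    · rintro _ ⟨x, rfl⟩
      exact ⟨_, rfl⟩
    · intro h2
      have h3 : Θ (Coprod.inr (FreeGroup.of ())) ∈ (Θ.comp (asc τ a)).range := by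
        rw [h2]
        exact ⟨_, rfl⟩
      obtain ⟨x, hx⟩ := h3
      exact not_mem_range_asc τ a ⟨x, hΘ hx⟩

end Helper85.NS
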