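import Pool.Agent.Helper85.NS.Crit
import Pool.Agent.Helper85.NS.Pow

/-!
The group theoretic criterion for an arbitrary embedding of the edge group.
-/

namespace Helper85.NS

open Monoid Function

/-- A finitely presented subgroup which is conjugate to a proper subgroup. -/
theorem exists_of_hom {S : Type} [Group S] (hfp : Group.IsFinitelyPresented S) {G : Type} [Group G]
    (τ : S ≃* S) (a : S) (Θ : Coprod S (FreeGroup Unit) →* G) (hΘ : Injective Θ) (g : G)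
    (h₁ : ∀ s, g * Θ (Coprod.inl s) * g⁻¹ = Θ (Coprod.inl (τ s)))
    (h₂ : g * Θ (Coprod.inr (FreeGroup.of ())) * g⁻¹ =
      Θ (Coprod.inr (FreeGroup.of ())) ^ 2 * Θ (Coprod.inl a)) :
    ∃ H : Subgroup G, Group.IsFinitelyPresented H ∧
      ∃ g, H.map (MulAut.conj g).toMonoidHom < H := by
  have hconj : (MulAut.conj g).toMonoidHom.comp Θ = Θ.comp (asc τ a) := by
    apply Coprod.hom_ext
    · ext s
      simp only [MonoidHom.comp_apply, asc_inl]
      exact h₁ s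
    · ext u
      obtain ⟨⟩ := u
      simp only [MonoidHom.comp_apply, asc_inr, map_mul, map_pow]
      exact h₂
  refine ⟨Θ.range, ?_, g, ?_⟩
  · have h1 := fp_coprod hfp fp_free_unit
    exact Group.IsFinitelyPresented.equiv (h := h1) (MonoidHom.ofInjective hΘ)
  · have h1 : Θ.range.map (MulAut.conj g).toMonoidHom = (Θ.comp (asc τ a)).range := by
      rw [MonoidHom.map_range, hconj]
    rw [h1]
    refine lt_of_le_of_ne ?_ ?_
    · rintro _ ⟨x, rfl⟩
      exact ⟨_, rfl⟩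
    · intro h2
      have h3 : Θ (Coprod.inr (FreeGroup.of ())) ∈ (Θ.comp (asc τ a)).range := by
        rw [h2]
        exact ⟨_, rfl⟩
      obtain ⟨x, hx⟩ := h3
      exact not_mem_range_asc τ a ⟨x, hΘ hx⟩

section

variable {α : Type} [DecidableEq α] (b₀ k₀ : α) (p q : ℕ) {Γ₁ : Type} [Group Γ₁]
  (i : FreeGroup α →* Γ₁)

/-- The small amalgam. -/
abbrev Sm : Type := Amalgam (i.comp (pw b₀ k₀ p q)) (wmap true false)

/-- The large free group maps to the small amalgam. -/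
def psi : FreeGroup α →* Sm b₀ k₀ p q i :=
  FreeGroup.lift fun j => if j = k₀ then
    Amalgam.inr (i.comp (pw b₀ k₀ p q)) (wmap true false) (FreeGroup.of false) *
      Amalgam.inl (i.comp (pw b₀ k₀ p q)) (wmap true false) (i (FreeGroup.of k₀)) *
      (Amalgam.inr (i.comp (pw b₀ k₀ p q)) (wmap true false) (FreeGroup.of false))⁻¹
    else Amalgam.inl (i.comp (pw b₀ k₀ p q)) (wmap true false) (i (FreeGroup.of j))

omit [DecidableEq α] in
theorem sm_true : Amalgam.inr (i.comp (pw b₀ k₀ p q)) (wmap true false) (FreeGroup.of true) =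
    Amalgam.inl (i.comp (pw b₀ k₀ p q)) (wmap true false) (i (FreeGroup.of b₀)) ^ p := by
  have h := Amalgam.inl_eq_inr (i.comp (pw b₀ k₀ p q)) (wmap true false) (FreeGroup.of true)
  have h1 : wmap true false (FreeGroup.of true) = FreeGroup.of true := by simp [wmap]
  rw [h1] at h
  rw [← h, ← map_pow, ← map_pow]
  simp [pw]

omit [DecidableEq α] in
theorem sm_false :
    (Amalgam.inr (i.comp (pw b₀ k₀ p q)) (wmap true false) (FreeGroup.of false))⁻¹ *
    (Amalgam.inr (i.comp (pw b₀ k₀ p q)) (wmap true false) (FreeGroup.of false))⁻¹ *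
    Amalgam.inl (i.comp (pw b₀ k₀ p q)) (wmap true false) (i (FreeGroup.of b₀)) ^ p *
    Amalgam.inr (i.comp (pw b₀ k₀ p q)) (wmap true false) (FreeGroup.of false) =
    Amalgam.inl (i.comp (pw b₀ k₀ p q)) (wmap true false) (i (FreeGroup.of k₀)) ^ q := by
  have h := Amalgam.inl_eq_inr (i.comp (pw b₀ k₀ p q)) (wmap true false) (FreeGroup.of false)
  have h1 : wmap true false (FreeGroup.of false) = (FreeGroup.of false)⁻¹ *
      (FreeGroup.of false)⁻¹ * FreeGroup.of true * FreeGroup.of false := by simp [wmap]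
  rw [h1, map_mul, map_mul, map_mul, map_inv, sm_true] at h
  rw [← h, ← map_pow, ← map_pow]
  simp [pw]

theorem psi_of_ne (j : α) (hj : j ≠ k₀) : psi b₀ k₀ p q i (FreeGroup.of j) =
    Amalgam.inl (i.comp (pw b₀ k₀ p q)) (wmap true false) (i (FreeGroup.of j)) := by
  simp [psi, hj]

theorem psi_kap (hbk : b₀ ≠ k₀) : psi b₀ k₀ p q i (kap b₀ k₀ p q) =
    Amalgam.inr (i.comp (pw b₀ k₀ p q)) (wmap true false) (FreeGroup.of false) := by
  rw [kap, map_mul, map_inv, map_pow, map_pow, psi_of_ne _ _ _ _ _ _ hbk]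
  simp only [psi, FreeGroup.lift_apply_of, if_true]
  rw [conj_pow, ← sm_false]
  group

theorem psi_wpq (hbk : b₀ ≠ k₀) (v : FreeGroup α) : psi b₀ k₀ p q i (wpq b₀ k₀ p q v) =
    Amalgam.inl (i.comp (pw b₀ k₀ p q)) (wmap true false) (i v) := by
  have h : (psi b₀ k₀ p q i).comp (wpq b₀ k₀ p q) =
      (Amalgam.inl (i.comp (pw b₀ k₀ p q)) (wmap true false)).comp i := by
    ext j
    simp only [MonoidHom.comp_apply, wpq, FreeGroup.lift_apply_of]
    by_cases hj : j = k₀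
    · subst hj
      rw [if_pos rfl, map_mul, map_mul, map_inv, psi_kap _ _ _ _ _ hbk]
      simp only [psi, FreeGroup.lift_apply_of, if_true]
      group
    · rw [if_neg hj, psi_of_ne _ _ _ _ _ _ hj]
  exact DFunLike.congr_fun h v

theorem wpq_of_b (hbk : b₀ ≠ k₀) : wpq b₀ k₀ p q (FreeGroup.of b₀) = FreeGroup.of b₀ := by
  simp [wpq, hbk]

theorem wpq_of_k : wpq b₀ k₀ p q (FreeGroup.of k₀) =
    (kap b₀ k₀ p q)⁻¹ * FreeGroup.of k₀ * kap b₀ k₀ p q := by
  simp [wpq]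

/-- The relation between the powers. -/
theorem wpq_pow : (wpq b₀ k₀ p q (FreeGroup.of k₀)) ^ q =
    (kap b₀ k₀ p q)⁻¹ * (kap b₀ k₀ p q)⁻¹ * (FreeGroup.of b₀) ^ p * kap b₀ k₀ p q := by
  have h : (wpq b₀ k₀ p q (FreeGroup.of k₀)) ^ q =
      (kap b₀ k₀ p q)⁻¹ * FreeGroup.of k₀ ^ q * kap b₀ k₀ p q := by
    rw [wpq_of_k]
    have h1 := conj_pow (i := q) (a := (kap b₀ k₀ p q)⁻¹) (b := FreeGroup.of k₀)
    rw [inv_inv] at h1
    exact h1
  rw [h, kap]
  group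

end

/-- The free group on two generators maps to the large free group. -/
def kh {α : Type} (b₀ k₀ : α) (p q : ℕ) : FreeGroup Bool →* FreeGroup α :=
  FreeGroup.lift fun c => cond c (FreeGroup.of b₀ ^ p) (kap b₀ k₀ p q)

theorem kh_wmap {α : Type} [DecidableEq α] (b₀ k₀ : α) (hbk : b₀ ≠ k₀) (p q : ℕ)
    (v : FreeGroup Bool) : kh b₀ k₀ p q (wmap true false v) = wpq b₀ k₀ p q (pw b₀ k₀ p q v) := by
  have h : (kh b₀ k₀ p q).comp (wmap true false) = (wpq b₀ k₀ p q).comp (pw b₀ k₀ p q) := by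
    ext c
    cases c
    · have h1 := wpq_pow b₀ k₀ p q
      simp only [MonoidHom.comp_apply, wmap, pw, FreeGroup.lift_apply_of, if_true, map_mul,
        map_inv, kh, cond_true, cond_false, map_pow]
      rw [h1]
    · have h1 := wpq_of_b b₀ k₀ p q hbk
      simp only [MonoidHom.comp_apply, wmap, pw, FreeGroup.lift_apply_of, kh, cond_true, map_pow,
        h1]
      simp
  exact DFunLike.congr_fun h v

/-- The map of the small amalgam is injective. -/
theorem exists_small {α : Type} [DecidableEq α] (b₀ k₀ : α) (hbk : b₀ ≠ k₀) (p q : ℕ)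
    {Γ₁ : Type} [Group Γ₁] (i : FreeGroup α →* Γ₁) :
    ∃ F : Sm b₀ k₀ p q i →* Amalgam i (wpq b₀ k₀ p q), Injective F ∧
      (∀ x, F (Amalgam.inl _ _ x) = Amalgam.inl _ _ x) ∧
      (∀ x, F (Amalgam.inr _ _ x) = Amalgam.inr _ _ (kh b₀ k₀ p q x)) := by
  let F : Sm b₀ k₀ p q i →* Amalgam i (wpq b₀ k₀ p q) :=
    Amalgam.lift _ _ (Amalgam.inl i (wpq b₀ k₀ p q))
      ((Amalgam.inr i (wpq b₀ k₀ p q)).comp (kh b₀ k₀ p q)) (by
        intro v
        have h1 := Amalgam.inl_eq_inr i (wpq b₀ k₀ p q) (pw b₀ k₀ p q v)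
        rw [MonoidHom.comp_apply, MonoidHom.comp_apply, kh_wmap b₀ k₀ hbk, h1])
  let G : Amalgam i (wpq b₀ k₀ p q) →* Sm b₀ k₀ p q i :=
    Amalgam.lift _ _ (Amalgam.inl _ _) (psi b₀ k₀ p q i) (fun v => (psi_wpq b₀ k₀ p q i hbk v).symm)
  have hGF : G.comp F = MonoidHom.id _ := by
    apply Amalgam.hom_ext
    · intro x
      rfl
    · intro x
      have h1 : (psi b₀ k₀ p q i).comp (kh b₀ k₀ p q) = Amalgam.inr _ _ := by
        ext c
        cases c
        · simp only [MonoidHom.comp_apply, kh, FreeGroup.lift_apply_of, cond_false]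
          exact psi_kap b₀ k₀ p q i hbk
        · simp only [MonoidHom.comp_apply, kh, FreeGroup.lift_apply_of, cond_true, map_pow]
          rw [psi_of_ne b₀ k₀ p q i b₀ hbk, sm_true]
      exact DFunLike.congr_fun h1 x
  exact ⟨F, LeftInverse.injective (g := G) fun x => DFunLike.congr_fun hGF x, fun x => rfl,
    fun x => rfl⟩

/-- The criterion. -/
theorem crit2 {α : Type} [DecidableEq α] (b₀ k₀ : α) (hbk : b₀ ≠ k₀) (p q : ℕ) (hp : 0 < p)
    (hq : 0 < q) {Γ₁ Γ₂ : Type} [Group Γ₁] [Group Γ₂] (Γ₁' : Subgroup Γ₁)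
    (χ : Γ₁' →* Multiplicative ℤ) (hfp : Group.IsFinitelyPresented χ.ker)
    (e : FreeGroup α ≃* FreeGroup α) (i₁ : FreeGroup α →* Γ₁) (hi₁ : Injective i₁)
    (i₂ : FreeGroup α →* Γ₂) (hi₂inj : Injective i₂)
    (hb : i₁ (e (FreeGroup.of b₀)) ^ p ∈ Γ₁') (hk : i₁ (e (FreeGroup.of k₀)) ^ q ∈ Γ₁')
    (hχk : χ ⟨_, hk⟩ = χ ⟨_, hb⟩) (hχb : χ ⟨_, hb⟩ ≠ 1)
    (y : FreeGroup α →* Γ₂) (hy : Injective y) (hi₂ : ∀ a, i₂ (e a) = y (wpq b₀ k₀ p q a)) :
    ∃ H : Subgroup (Amalgam i₁ i₂), Group.IsFinitelyPresented H ∧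
      ∃ g, H.map (MulAut.conj g).toMonoidHom < H := by
  let i : FreeGroup α →* Γ₁ := i₁.comp e.toMonoidHom
  have hi : Injective i := hi₁.comp e.injective
  have hwinj : Injective (wpq b₀ k₀ p q) := by
    intro v w hvw
    apply e.injective
    apply hi₂inj
    rw [hi₂, hi₂, hvw]
  let t : Γ₁' := ⟨_, hb⟩
  let t' : Γ₁' := ⟨_, hk⟩
  let jΓ : FreeGroup Bool →* Γ₁' := FreeGroup.lift fun c => cond c t t'
  have hjΓ (v : FreeGroup Bool) : (jΓ v : Γ₁) = i.comp (pw b₀ k₀ p q) (MulEquiv.refl _ v) := by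
    have h1 : Γ₁'.subtype.comp jΓ = i.comp (pw b₀ k₀ p q) := by
      ext c
      cases c <;> simp [jΓ, pw, i, t, t']
    exact DFunLike.congr_fun h1 v
  have hjt : jΓ (FreeGroup.of true) = t := by simp [jΓ]
  have hjt' : jΓ (FreeGroup.of false) = t' := by simp [jΓ]
  let a : χ.ker := ⟨jΓ (FreeGroup.of false) * (jΓ (FreeGroup.of true))⁻¹, by
    rw [MonoidHom.mem_ker, map_mul, map_inv, mul_inv_eq_one, hjt, hjt']
    exact hχk⟩
  obtain ⟨Θ₀, hΘ₀, hΘ₀l, hΘ₀r, -⟩ := crit_aux true false (by decide) Γ₁' χ (MulEquiv.refl _)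
    (i.comp (pw b₀ k₀ p q)) (hi.comp (pw_injective b₀ k₀ hbk p q hp hq)) (wmap true false) jΓ hjΓ
    (fun c h1 h2 => by cases c <;> simp_all) a rfl (by rw [hjt]; exact hχb) (MonoidHom.id _)
    (fun _ _ h => h) (fun _ => rfl)
  obtain ⟨F, hF, hFl, hFr⟩ := exists_small b₀ k₀ hbk p q i
  let F₁ : Amalgam i (wpq b₀ k₀ p q) →*
      Amalgam ((MonoidHom.id Γ₁).comp i) (y.comp (wpq b₀ k₀ p q)) :=
    Amalgam.lift _ _ (Amalgam.inl _ _) ((Amalgam.inr _ _).comp y)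
      (fun v => Amalgam.inl_eq_inr ((MonoidHom.id Γ₁).comp i) (y.comp (wpq b₀ k₀ p q)) v)
  have hF₁ : Injective F₁ := amalgam_map_injective i (wpq b₀ k₀ p q) hi hwinj (MonoidHom.id Γ₁) y
    (fun _ _ h => h) hy F₁ (fun x => rfl) (fun x => rfl)
  let F₂ : Amalgam ((MonoidHom.id Γ₁).comp i) (y.comp (wpq b₀ k₀ p q)) →* Amalgam i₁ i₂ :=
    Amalgam.lift _ _ (Amalgam.inl i₁ i₂) (Amalgam.inr i₁ i₂) (by
      intro v
      have h1 := Amalgam.inl_eq_inr i₁ i₂ (e v)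
      rw [hi₂] at h1
      exact h1)
  let F₃ : Amalgam i₁ i₂ →* Amalgam ((MonoidHom.id Γ₁).comp i) (y.comp (wpq b₀ k₀ p q)) :=
    Amalgam.lift i₁ i₂ (Amalgam.inl _ _) (Amalgam.inr _ _) (by
      intro v
      have h1 := Amalgam.inl_eq_inr ((MonoidHom.id Γ₁).comp i) (y.comp (wpq b₀ k₀ p q)) (e.symm v)
      have h2 : ((MonoidHom.id Γ₁).comp i) (e.symm v) = i₁ v := by
        rw [MonoidHom.comp_apply, MonoidHom.comp_apply]
        exact congrArg i₁ (e.apply_symm_apply v)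
      have h3 : (y.comp (wpq b₀ k₀ p q)) (e.symm v) = i₂ v := by
        rw [MonoidHom.comp_apply, ← hi₂, MulEquiv.apply_symm_apply]
      rw [h2, h3] at h1
      exact h1)
  have hF₂ : Injective F₂ := by
    have h1 : F₃.comp F₂ = MonoidHom.id _ := Amalgam.hom_ext _ _ (fun x => rfl) (fun x => rfl)
    exact LeftInverse.injective (g := F₃) fun x => DFunLike.congr_fun h1 x
  let Θ : Coprod χ.ker (FreeGroup Unit) →* Amalgam i₁ i₂ := F₂.comp (F₁.comp (F.comp Θ₀))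
  have hΘ : Injective Θ := hF₂.comp (hF₁.comp (hF.comp hΘ₀))
  have hΘl (s : χ.ker) : Θ (Coprod.inl s) = Amalgam.inl i₁ i₂ (s : Γ₁') := by
    simp only [Θ, MonoidHom.comp_apply, hΘ₀l, hFl]
    rfl
  set κ : Amalgam i₁ i₂ := Amalgam.inr i₁ i₂ (y (kap b₀ k₀ p q)) with hκ
  have hΘr : Θ (Coprod.inr (FreeGroup.of ())) = κ := by
    have h1 : kh b₀ k₀ p q (FreeGroup.of false) = kap b₀ k₀ p q := by simp [kh]
    simp only [Θ, MonoidHom.comp_apply, hΘ₀r, MonoidHom.id_apply]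
    rw [hFr, h1]
    rfl
  set g : Amalgam i₁ i₂ := Amalgam.inl i₁ i₂ (t : Γ₁) with hg
  have hg2 : g = Amalgam.inr i₁ i₂ (y (FreeGroup.of b₀ ^ p)) := by
    have h1 := Amalgam.inl_eq_inr i₁ i₂ (e (FreeGroup.of b₀ ^ p))
    rw [hi₂, map_pow (wpq b₀ k₀ p q), wpq_of_b b₀ k₀ p q hbk] at h1
    rw [← h1, hg]
    congr 1
    simp [t]
  have hg3 : Amalgam.inl i₁ i₂ (t' : Γ₁) = κ⁻¹ * κ⁻¹ * g * κ := by
    have h1 := Amalgam.inl_eq_inr i₁ i₂ (e (FreeGroup.of k₀ ^ q))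
    rw [hi₂, map_pow (wpq b₀ k₀ p q), wpq_pow] at h1
    simp only [map_mul, map_inv] at h1
    rw [← hκ, ← hg2] at h1
    rw [← h1]
    congr 1
    simp [t']
  refine exists_of_hom hfp (MulAut.conjNormal t) a Θ hΘ g ?_ ?_
  · intro s
    rw [hΘl, hΘl, MulAut.conjNormal_apply]
    simp only [hg, Subgroup.coe_mul, Subgroup.coe_inv, map_mul, map_inv]
  · rw [hΘl, hΘr]
    have h1 : ((a : Γ₁') : Γ₁) = (t' : Γ₁) * (t : Γ₁)⁻¹ := by
      change ((jΓ (FreeGroup.of false) * (jΓ (FreeGroup.of true))⁻¹ : Γ₁') : Γ₁) = _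
      rw [hjt, hjt']
      rfl
    rw [h1, map_mul, map_inv, hg3, ← hg]
    group

end Helper85.NS
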