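import Mathlib

/-!
Definitions for finitely presented nonseparable subgroups of amalgams of hyperbolic
3-manifold groups.
-/

namespace Helper85.NS

open Matrix
open scoped ComplexOrder

section Groups

/-- The free product with amalgamation `Γ₁ *_A Γ₂` along `i₁ : A → Γ₁` and `i₂ : A → Γ₂`: the free
product modulo the relations `i₁ a = i₂ a`. -/
def Amalgam {A Γ₁ Γ₂ : Type} [Group A] [Group Γ₁] [Group Γ₂] (i₁ : A →* Γ₁) (i₂ : A →* Γ₂) :
    Type :=
  Monoid.Coprod Γ₁ Γ₂ ⧸ Subgroup.normalClosure (Set.range fun a : A =>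
    (Monoid.Coprod.inl (i₁ a) : Monoid.Coprod Γ₁ Γ₂) * (Monoid.Coprod.inr (i₂ a))⁻¹)

instance instGroupAmalgam {A Γ₁ Γ₂ : Type} [Group A] [Group Γ₁] [Group Γ₂] (i₁ : A →* Γ₁)
    (i₂ : A →* Γ₂) : Group (Amalgam i₁ i₂) :=
  inferInstanceAs (Group (Monoid.Coprod Γ₁ Γ₂ ⧸ Subgroup.normalClosure (Set.range fun a : A =>
    (Monoid.Coprod.inl (i₁ a) : Monoid.Coprod Γ₁ Γ₂) * (Monoid.Coprod.inr (i₂ a))⁻¹)))

/-- A subgroup is separable if it is the intersection of the subgroups of finite index which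
contain it. -/
def Separable {G : Type*} [Group G] (H : Subgroup G) : Prop :=
  ∀ g, g ∉ H → ∃ K : Subgroup G, K.FiniteIndex ∧ H ≤ K ∧ g ∉ K

/-- A subgroup is malnormal if it meets its other conjugates trivially. -/
def Malnormal {G : Type*} [Group G] (A : Subgroup G) : Prop :=
  ∀ g, g ∉ A → ∀ a ∈ A, g * a * g⁻¹ ∈ A → a = 1

/-- The endomorphism of a free group which sends `k₀` to `k₀⁻² b₀ k₀` and fixes the other
generators. -/
def wmap {α : Type} [DecidableEq α] (b₀ k₀ : α) : FreeGroup α →* FreeGroup α :=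
  FreeGroup.lift fun i => if i = k₀ then
    (FreeGroup.of k₀)⁻¹ * (FreeGroup.of k₀)⁻¹ * FreeGroup.of b₀ * FreeGroup.of k₀
    else FreeGroup.of i

/-- The letters of the words in the generators `wmap b₀ k₀ i` and their inverses. -/
def wlet {α : Type} [DecidableEq α] (b₀ k₀ : α) (s : α × Bool) : FreeGroup α :=
  cond s.2 (wmap b₀ k₀ (FreeGroup.of s.1)) (wmap b₀ k₀ (FreeGroup.of s.1))⁻¹

end Groups

section Hyperbolic

/-- The group `SL₂(ℂ)`. -/
abbrev SL2 : Type := Matrix.SpecialLinearGroup (Fin 2) ℂ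

/-- The group `PSL₂(ℂ)`, the group of orientation preserving isometries of hyperbolic
3-space. -/
abbrev PSL2 : Type := Matrix.ProjectiveSpecialLinearGroup (Fin 2) ℂ

/-- The projection `SL₂(ℂ) → PSL₂(ℂ)`. -/
def toPSL : SL2 →* PSL2 := QuotientGroup.mk' _

/-- Hyperbolic 3-space: the positive definite Hermitian matrices of determinant one. -/
def H3 : Set (Matrix (Fin 2) (Fin 2) ℂ) := {X | X.PosDef ∧ X.det = 1}

/-- The action `X ↦ g X g*` of `SL₂(ℂ)` on Hermitian matrices. -/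
def act (g : SL2) (X : Matrix (Fin 2) (Fin 2) ℂ) : Matrix (Fin 2) (Fin 2) ℂ :=
  (g : Matrix (Fin 2) (Fin 2) ℂ) * X * (g : Matrix (Fin 2) (Fin 2) ℂ)ᴴ

/-- The hyperbolic cosine of the distance of two points of hyperbolic 3-space. -/
noncomputable def coshDist (X Y : Matrix (Fin 2) (Fin 2) ℂ) : ℝ := (X * Y⁻¹).trace.re / 2

/-- Discrete subgroups of `PSL₂(ℂ)`. -/
def Discrete (Γ : Subgroup PSL2) : Prop :=
  ∃ ε > 0, ∀ g : SL2, toPSL g ∈ Γ →
    (∀ i j, ‖(g : Matrix (Fin 2) (Fin 2) ℂ) i j - (1 : Matrix (Fin 2) (Fin 2) ℂ) i j‖ < ε) → g = 1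

/-- A subgroup of `PSL₂(ℂ)` is geometrically finite if it has a Dirichlet polyhedron
`{Y | d(Y, X) ≤ d(Y, g X) for all g in the group}` which is cut out by finitely many of these
half-spaces. -/
def GeometricallyFinite (Γ : Subgroup PSL2) : Prop :=
  ∃ X ∈ H3, ∃ F : Set SL2, F.Finite ∧ (∀ g ∈ F, toPSL g ∈ Γ) ∧
    ∀ Y ∈ H3, (∀ g ∈ F, coshDist Y X ≤ coshDist Y (act g X)) →
      ∀ g : SL2, toPSL g ∈ Γ → coshDist Y X ≤ coshDist Y (act g X)

/-- An element of `SL₂(ℂ)` is loxodromic if its trace is not in the real interval `[-2, 2]`. -/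
def Lox (x : SL2) : Prop :=
  ¬ ∃ t : ℝ, |t| ≤ 2 ∧ (x : Matrix (Fin 2) (Fin 2) ℂ).trace = t

/-- Loxodromic elements of `PSL₂(ℂ)`. -/
def Loxodromic (g : PSL2) : Prop := ∀ x : SL2, toPSL x = g → Lox x

/-- The square of the Frobenius norm. -/
noncomputable def N (M : Matrix (Fin 2) (Fin 2) ℂ) : ℝ := ∑ i, ∑ j, ‖M i j‖ ^ 2

/-- The diagonal matrix with entries `l` and `l⁻¹`. -/
noncomputable def dg (l : ℂ) (hl : l ≠ 0) : SL2 :=
  ⟨!![l, 0; 0, l⁻¹], by simp [Matrix.det_fin_two, hl]⟩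

/-- The value of a letter. -/
def ev {α : Type} {G : Type*} [Group G] (x : α → G) (s : α × Bool) : G :=
  cond s.2 (x s.1) (x s.1)⁻¹

end Hyperbolic

end Helper85.NS
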