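import Pool.Agent.Helper85.NS.Norm

/-!
Diagonalization of loxodromic matrices; growth of powers of the others.
-/

namespace Helper85.NS

open Matrix

private theorem exists_eigenvector (x : SL2) (l : ℂ)
    (hl : l ^ 2 - x.1.trace * l + 1 = 0) :
    ∃ p r : ℂ, (p ≠ 0 ∨ r ≠ 0) ∧ x.1 0 0 * p + x.1 0 1 * r = l * p ∧
      x.1 1 0 * p + x.1 1 1 * r = l * r := by
  have hdet := x.2
  rw [Matrix.det_fin_two] at hdet
  rw [Matrix.trace_fin_two] at hl
  have h0 : (x.1 - l • (1 : Matrix (Fin 2) (Fin 2) ℂ)).det = 0 := by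
    rw [Matrix.det_fin_two]
    simp only [Matrix.sub_apply, Matrix.smul_apply, Matrix.one_apply_eq, smul_eq_mul, mul_one,
      ne_eq, one_ne_zero, not_false_eq_true, Matrix.one_apply_ne, mul_zero, sub_zero, zero_ne_one]
    linear_combination hl + hdet
  obtain ⟨v, hv, hv'⟩ := Matrix.exists_mulVec_eq_zero_iff.2 h0
  refine ⟨v 0, v 1, ?_, ?_, ?_⟩
  · by_contra hne
    push Not at hne
    apply hv
    ext i
    fin_cases i
    · exact hne.1
    · exact hne.2
  · have h1 := congrFun hv' 0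
    simp only [Matrix.mulVec, dotProduct, Fin.sum_univ_two, Matrix.sub_apply, Matrix.smul_apply,
      Matrix.one_apply_eq, smul_eq_mul, mul_one, ne_eq, zero_ne_one, not_false_eq_true,
      Matrix.one_apply_ne, mul_zero, sub_zero, Pi.zero_apply] at h1
    linear_combination h1
  · have h1 := congrFun hv' 1
    simp only [Matrix.mulVec, dotProduct, Fin.sum_univ_two, Matrix.sub_apply, Matrix.smul_apply,
      Matrix.one_apply_eq, smul_eq_mul, mul_one, ne_eq, one_ne_zero, not_false_eq_true,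
      Matrix.one_apply_ne, mul_zero, sub_zero, Pi.zero_apply] at h1
    linear_combination h1

/-- NS-12c: loxodromic elements can be diagonalized -/
theorem exists_diag (x : SL2) (hx : Lox x) :
    ∃ (P : SL2) (l : ℂ) (hl : l ≠ 0), 1 < ‖l‖ ∧ x = P * dg l hl * P⁻¹ := by
  obtain ⟨l, hl, hl1, hroot⟩ : ∃ l : ℂ, l ≠ 0 ∧ 1 < ‖l‖ ∧ l ^ 2 - x.1.trace * l + 1 = 0 := by
    obtain ⟨s, hs⟩ := IsAlgClosed.exists_pow_nat_eq (x.1.trace ^ 2 - 4) (n := 2) (by norm_num)
    set l := (x.1.trace + s) / 2 with hldef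
    have hroot : l ^ 2 - x.1.trace * l + 1 = 0 := by
      rw [hldef]
      linear_combination (1 / 4) * hs
    have hl : l ≠ 0 := by
      intro h0
      rw [h0] at hroot
      norm_num at hroot
    have htr : x.1.trace = l + l⁻¹ := by
      field_simp
      linear_combination -hroot
    have hne : ‖l‖ ≠ 1 := by
      intro h1
      apply hx
      have h2 : l⁻¹ = (starRingEnd ℂ) l := by
        rw [Complex.inv_def, Complex.normSq_eq_norm_sq, h1]
        norm_num
      refine ⟨2 * l.re, ?_, ?_⟩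
      · rw [abs_mul, abs_two]
        have h3 := Complex.abs_re_le_norm l
        rw [h1] at h3
        linarith
      · rw [htr, h2, Complex.add_conj]
    rcases lt_or_gt_of_ne hne with h1 | h1
    · refine ⟨l⁻¹, inv_ne_zero hl, ?_, ?_⟩
      · rw [norm_inv]
        exact (one_lt_inv₀ (norm_pos_iff.2 hl)).2 h1
      · field_simp
        linear_combination hroot
    · exact ⟨l, hl, h1, hroot⟩
  have hroot' : l⁻¹ ^ 2 - x.1.trace * l⁻¹ + 1 = 0 := by
    field_simp
    linear_combination hroot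
  have hll : l - l⁻¹ ≠ 0 := by
    intro h0
    have h1 : l ^ 2 = 1 := by
      field_simp at h0
      linear_combination h0
    have h2 : ‖l‖ ^ 2 = 1 := by rw [← norm_pow, h1, norm_one]
    nlinarith
  obtain ⟨p, r, hpr, e1, e2⟩ := exists_eigenvector x l hroot
  obtain ⟨q, s, hqs, e3, e4⟩ := exists_eigenvector x l⁻¹ hroot'
  have hdet : p * s - q * r ≠ 0 := by
    intro h0
    have h1 : ∀ c : ℂ, c * (l - l⁻¹) * p = 0 → c * (l - l⁻¹) * r = 0 → c = 0 := by
      intro c h2 h3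
      rcases hpr with h4 | h4
      · rcases mul_eq_zero.1 h2 with h5 | h5
        · rcases mul_eq_zero.1 h5 with h6 | h6
          · exact h6
          · exact absurd h6 hll
        · exact absurd h5 h4
      · rcases mul_eq_zero.1 h3 with h5 | h5
        · rcases mul_eq_zero.1 h5 with h6 | h6
          · exact h6
          · exact absurd h6 hll
        · exact absurd h5 h4
    have hs0 : s = 0 := by
      apply h1
      · linear_combination (-s) * e1 + r * e3 + (x.1 0 0 - l⁻¹) * h0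
      · linear_combination (-s) * e2 + r * e4 + x.1 1 0 * h0
    have hq0 : q = 0 := by
      apply h1
      · linear_combination (-q) * e1 + p * e3 - x.1 0 1 * h0
      · linear_combination (-q) * e2 + p * e4 - (x.1 1 1 - l⁻¹) * h0
    rcases hqs with h2 | h2
    · exact h2 hq0
    · exact h2 hs0
  set δ := p * s - q * r with hδ
  let P : SL2 := ⟨!![p / δ, q; r / δ, s], by
    rw [Matrix.det_fin_two_of]
    field_simp
    rw [hδ]⟩
  refine ⟨P, l, hl, hl1, ?_⟩
  rw [eq_mul_inv_iff_mul_eq]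
  apply Subtype.ext
  change x.1 * !![p / δ, q; r / δ, s] = !![p / δ, q; r / δ, s] * !![l, 0; 0, l⁻¹]
  ext i j
  fin_cases i <;> fin_cases j
  · simp [Matrix.mul_apply, Fin.sum_univ_two]
    linear_combination (1 / δ) * e1
  · simp [Matrix.mul_apply, Fin.sum_univ_two]
    linear_combination e3
  · simp [Matrix.mul_apply, Fin.sum_univ_two]
    linear_combination (1 / δ) * e2
  · simp [Matrix.mul_apply, Fin.sum_univ_two]
    linear_combination e4

private theorem N_comb_le (M : Matrix (Fin 2) (Fin 2) ℂ) (a b : ℝ) :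
    N ((a : ℂ) • M + (b : ℂ) • (1 : Matrix (Fin 2) (Fin 2) ℂ)) ≤
      2 * (a ^ 2 * N M + b ^ 2 * N (1 : Matrix (Fin 2) (Fin 2) ℂ)) := by
  have key : ∀ i j, ‖((a : ℂ) • M + (b : ℂ) • (1 : Matrix (Fin 2) (Fin 2) ℂ)) i j‖ ^ 2 ≤
      2 * (a ^ 2 * ‖M i j‖ ^ 2 + b ^ 2 * ‖(1 : Matrix (Fin 2) (Fin 2) ℂ) i j‖ ^ 2) := by
    intro i j
    simp only [Matrix.add_apply, Matrix.smul_apply, smul_eq_mul]
    have h1 := norm_add_le ((a : ℂ) * M i j) ((b : ℂ) * (1 : Matrix (Fin 2) (Fin 2) ℂ) i j)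
    rw [norm_mul, norm_mul, Complex.norm_real, Complex.norm_real] at h1
    have h2 := norm_nonneg ((a : ℂ) * M i j + (b : ℂ) * (1 : Matrix (Fin 2) (Fin 2) ℂ) i j)
    have h3 : (‖a‖ * ‖M i j‖) ^ 2 = a ^ 2 * ‖M i j‖ ^ 2 := by
      rw [mul_pow, Real.norm_eq_abs, sq_abs]
    have h4 : (‖b‖ * ‖(1 : Matrix (Fin 2) (Fin 2) ℂ) i j‖) ^ 2 =
        b ^ 2 * ‖(1 : Matrix (Fin 2) (Fin 2) ℂ) i j‖ ^ 2 := by
      rw [mul_pow, Real.norm_eq_abs, sq_abs]
    rw [← h3, ← h4]
    nlinarith [sq_nonneg (‖a‖ * ‖M i j‖ - ‖b‖ * ‖(1 : Matrix (Fin 2) (Fin 2) ℂ) i j‖)]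
  unfold N
  simp only [Fin.sum_univ_two]
  have := key 0 0
  have := key 0 1
  have := key 1 0
  have := key 1 1
  linarith

private theorem N_one' : N (1 : Matrix (Fin 2) (Fin 2) ℂ) = 2 := N_one

/-- Cayley-Hamilton. -/
private theorem sq_eq (x : SL2) (t : ℝ) (hx : x.1.trace = t) :
    x.1 * x.1 = (t : ℂ) • x.1 + ((-1 : ℝ) : ℂ) • (1 : Matrix (Fin 2) (Fin 2) ℂ) := by
  have hdet := x.2
  rw [Matrix.det_fin_two] at hdet
  rw [Matrix.trace_fin_two] at hx
  rw [← hx]
  ext i j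
  fin_cases i <;> fin_cases j
  · simp [Matrix.mul_apply, Fin.sum_univ_two]
    linear_combination -hdet
  · simp [Matrix.mul_apply, Fin.sum_univ_two]
    ring
  · simp [Matrix.mul_apply, Fin.sum_univ_two]
    ring
  · simp [Matrix.mul_apply, Fin.sum_univ_two]
    linear_combination -hdet

private theorem pow_succ_comb (x : SL2) (t : ℝ) (hx : x.1.trace = t) (n : ℕ) (a b : ℝ)
    (h : (x ^ n).1 = (a : ℂ) • x.1 + (b : ℂ) • (1 : Matrix (Fin 2) (Fin 2) ℂ)) :
    (x ^ (n + 1)).1 = ((t * a + b : ℝ) : ℂ) • x.1 +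
      ((-a : ℝ) : ℂ) • (1 : Matrix (Fin 2) (Fin 2) ℂ) := by
  rw [pow_succ, Matrix.SpecialLinearGroup.coe_mul, h, add_mul, smul_mul_assoc, smul_mul_assoc,
    one_mul, sq_eq x t hx, smul_add, smul_smul, smul_smul]
  push_cast
  module

/-- NS-12e: a matrix with trace in `(-2, 2)` has bounded powers -/
theorem N_pow_le_of_lt (x : SL2) (t : ℝ) (ht : |t| < 2) (hx : x.1.trace = t) :
    ∃ C : ℝ, ∀ n : ℕ, N (x ^ n).1 ≤ C := by
  have key : ∀ n : ℕ, ∃ a b : ℝ, (x ^ n).1 = (a : ℂ) • x.1 +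
      (b : ℂ) • (1 : Matrix (Fin 2) (Fin 2) ℂ) ∧ a ^ 2 + b ^ 2 + t * a * b = 1 := by
    intro n
    induction n with
    | zero =>
      refine ⟨0, 1, ?_, by norm_num⟩
      simp
    | succ n ih =>
      obtain ⟨a, b, h1, h2⟩ := ih
      exact ⟨t * a + b, -a, pow_succ_comb x t hx n a b h1, by nlinarith⟩
  have hN := N_nonneg x.1
  refine ⟨2 * ((1 - |t| / 2)⁻¹ * (N x.1 + 2)), fun n => ?_⟩
  obtain ⟨a, b, h1, h2⟩ := key n
  rw [h1]
  refine (N_comb_le _ _ _).trans ?_
  rw [N_one']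
  have h3 : (1 - |t| / 2) * (a ^ 2 + b ^ 2) ≤ 1 := by
    have h4 : |t| * (a ^ 2 + b ^ 2) / 2 ≥ -(t * a * b) := by
      have h5 : |t * (a * b)| ≤ |t| * ((a ^ 2 + b ^ 2) / 2) := by
        rw [abs_mul]
        apply mul_le_mul_of_nonneg_left _ (abs_nonneg t)
        rw [abs_le]
        constructor <;> nlinarith [sq_nonneg (a + b), sq_nonneg (a - b)]
      have h6 := neg_abs_le (t * (a * b))
      nlinarith
    nlinarith
  have h5 : 0 < 1 - |t| / 2 := by linarith
  have h6 : a ^ 2 + b ^ 2 ≤ (1 - |t| / 2)⁻¹ := by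
    rw [← one_div, le_div_iff₀ h5]
    linarith
  have h7 : a ^ 2 * N x.1 + b ^ 2 * 2 ≤ (a ^ 2 + b ^ 2) * (N x.1 + 2) := by
    nlinarith [sq_nonneg a, sq_nonneg b, mul_nonneg (sq_nonneg b) hN]
  have h8 : (a ^ 2 + b ^ 2) * (N x.1 + 2) ≤ (1 - |t| / 2)⁻¹ * (N x.1 + 2) :=
    mul_le_mul_of_nonneg_right h6 (by linarith)
  linarith

/-- NS-12d: powers of a matrix with trace in `[-2, 2]` grow at most linearly -/
theorem N_pow_le (x : SL2) (hx : ¬ Lox x) :
    ∃ C : ℝ, ∀ n : ℕ, N (x ^ n).1 ≤ C * (n + 1) ^ 2 := by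
  unfold Lox at hx
  rw [not_not] at hx
  obtain ⟨t, ht, hx⟩ := hx
  rcases lt_or_eq_of_le ht with ht | ht
  · obtain ⟨C, hC⟩ := N_pow_le_of_lt x t ht hx
    refine ⟨C, fun n => (hC n).trans ?_⟩
    have h0 : 0 ≤ C := (N_nonneg _).trans (hC 0)
    have h1 : (1 : ℝ) ≤ ((n : ℝ) + 1) ^ 2 := by
      have : (0 : ℝ) ≤ n := Nat.cast_nonneg n
      nlinarith
    nlinarith
  · obtain ⟨ε, hε, htε⟩ : ∃ ε : ℝ, ε ^ 2 = 1 ∧ t = 2 * ε := by
      refine ⟨t / 2, ?_, by ring⟩
      have : t ^ 2 = 4 := by rw [← sq_abs, ht]; norm_num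
      nlinarith
    have hεabs : |ε| = 1 := by
      have : |t| = 2 * |ε| := by rw [htε, abs_mul, abs_two]
      linarith
    have key : ∀ n : ℕ, ∃ a b : ℝ, (x ^ n).1 = (a : ℂ) • x.1 +
        (b : ℂ) • (1 : Matrix (Fin 2) (Fin 2) ℂ) ∧ |a + ε * b| = 1 ∧ |a| ≤ n ∧
          |b| ≤ n + 1 := by
      intro n
      induction n with
      | zero =>
        refine ⟨0, 1, by simp, by simpa using hεabs, by simp, by simp⟩
      | succ n ih =>
        obtain ⟨a, b, h1, h2, h3, h4⟩ := ih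
        refine ⟨t * a + b, -a, pow_succ_comb x t hx n a b h1, ?_, ?_, ?_⟩
        · have h5 : t * a + b + ε * -a = ε * (a + ε * b) := by
            rw [htε]; linear_combination -b * hε
          rw [h5, abs_mul, hεabs, h2, one_mul]
        · have h5 : t * a + b = ε * a + ε * (a + ε * b) := by
            rw [htε]; linear_combination -b * hε
          rw [h5]
          refine (abs_add_le _ _).trans ?_
          rw [abs_mul, abs_mul, hεabs, h2]
          push_cast
          linarith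
        · rw [abs_neg]
          push_cast
          linarith
    have hN := N_nonneg x.1
    refine ⟨2 * (N x.1 + 2), fun n => ?_⟩
    obtain ⟨a, b, h1, -, h3, h4⟩ := key n
    rw [h1]
    refine (N_comb_le _ _ _).trans ?_
    rw [N_one']
    have hn : (0 : ℝ) ≤ n := Nat.cast_nonneg n
    have h5 : a ^ 2 ≤ ((n : ℝ) + 1) ^ 2 := by
      rw [← sq_abs]
      exact pow_le_pow_left₀ (abs_nonneg a) (by linarith) 2
    have h6 : b ^ 2 ≤ ((n : ℝ) + 1) ^ 2 := by
      rw [← sq_abs]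
      exact pow_le_pow_left₀ (abs_nonneg b) h4 2
    nlinarith [mul_le_mul_of_nonneg_right h5 hN]

end Helper85.NS
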