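import Pool.Agent.Helper85.NS.Norm

/-!
Bounded sequences in discrete subgroups of `PSL₂(ℂ)`.
-/

namespace Helper85.NS

open Matrix Filter Topology

/-- NS-12b: a bounded sequence in a discrete group takes a value twice -/
theorem exists_eq_of_bounded {Γ : Subgroup PSL2} (hd : Discrete Γ) (e : ℕ → SL2)
    (he : ∀ n, toPSL (e n) ∈ Γ) (C : ℝ) (hC : ∀ n, N (e n).1 ≤ C) :
    ∃ j l, j < l ∧ e j = e l := by
  obtain ⟨ε, hε, hd⟩ := hd
  let f : ℕ → Fin 2 → Fin 2 → ℂ := fun n i j => (e n).1 i j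
  have hC0 : 0 ≤ C := (N_nonneg _).trans (hC 0)
  have hb : ∀ n, f n ∈ Metric.closedBall (0 : Fin 2 → Fin 2 → ℂ) (C + 1) := by
    intro n
    rw [mem_closedBall_zero_iff, pi_norm_le_iff_of_nonneg (by linarith)]
    intro i
    rw [pi_norm_le_iff_of_nonneg (by linarith)]
    intro j
    have h1 : ‖(e n).1 i j‖ ^ 2 ≤ N (e n).1 := by
      unfold N
      have h2 : ‖(e n).1 i j‖ ^ 2 ≤ ∑ j, ‖(e n).1 i j‖ ^ 2 :=
        Finset.single_le_sum (f := fun j => ‖(e n).1 i j‖ ^ 2) (fun _ _ => by positivity)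
          (Finset.mem_univ j)
      have h3 : ∑ j, ‖(e n).1 i j‖ ^ 2 ≤ ∑ i, ∑ j, ‖(e n).1 i j‖ ^ 2 :=
        Finset.single_le_sum (f := fun i => ∑ j, ‖(e n).1 i j‖ ^ 2)
          (fun _ _ => Finset.sum_nonneg fun _ _ => by positivity) (Finset.mem_univ i)
      exact h2.trans h3
    have h2 := hC n
    have h3 := norm_nonneg ((e n).1 i j)
    change ‖(e n).1 i j‖ ≤ C + 1
    nlinarith
  obtain ⟨g, -, φ, hφ, hlim⟩ := tendsto_subseq_of_bounded Metric.isBounded_closedBall hb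
  have hent : ∀ i j, Tendsto (fun n => (e (φ n)).1 i j) atTop (𝓝 (g i j)) := by
    intro i j
    have h1 := (tendsto_pi_nhds.1 hlim) i
    exact (tendsto_pi_nhds.1 h1) j
  have hent' : ∀ i j, Tendsto (fun n => (e (φ (n + 1))).1 i j) atTop (𝓝 (g i j)) := by
    intro i j
    exact (hent i j).comp (tendsto_add_atTop_nat 1)
  have hdetn : ∀ n, (e n).1 0 0 * (e n).1 1 1 - (e n).1 0 1 * (e n).1 1 0 = 1 := by
    intro n
    have := (e n).2
    rwa [Matrix.det_fin_two] at this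
  have hdet : g 0 0 * g 1 1 - g 0 1 * g 1 0 = 1 := by
    have h1 := ((hent 0 0).mul (hent 1 1)).sub ((hent 0 1).mul (hent 1 0))
    have h2 : Tendsto (fun n => (e (φ n)).1 0 0 * (e (φ n)).1 1 1 -
        (e (φ n)).1 0 1 * (e (φ n)).1 1 0) atTop (𝓝 1) := by
      simp only [hdetn]
      exact tendsto_const_nhds
    exact tendsto_nhds_unique h1 h2
  have hprod : ∀ i j, Tendsto (fun n => ((e (φ n))⁻¹ * e (φ (n + 1))).1 i j) atTop
      (𝓝 ((1 : Matrix (Fin 2) (Fin 2) ℂ) i j)) := by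
    intro i j
    have hval : ∀ n, ((e (φ n))⁻¹ * e (φ (n + 1))).1 =
        !![(e (φ n)).1 1 1, -(e (φ n)).1 0 1; -(e (φ n)).1 1 0, (e (φ n)).1 0 0] *
          (e (φ (n + 1))).1 := by
      intro n
      rw [Matrix.SpecialLinearGroup.coe_mul, Matrix.SpecialLinearGroup.coe_inv,
        Matrix.adjugate_fin_two]
    simp only [hval]
    fin_cases i <;> fin_cases j
    · simp only [Matrix.mul_apply, Fin.sum_univ_two]
      have h1 := ((hent 1 1).mul (hent' 0 0)).add (((hent 0 1).neg).mul (hent' 1 0))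
      have h2 : g 1 1 * g 0 0 + -g 0 1 * g 1 0 = 1 := by linear_combination hdet
      rw [h2] at h1
      simpa using h1
    · simp only [Matrix.mul_apply, Fin.sum_univ_two]
      have h1 := ((hent 1 1).mul (hent' 0 1)).add (((hent 0 1).neg).mul (hent' 1 1))
      have h2 : g 1 1 * g 0 1 + -g 0 1 * g 1 1 = 0 := by ring
      rw [h2] at h1
      simpa using h1
    · simp only [Matrix.mul_apply, Fin.sum_univ_two]
      have h1 := (((hent 1 0).neg).mul (hent' 0 0)).add ((hent 0 0).mul (hent' 1 0))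
      have h2 : -g 1 0 * g 0 0 + g 0 0 * g 1 0 = 0 := by ring
      rw [h2] at h1
      simpa using h1
    · simp only [Matrix.mul_apply, Fin.sum_univ_two]
      have h1 := (((hent 1 0).neg).mul (hent' 0 1)).add ((hent 0 0).mul (hent' 1 1))
      have h2 : -g 1 0 * g 0 1 + g 0 0 * g 1 1 = 1 := by linear_combination hdet
      rw [h2] at h1
      simpa using h1
  have hev : ∀ i j, ∀ᶠ n in atTop, ‖((e (φ n))⁻¹ * e (φ (n + 1))).1 i j -
      (1 : Matrix (Fin 2) (Fin 2) ℂ) i j‖ < ε := by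
    intro i j
    have h1 := Metric.tendsto_nhds.1 (hprod i j) ε hε
    simpa [dist_eq_norm] using h1
  have hev' : ∀ᶠ n in atTop, ∀ i j, ‖((e (φ n))⁻¹ * e (φ (n + 1))).1 i j -
      (1 : Matrix (Fin 2) (Fin 2) ℂ) i j‖ < ε := by
    rw [Filter.eventually_all]
    intro i
    rw [Filter.eventually_all]
    exact hev i
  obtain ⟨n, hn⟩ := hev'.exists
  refine ⟨φ n, φ (n + 1), hφ (Nat.lt_succ_self n), ?_⟩
  have h1 := hd ((e (φ n))⁻¹ * e (φ (n + 1))) (by
    rw [map_mul, map_inv]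
    exact Γ.mul_mem (Γ.inv_mem (he _)) (he _)) hn
  exact inv_mul_eq_one.1 h1

end Helper85.NS
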