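import Pool.Agent.Helper85.NS.Disc
import Pool.Agent.Helper85.NS.Diag

/-!
Discrete torsion-free subgroups of `PSL₂(ℂ)`: fixed points of loxodromic elements.
-/

namespace Helper85.NS

open Matrix

variable {Γ : Subgroup PSL2}

theorem Disc2.dg_mul (l m : ℂ) (hl : l ≠ 0) (hm : m ≠ 0) :
    dg l hl * dg m hm = dg (l * m) (mul_ne_zero hl hm) := by
  apply Subtype.ext
  change !![l, 0; 0, l⁻¹] * !![m, 0; 0, m⁻¹] = !![l * m, 0; 0, (l * m)⁻¹]
  rw [mul_inv]
  ext i j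
  fin_cases i <;> fin_cases j <;> simp [Matrix.mul_apply, Fin.sum_univ_two]

theorem Disc2.dg_one : dg 1 one_ne_zero = 1 := by
  apply Subtype.ext
  change !![(1 : ℂ), 0; 0, 1⁻¹] = 1
  ext i j
  fin_cases i <;> fin_cases j <;> simp

theorem Disc2.dg_inv (l : ℂ) (hl : l ≠ 0) : (dg l hl)⁻¹ = dg l⁻¹ (inv_ne_zero hl) := by
  rw [inv_eq_iff_mul_eq_one, Disc2.dg_mul]
  have : l * l⁻¹ = 1 := mul_inv_cancel₀ hl
  simp only [this]
  exact Disc2.dg_one

theorem Disc2.dg_pow (l : ℂ) (hl : l ≠ 0) (n : ℕ) : (dg l hl) ^ n = dg (l ^ n) (pow_ne_zero n hl) := by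
  induction n with
  | zero =>
    simp only [pow_zero]
    exact Disc2.dg_one.symm
  | succ n ih =>
    rw [pow_succ, ih, Disc2.dg_mul]
    simp only [pow_succ]

theorem Disc2.dg_zpow (l : ℂ) (hl : l ≠ 0) (n : ℤ) :
    (dg l hl) ^ n = dg (l ^ n) (zpow_ne_zero n hl) := by
  cases n with
  | ofNat n =>
    simp only [Int.ofNat_eq_natCast, zpow_natCast]
    exact Disc2.dg_pow l hl n
  | negSucc n =>
    simp only [zpow_negSucc]
    rw [Disc2.dg_pow, Disc2.dg_inv]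

theorem Disc2.dg_conj (l : ℂ) (hl : l ≠ 0) (g : SL2) :
    (dg l hl * g * (dg l hl)⁻¹).1 =
      !![g.1 0 0, l ^ 2 * g.1 0 1; (l ^ 2)⁻¹ * g.1 1 0, g.1 1 1] := by
  rw [Disc2.dg_inv]
  change !![l, 0; 0, l⁻¹] * g.1 * !![l⁻¹, 0; 0, l⁻¹⁻¹] = _
  rw [inv_inv]
  have h0 : g.1 = !![g.1 0 0, g.1 0 1; g.1 1 0, g.1 1 1] := Matrix.eta_fin_two _
  generalize g.1 0 0 = a at *
  generalize g.1 0 1 = b at *
  generalize g.1 1 0 = c at *
  generalize g.1 1 1 = d at *
  rw [h0, Matrix.mul_fin_two, Matrix.mul_fin_two]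
  have e1 : (l * a + 0 * c) * l⁻¹ + (l * b + 0 * d) * 0 = a := by field_simp; ring
  have e2 : (l * a + 0 * c) * 0 + (l * b + 0 * d) * l = l ^ 2 * b := by ring
  have e3 : (0 * a + l⁻¹ * c) * l⁻¹ + (0 * b + l⁻¹ * d) * 0 = (l ^ 2)⁻¹ * c := by
    field_simp; ring
  have e4 : (0 * a + l⁻¹ * c) * 0 + (0 * b + l⁻¹ * d) * l = d := by field_simp; ring
  rw [e1, e2, e3, e4]

private theorem conj_bounded (hd : Discrete Γ) (P : SL2) (m : ℂ) (hm : m ≠ 0)
    (hz : toPSL (P * dg m hm * P⁻¹) ∈ Γ) (g : SL2) (hg : toPSL g ∈ Γ) (C : ℝ)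
    (hC : ∀ n : ℕ, N ((dg m hm) ^ n * (P⁻¹ * g * P) * ((dg m hm) ^ n)⁻¹).1 ≤ C) :
    ∃ j k : ℕ, j < k ∧ (dg m hm) ^ j * (P⁻¹ * g * P) * ((dg m hm) ^ j)⁻¹ =
      (dg m hm) ^ k * (P⁻¹ * g * P) * ((dg m hm) ^ k)⁻¹ := by
  have hpow : ∀ n : ℕ, (P * dg m hm * P⁻¹) ^ n = P * (dg m hm) ^ n * P⁻¹ := by
    intro n
    rw [conj_pow]
  have hval : ∀ n : ℕ, (P * dg m hm * P⁻¹) ^ n * g * ((P * dg m hm * P⁻¹) ^ n)⁻¹ =
      P * ((dg m hm) ^ n * (P⁻¹ * g * P) * ((dg m hm) ^ n)⁻¹) * P⁻¹ := by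
    intro n
    rw [hpow]
    group
  obtain ⟨j, k, hjk, he⟩ := exists_eq_of_bounded hd
    (fun n : ℕ => (P * dg m hm * P⁻¹) ^ n * g * ((P * dg m hm * P⁻¹) ^ n)⁻¹) (by
      intro n
      rw [map_mul, map_mul, map_inv, map_pow]
      exact Γ.mul_mem (Γ.mul_mem (Γ.pow_mem hz n) hg) (Γ.inv_mem (Γ.pow_mem hz n)))
    (N P.1 * C * N (P⁻¹).1) (by
      intro n
      rw [hval, Matrix.SpecialLinearGroup.coe_mul, Matrix.SpecialLinearGroup.coe_mul]
      refine (N_mul_le _ _).trans ?_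
      refine mul_le_mul_of_nonneg_right ?_ (N_nonneg _)
      refine (N_mul_le _ _).trans ?_
      exact mul_le_mul_of_nonneg_left (hC n) (N_nonneg _))
  refine ⟨j, k, hjk, ?_⟩
  simp only [hval] at he
  exact mul_left_cancel (mul_right_cancel he)

private theorem pow_sq_inj {l : ℂ} (hl1 : 1 < ‖l‖) {j k : ℕ} (h : (l ^ j) ^ 2 = (l ^ k) ^ 2) :
    j = k := by
  have h1 : ‖l‖ ^ (j * 2) = ‖l‖ ^ (k * 2) := by
    rw [← norm_pow, ← norm_pow, pow_mul, pow_mul, h]
  have h2 := pow_right_injective₀ (by linarith : (0 : ℝ) < ‖l‖) (by linarith) h1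
  omega

/-- NS-13a -/
theorem entry_zero_iff (hd : Discrete Γ) (P : SL2) (l : ℂ) (hl : l ≠ 0) (hl1 : 1 < ‖l‖)
    (hz : toPSL (P * dg l hl * P⁻¹) ∈ Γ) (g : SL2) (hg : toPSL g ∈ Γ) :
    (P⁻¹ * g * P).1 0 1 = 0 ↔ (P⁻¹ * g * P).1 1 0 = 0 := by
  set g' := P⁻¹ * g * P with hg'
  constructor
  · intro hb
    by_contra hc
    obtain ⟨j, k, hjk, he⟩ := conj_bounded hd P l hl hz g hg (N g'.1) (by
      intro n
      rw [← hg', Disc2.dg_pow, Disc2.dg_conj, N_eq, N_eq, hb]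
      simp only [Matrix.of_apply, Matrix.cons_val', Matrix.cons_val_zero, Matrix.cons_val_one,
        Matrix.cons_val_fin_one, mul_zero, norm_zero]
      have h1 : ‖((l ^ n) ^ 2)⁻¹ * g'.1 1 0‖ ≤ ‖g'.1 1 0‖ := by
        rw [norm_mul, norm_inv, norm_pow, norm_pow]
        apply mul_le_of_le_one_left (norm_nonneg _)
        apply inv_le_one_of_one_le₀
        apply one_le_pow₀
        exact one_le_pow₀ hl1.le
      have h2 := pow_le_pow_left₀ (norm_nonneg _) h1 2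
      linarith)
    rw [← hg', Disc2.dg_pow, Disc2.dg_pow] at he
    have h1 := congrArg (fun x : SL2 => x.1 1 0) he
    simp only [Disc2.dg_conj] at h1
    simp only [Matrix.of_apply, Matrix.cons_val', Matrix.cons_val_zero, Matrix.cons_val_one,
      Matrix.cons_val_fin_one] at h1
    have h2 := mul_right_cancel₀ hc h1
    exact hjk.ne (pow_sq_inj hl1 (inv_injective h2))
  · intro hc
    by_contra hb
    have hz' : toPSL (P * dg l⁻¹ (inv_ne_zero hl) * P⁻¹) ∈ Γ := by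
      have h1 : P * dg l⁻¹ (inv_ne_zero hl) * P⁻¹ = (P * dg l hl * P⁻¹)⁻¹ := by
        rw [← Disc2.dg_inv l hl]
        group
      rw [h1, map_inv]
      exact Γ.inv_mem hz
    obtain ⟨j, k, hjk, he⟩ := conj_bounded hd P l⁻¹ (inv_ne_zero hl) hz' g hg (N g'.1) (by
      intro n
      rw [← hg', Disc2.dg_pow, Disc2.dg_conj, N_eq, N_eq, hc]
      simp only [Matrix.of_apply, Matrix.cons_val', Matrix.cons_val_zero, Matrix.cons_val_one,
        Matrix.cons_val_fin_one, mul_zero, norm_zero]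
      have h1 : ‖((l⁻¹) ^ n) ^ 2 * g'.1 0 1‖ ≤ ‖g'.1 0 1‖ := by
        rw [norm_mul, norm_pow, norm_pow, norm_inv]
        apply mul_le_of_le_one_left (norm_nonneg _)
        apply pow_le_one₀ (by positivity)
        apply pow_le_one₀ (by positivity)
        exact inv_le_one_of_one_le₀ hl1.le
      have h2 := pow_le_pow_left₀ (norm_nonneg _) h1 2
      linarith)
    rw [← hg', Disc2.dg_pow, Disc2.dg_pow] at he
    have h1 := congrArg (fun x : SL2 => x.1 0 1) he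
    simp only [Disc2.dg_conj] at h1
    simp only [Matrix.of_apply, Matrix.cons_val', Matrix.cons_val_zero, Matrix.cons_val_one,
      Matrix.cons_val_fin_one] at h1
    have h2 := mul_right_cancel₀ hb h1
    rw [inv_pow, inv_pow, inv_pow, inv_pow] at h2
    exact hjk.ne (pow_sq_inj hl1 (inv_injective h2))

private theorem sub_inv_ne_zero {l : ℂ} (hl : l ≠ 0) (hl1 : 1 < ‖l‖) : l - l⁻¹ ≠ 0 := by
  intro h0
  have h1 : l ^ 2 = 1 := by
    field_simp at h0
    linear_combination h0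
  have h2 : ‖l‖ ^ 2 = 1 := by rw [← norm_pow, h1, norm_one]
  nlinarith

private theorem toPSL_neg_one : toPSL (-1) = 1 := (toPSL_eq_one_iff _).2 (Or.inr rfl)

private theorem false_of_antidiag (ht : ∀ g ∈ Γ, ∀ n : ℕ, 0 < n → g ^ n = 1 → g = 1) (P g : SL2)
    (hg : toPSL g ∈ Γ) (ha : (P⁻¹ * g * P).1 0 0 = 0) (hdd : (P⁻¹ * g * P).1 1 1 = 0) :
    False := by
  set g' := P⁻¹ * g * P with hg'
  have hdet := g'.2
  rw [Matrix.det_fin_two] at hdet
  have h1 : g' ^ 2 = -1 := by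
    apply Subtype.ext
    rw [pow_two, Matrix.SpecialLinearGroup.coe_mul, Matrix.SpecialLinearGroup.coe_neg,
      Matrix.SpecialLinearGroup.coe_one]
    ext i j
    fin_cases i <;> fin_cases j
    · simp [Matrix.mul_apply, Fin.sum_univ_two]
      linear_combination -hdet + (g'.1 0 0 + g'.1 1 1) * ha
    · simp [Matrix.mul_apply, Fin.sum_univ_two]
      linear_combination g'.1 0 1 * ha + g'.1 0 1 * hdd
    · simp [Matrix.mul_apply, Fin.sum_univ_two]
      linear_combination g'.1 1 0 * ha + g'.1 1 0 * hdd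
    · simp [Matrix.mul_apply, Fin.sum_univ_two]
      linear_combination -hdet + (g'.1 0 0 + g'.1 1 1) * hdd
  have hgg : g = P * g' * P⁻¹ := by rw [hg']; group
  have h2 : g ^ 2 = -1 := by
    rw [hgg, conj_pow, h1]
    apply Subtype.ext
    rw [Matrix.SpecialLinearGroup.coe_mul, Matrix.SpecialLinearGroup.coe_mul,
      Matrix.SpecialLinearGroup.coe_neg, Matrix.SpecialLinearGroup.coe_one, mul_neg, mul_one,
      neg_mul, ← Matrix.SpecialLinearGroup.coe_mul, mul_inv_cancel,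
      Matrix.SpecialLinearGroup.coe_one]
  have h3 : toPSL g = 1 := ht _ hg 2 (by norm_num) (by
    rw [← map_pow, h2, toPSL_neg_one])
  rcases (toPSL_eq_one_iff g).1 h3 with h4 | h4
  · rw [h4] at h2
    rw [one_pow] at h2
    have h5 := congrArg (fun x : SL2 => x.1 0 0) h2
    simp only [Matrix.SpecialLinearGroup.coe_neg, Matrix.SpecialLinearGroup.coe_one,
      Matrix.neg_apply, Matrix.one_apply_eq] at h5
    norm_num at h5
  · rw [h4] at h2
    have h5 := congrArg (fun x : SL2 => x.1 0 0) h2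
    rw [neg_one_sq] at h5
    simp only [Matrix.SpecialLinearGroup.coe_neg, Matrix.SpecialLinearGroup.coe_one,
      Matrix.neg_apply, Matrix.one_apply_eq] at h5
    norm_num at h5

/-- NS-13b -/
theorem entry_ne_zero (hd : Discrete Γ)
    (ht : ∀ g ∈ Γ, ∀ n : ℕ, 0 < n → g ^ n = 1 → g = 1) (P : SL2) (l : ℂ) (hl : l ≠ 0)
    (hl1 : 1 < ‖l‖) (hz : toPSL (P * dg l hl * P⁻¹) ∈ Γ) (g : SL2) (hg : toPSL g ∈ Γ) :
    (P⁻¹ * g * P).1 0 0 ≠ 0 ∧ (P⁻¹ * g * P).1 1 1 ≠ 0 := by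
  set u := g * (P * dg l hl * P⁻¹) * g⁻¹ with hu
  have huΓ : toPSL u ∈ Γ := by
    rw [hu, map_mul, map_mul, map_inv]
    exact Γ.mul_mem (Γ.mul_mem hg hz) (Γ.inv_mem hg)
  have h13 := entry_zero_iff hd P l hl hl1 hz u huΓ
  have huu : P⁻¹ * u * P = (P⁻¹ * g * P) * dg l hl * (P⁻¹ * g * P)⁻¹ := by
    rw [hu]; group
  rw [huu] at h13
  have hfin := false_of_antidiag ht P g hg
  set g' := P⁻¹ * g * P with hg'
  have hdet := g'.2
  rw [Matrix.det_fin_two] at hdet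
  have hll := sub_inv_ne_zero hl hl1
  have hval : (g' * dg l hl * g'⁻¹).1 =
      g'.1 * !![l, 0; 0, l⁻¹] * !![g'.1 1 1, -g'.1 0 1; -g'.1 1 0, g'.1 0 0] := by
    rw [Matrix.SpecialLinearGroup.coe_mul, Matrix.SpecialLinearGroup.coe_mul,
      Matrix.SpecialLinearGroup.coe_inv, Matrix.adjugate_fin_two]
    rfl
  have h01 : (g' * dg l hl * g'⁻¹).1 0 1 = -(g'.1 0 0 * g'.1 0 1 * (l - l⁻¹)) := by
    rw [hval]
    simp [Matrix.mul_apply, Fin.sum_univ_two]
    ring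
  have h10 : (g' * dg l hl * g'⁻¹).1 1 0 = g'.1 1 0 * g'.1 1 1 * (l - l⁻¹) := by
    rw [hval]
    simp [Matrix.mul_apply, Fin.sum_univ_two]
    ring
  rw [h01, h10] at h13
  have h01' : g'.1 0 0 = 0 → g'.1 1 1 = 0 := by
    intro ha
    have h1 := h13.1 (by rw [ha]; ring)
    rcases mul_eq_zero.1 h1 with h2 | h2
    · rcases mul_eq_zero.1 h2 with h3 | h3
      · rw [ha, h3] at hdet
        norm_num at hdet
      · exact h3
    · exact absurd h2 hll
  have h10' : g'.1 1 1 = 0 → g'.1 0 0 = 0 := by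
    intro ha
    have h1 := h13.2 (by rw [ha]; ring)
    rw [neg_eq_zero] at h1
    rcases mul_eq_zero.1 h1 with h2 | h2
    · rcases mul_eq_zero.1 h2 with h3 | h3
      · exact h3
      · rw [ha, h3] at hdet
        norm_num at hdet
    · exact absurd h2 hll
  exact ⟨fun h => hfin h (h01' h), fun h => hfin (h10' h) h⟩

/-- NS-13c: elements which commute with a loxodromic element -/
theorem exists_pow_eq_zpow (hd : Discrete Γ) (x : SL2) (hx : Lox x) (hxΓ : toPSL x ∈ Γ) (g : SL2)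
    (hg : toPSL g ∈ Γ) (hc : toPSL x * toPSL g = toPSL g * toPSL x) :
    ∃ p : ℕ, 0 < p ∧ ∃ q : ℤ, toPSL g ^ p = toPSL x ^ q := by
  obtain ⟨P, l, hl, hl1, hxP⟩ := exists_diag x hx
  set g' := P⁻¹ * g * P with hg'
  have hgP : g = P * g' * P⁻¹ := by rw [hg']; group
  have hdet := g'.2
  rw [Matrix.det_fin_two] at hdet
  have hll := sub_inv_ne_zero hl hl1
  have hcomm : g' * dg l hl = dg l hl * g' ∨ g' * dg l hl = -(dg l hl * g') := by
    have h1 : toPSL ((x * g)⁻¹ * (g * x)) = 1 := by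
      rw [map_mul, map_inv, map_mul, map_mul, hc, inv_mul_cancel]
    have h2 : (x * g)⁻¹ * (g * x) = P * ((dg l hl * g')⁻¹ * (g' * dg l hl)) * P⁻¹ := by
      rw [hxP, hgP]; group
    rcases (toPSL_eq_one_iff _).1 h1 with h3 | h3
    · left
      rw [h2] at h3
      have h4 : (dg l hl * g')⁻¹ * (g' * dg l hl) = 1 := by
        have h5 : (dg l hl * g')⁻¹ * (g' * dg l hl) =
            P⁻¹ * (P * ((dg l hl * g')⁻¹ * (g' * dg l hl)) * P⁻¹) * P := by group
        rw [h5, h3]; group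
      exact (inv_mul_eq_one.1 h4).symm
    · right
      rw [h2] at h3
      have h4 : (dg l hl * g')⁻¹ * (g' * dg l hl) = -1 := by
        have h5 : (dg l hl * g')⁻¹ * (g' * dg l hl) =
            P⁻¹ * (P * ((dg l hl * g')⁻¹ * (g' * dg l hl)) * P⁻¹) * P := by group
        rw [h5, h3, mul_neg, mul_one, neg_mul, inv_mul_cancel]
      rw [inv_mul_eq_iff_eq_mul] at h4
      rw [h4, mul_neg, mul_one]
  have hgD : (g' * dg l hl).1 = g'.1 * !![l, 0; 0, l⁻¹] := rfl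
  have hDg : (dg l hl * g').1 = !![l, 0; 0, l⁻¹] * g'.1 := rfl
  obtain ⟨hb, hcc⟩ : g'.1 0 1 = 0 ∧ g'.1 1 0 = 0 := by
    rcases hcomm with h1 | h1
    · have h2 := congrArg Subtype.val h1
      change (g' * dg l hl).1 = (dg l hl * g').1 at h2
      rw [hgD, hDg] at h2
      have h0 : g'.1 = !![g'.1 0 0, g'.1 0 1; g'.1 1 0, g'.1 1 1] := Matrix.eta_fin_two _
      rw [h0, Matrix.mul_fin_two, Matrix.mul_fin_two] at h2
      have h3 := congrFun (congrFun h2 0) 1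
      have h4 := congrFun (congrFun h2 1) 0
      simp only [Matrix.of_apply, Matrix.cons_val', Matrix.cons_val_zero, Matrix.cons_val_one,
        Matrix.cons_val_fin_one] at h3 h4
      constructor
      · have h5 : g'.1 0 1 * (l - l⁻¹) = 0 := by linear_combination -h3
        exact (mul_eq_zero.1 h5).resolve_right hll
      · have h5 : g'.1 1 0 * (l - l⁻¹) = 0 := by linear_combination h4
        exact (mul_eq_zero.1 h5).resolve_right hll
    · exfalso
      have h2 := congrArg Subtype.val h1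
      change (g' * dg l hl).1 = (-(dg l hl * g')).1 at h2
      rw [Matrix.SpecialLinearGroup.coe_neg, hgD, hDg] at h2
      have h0 : g'.1 = !![g'.1 0 0, g'.1 0 1; g'.1 1 0, g'.1 1 1] := Matrix.eta_fin_two _
      rw [h0, Matrix.mul_fin_two, Matrix.mul_fin_two] at h2
      have h3 := congrFun (congrFun h2 0) 1
      have h4 := congrFun (congrFun h2 0) 0
      simp only [Matrix.of_apply, Matrix.cons_val', Matrix.cons_val_zero, Matrix.cons_val_one,
        Matrix.cons_val_fin_one, Matrix.neg_apply] at h3 h4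
      have h5 : g'.1 0 0 = 0 := by
        have h6 : 2 * (g'.1 0 0 * l) = 0 := by linear_combination h4
        rcases mul_eq_zero.1 h6 with h7 | h7
        · norm_num at h7
        · exact (mul_eq_zero.1 h7).resolve_right hl
      have h6 : g'.1 0 1 * (l ^ 2 + 1) = 0 := by
        linear_combination l * h3 - g'.1 0 1 * mul_inv_cancel₀ hl
      have h8 : l ^ 2 + 1 ≠ 0 := by
        intro h0
        have h9 : l ^ 2 = -1 := by linear_combination h0
        have h10 : ‖l‖ ^ 2 = 1 := by rw [← norm_pow, h9, norm_neg, norm_one]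
        nlinarith
      have h9 := (mul_eq_zero.1 h6).resolve_right h8
      rw [h5, h9] at hdet
      norm_num at hdet
  rw [hb, zero_mul, sub_zero] at hdet
  set μ := g'.1 0 0 with hμ
  have hμ0 : μ ≠ 0 := left_ne_zero_of_mul_eq_one hdet
  have hg'dg : g' = dg μ hμ0 := by
    apply Subtype.ext
    change g'.1 = !![μ, 0; 0, μ⁻¹]
    ext i j
    fin_cases i <;> fin_cases j
    · rfl
    · exact hb
    · exact hcc
    · exact eq_inv_of_mul_eq_one_right hdet
  have hq : ∀ n : ℕ, ∃ q : ℤ, ‖μ‖ ^ n ∈ Set.Ico (‖l‖ ^ q) (‖l‖ ^ (q + 1)) := fun n =>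
    exists_mem_Ico_zpow (pow_pos (norm_pos_iff.2 hμ0) n) hl1
  choose q hq using hq
  have hval : ∀ n : ℕ, g ^ n * x ^ (-q n) =
      P * dg (μ ^ n * l ^ (-q n)) (mul_ne_zero (pow_ne_zero _ hμ0) (zpow_ne_zero _ hl)) * P⁻¹ := by
    intro n
    rw [hgP, hxP, conj_pow, conj_zpow, hg'dg, Disc2.dg_pow, Disc2.dg_zpow,
      ← Disc2.dg_mul (μ ^ n) (l ^ (-q n)) (pow_ne_zero _ hμ0) (zpow_ne_zero _ hl)]
    group
  have hlpos : 0 < ‖l‖ := norm_pos_iff.2 hl
  obtain ⟨j, k, hjk, he⟩ := exists_eq_of_bounded hd (fun n : ℕ => g ^ n * x ^ (-q n)) (by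
      intro n
      rw [map_mul, map_pow, map_zpow]
      exact Γ.mul_mem (Γ.pow_mem hg n) (Γ.zpow_mem hxΓ _))
    (N P.1 * (‖l‖ ^ 2 + 1) * N (P⁻¹).1) (by
      intro n
      simp only [hval]
      rw [Matrix.SpecialLinearGroup.coe_mul, Matrix.SpecialLinearGroup.coe_mul]
      refine (N_mul_le _ _).trans ?_
      refine mul_le_mul_of_nonneg_right ?_ (N_nonneg _)
      refine (N_mul_le _ _).trans ?_
      refine mul_le_mul_of_nonneg_left ?_ (N_nonneg _)
      obtain ⟨h1, h2⟩ := hq n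
      set ν := μ ^ n * l ^ (-q n) with hν
      have hnorm : ‖ν‖ = ‖μ‖ ^ n * (‖l‖ ^ (q n))⁻¹ := by
        rw [hν, norm_mul, norm_pow, norm_zpow, _root_.zpow_neg]
      have hpos : 0 < ‖l‖ ^ (q n) := zpow_pos hlpos _
      have h3 : 1 ≤ ‖ν‖ := by
        rw [hnorm, ← div_eq_mul_inv, one_le_div hpos]
        exact h1
      have h4 : ‖ν‖ ≤ ‖l‖ := by
        rw [hnorm, ← div_eq_mul_inv, div_le_iff₀ hpos]
        rw [zpow_add_one₀ hlpos.ne'] at h2
        linarith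
      rw [N_eq]
      change ‖ν‖ ^ 2 + ‖(0 : ℂ)‖ ^ 2 + (‖(0 : ℂ)‖ ^ 2 + ‖ν⁻¹‖ ^ 2) ≤ ‖l‖ ^ 2 + 1
      rw [norm_zero, norm_inv]
      have h5 : ‖ν‖⁻¹ ≤ 1 := inv_le_one_of_one_le₀ h3
      have h6 : 0 ≤ ‖ν‖⁻¹ := by positivity
      nlinarith)
  refine ⟨k - j, by omega, q k - q j, ?_⟩
  have hcg : Commute x g := by
    rw [commute_iff_eq, hxP, hgP, hg'dg]
    have h1 : dg l hl * dg μ hμ0 = dg μ hμ0 * dg l hl := by
      rw [Disc2.dg_mul, Disc2.dg_mul]
      simp only [mul_comm]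
    calc P * dg l hl * P⁻¹ * (P * dg μ hμ0 * P⁻¹) = P * (dg l hl * dg μ hμ0) * P⁻¹ := by group
      _ = P * (dg μ hμ0 * dg l hl) * P⁻¹ := by rw [h1]
      _ = P * dg μ hμ0 * P⁻¹ * (P * dg l hl * P⁻¹) := by group
  have he' : g ^ j * x ^ (-q j) = g ^ k * x ^ (-q k) := he
  have h1 : g ^ (k - j) = x ^ (q k - q j) := by
    have h2 : g ^ k = g ^ j * g ^ (k - j) := by
      rw [← pow_add]
      congr 1
      omega
    rw [h2, mul_assoc] at he'
    have h4 := mul_left_cancel he'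
    have h5 : g ^ (k - j) = x ^ (-q j) * (x ^ (-q k))⁻¹ := by
      rw [h4, mul_inv_cancel_right]
    rw [h5, _root_.zpow_neg, _root_.zpow_neg, inv_inv, ← _root_.zpow_neg, ← _root_.zpow_add,
      add_comm, sub_eq_add_neg]
  rw [← map_pow, ← map_zpow, h1]

end Helper85.NS
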