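import Pool.Agent.Helper85.NS.Disc2

/-!
Discrete torsion-free subgroups of `PSL₂(ℂ)`: existence of loxodromic elements.
-/

namespace Helper85.NS

open Matrix

variable {Γ : Subgroup PSL2}

namespace Disc3

theorem toPSL_neg (X : SL2) : toPSL (-X) = toPSL X := by
  have h : -X = (-1) * X := by rw [neg_one_mul]
  rw [h, map_mul, (toPSL_eq_one_iff (-1)).2 (Or.inr rfl), one_mul]

theorem eq_one_of_bounded (hd : Discrete Γ)
    (ht : ∀ g ∈ Γ, ∀ n : ℕ, 0 < n → g ^ n = 1 → g = 1) (x : SL2) (hx : toPSL x ∈ Γ) (C : ℝ)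
    (hC : ∀ n : ℕ, N (x ^ n).1 ≤ C) : toPSL x = 1 := by
  obtain ⟨j, l, hjl, h⟩ := exists_eq_of_bounded hd (fun n => x ^ n)
    (fun n => by rw [map_pow]; exact Γ.pow_mem hx n) C hC
  have h1 : x ^ j = x ^ l := h
  have h2 : x ^ (l - j) = 1 := by
    have h3 : x ^ j * x ^ (l - j) = x ^ j * 1 := by
      rw [← pow_add, mul_one, Nat.add_sub_cancel' hjl.le, h1]
    exact mul_left_cancel h3
  exact ht _ hx (l - j) (Nat.sub_pos_of_lt hjl) (by rw [← map_pow, h2, map_one])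

theorem trace_eq (hd : Discrete Γ)
    (ht : ∀ g ∈ Γ, ∀ n : ℕ, 0 < n → g ^ n = 1 → g = 1) (x : SL2) (hx : toPSL x ∈ Γ)
    (hx1 : toPSL x ≠ 1) (hnl : ¬ Lox x) : x.1.trace = 2 ∨ x.1.trace = -2 := by
  obtain ⟨t, ht2, htr⟩ := not_not.1 hnl
  rcases lt_or_eq_of_le ht2 with h | h
  · obtain ⟨C, hC⟩ := N_pow_le_of_lt x t h htr
    exact absurd (eq_one_of_bounded hd ht x hx C hC) hx1
  · rcases (abs_eq (by norm_num : (0 : ℝ) ≤ 2)).1 h with h | h
    · left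
      rw [htr, h]
      norm_num
    · right
      rw [htr, h]
      norm_num

theorem det_eq (X : SL2) : X.1 0 0 * X.1 1 1 - X.1 0 1 * X.1 1 0 = 1 := by
  rw [← det_fin_two]
  exact X.2

theorem mul_self (X : SL2) (h : X.1.trace = 2) : X.1 * X.1 = X.1 + (X.1 - 1) := by
  have hd := det_eq X
  rw [trace_fin_two] at h
  ext i j
  fin_cases i <;> fin_cases j <;>
    simp only [Matrix.mul_apply, Fin.sum_univ_two, Matrix.add_apply, Matrix.sub_apply, Fin.zero_eta,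
      Fin.mk_one, Fin.isValue, Matrix.one_apply_eq, ne_eq, one_ne_zero, not_false_eq_true,
      Matrix.one_apply_ne, zero_ne_one]
  · linear_combination X.1 0 0 * h - hd
  · linear_combination X.1 0 1 * h
  · linear_combination X.1 1 0 * h
  · linear_combination X.1 1 1 * h - hd

theorem pow_eq (X : SL2) (h : X.1.trace = 2) (n : ℕ) :
    (X ^ n).1 = 1 + (n : ℂ) • (X.1 - 1) := by
  induction n with
  | zero => simp
  | succ n ih =>
    have h1 : (X ^ (n + 1)).1 = (X ^ n).1 * X.1 := by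
      rw [pow_succ]
      rfl
    have h2 := mul_self X h
    rw [h1, ih, add_mul, one_mul, smul_mul_assoc, sub_mul, one_mul, h2, add_sub_cancel_left]
    push_cast
    rw [add_smul, one_smul]
    abel

theorem trace_pow_mul (X Y : SL2) (h : X.1.trace = 2) (n : ℕ) :
    (X ^ n * Y).1.trace = Y.1.trace + n * ((X.1 * Y.1).trace - Y.1.trace) := by
  have h1 : (X ^ n * Y).1 = (X ^ n).1 * Y.1 := rfl
  rw [h1, pow_eq X h, add_mul, one_mul, smul_mul_assoc, sub_mul, one_mul, trace_add, trace_smul,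
    trace_sub, smul_eq_mul]

theorem comm_of_trace (X Y : SL2) (hX : X.1.trace = 2) (hY : Y.1.trace = 2)
    (hXY : (X.1 * Y.1).trace = 2) : X * Y = Y * X := by
  have hdX := det_eq X
  have hdY := det_eq Y
  rw [trace_fin_two] at hX hY
  rw [trace_fin_two, Matrix.mul_apply, Matrix.mul_apply, Fin.sum_univ_two, Fin.sum_univ_two] at hXY
  obtain ⟨b, hb⟩ : ∃ b, b = X.1 0 1 := ⟨_, rfl⟩
  obtain ⟨c, hc⟩ : ∃ c, c = X.1 1 0 := ⟨_, rfl⟩
  obtain ⟨e, he⟩ : ∃ e, e = Y.1 0 1 := ⟨_, rfl⟩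
  obtain ⟨f, hf⟩ : ∃ f, f = Y.1 1 0 := ⟨_, rfl⟩
  obtain ⟨a, ha⟩ : ∃ a, a = X.1 0 0 - 1 := ⟨_, rfl⟩
  obtain ⟨d, hd⟩ : ∃ d, d = Y.1 0 0 - 1 := ⟨_, rfl⟩
  have hX0 : X.1 0 0 = 1 + a := by rw [ha]; ring
  have hX1 : X.1 1 1 = 1 - a := by rw [ha]; linear_combination hX
  have hY0 : Y.1 0 0 = 1 + d := by rw [hd]; ring
  have hY1 : Y.1 1 1 = 1 - d := by rw [hd]; linear_combination hY
  rw [hX0, hX1, ← hb, ← hc] at hdX
  rw [hY0, hY1, ← he, ← hf] at hdY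
  rw [hX0, hX1, hY0, hY1, ← hb, ← hc, ← he, ← hf] at hXY
  have h1 : a ^ 2 = -(b * c) := by linear_combination -hdX
  have h2 : d ^ 2 = -(e * f) := by linear_combination -hdY
  have h3 : 2 * (a * d) = -(b * f + c * e) := by linear_combination hXY
  have h4 : b * f = c * e := by
    have : (b * f - c * e) ^ 2 = 0 := by
      have h5 : (2 * (a * d)) ^ 2 = (b * f + c * e) ^ 2 := by rw [h3]; ring
      have h6 : (2 * (a * d)) ^ 2 = 4 * (b * c) * (e * f) := by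
        linear_combination 4 * d ^ 2 * h1 - 4 * (b * c) * h2
      linear_combination h6 - h5
    exact sub_eq_zero.1 (pow_eq_zero_iff two_ne_zero |>.1 this)
  have h5 : a * d = -(c * e) := by linear_combination h3 / 2 - h4 / 2
  have h6 : a * e = b * d := by
    have : (a * e - b * d) ^ 2 = 0 := by
      linear_combination e ^ 2 * h1 + b ^ 2 * h2 - 2 * b * e * h5 - b * e * h4
    exact sub_eq_zero.1 (pow_eq_zero_iff two_ne_zero |>.1 this)
  have h7 : c * d = a * f := by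
    have : (c * d - a * f) ^ 2 = 0 := by
      linear_combination c ^ 2 * h2 + f ^ 2 * h1 - 2 * c * f * h5 - c * f * h4
    exact sub_eq_zero.1 (pow_eq_zero_iff two_ne_zero |>.1 this)
  apply Subtype.ext
  show X.1 * Y.1 = Y.1 * X.1
  ext i j
  fin_cases i <;> fin_cases j <;>
    simp only [Matrix.mul_apply, Fin.sum_univ_two, Fin.zero_eta, Fin.mk_one, Fin.isValue, hX0, hX1,
      hY0, hY1, ← hb, ← hc, ← he, ← hf]
  · linear_combination h4
  · linear_combination 2 * h6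
  · linear_combination 2 * h7
  · linear_combination -h4

theorem exists_trace_two (hd : Discrete Γ)
    (ht : ∀ g ∈ Γ, ∀ n : ℕ, 0 < n → g ^ n = 1 → g = 1) (hno : ∀ x : SL2, toPSL x ∈ Γ → ¬ Lox x)
    (g : PSL2) (hg : g ∈ Γ) (hg1 : g ≠ 1) : ∃ X : SL2, toPSL X = g ∧ X.1.trace = 2 := by
  obtain ⟨X, rfl⟩ : ∃ X, toPSL X = g := QuotientGroup.mk'_surjective _ g
  rcases trace_eq hd ht X hg hg1 (hno X hg) with h | h
  · exact ⟨X, rfl, h⟩
  · refine ⟨-X, toPSL_neg X, ?_⟩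
    have : (-X).1 = -X.1 := rfl
    rw [this, trace_neg, h, neg_neg]

end Disc3

open Disc3

/-- NS-14a -/
theorem exists_lox (hd : Discrete Γ) (ht : ∀ g ∈ Γ, ∀ n : ℕ, 0 < n → g ^ n = 1 → g = 1)
    (hna : ∃ g ∈ Γ, ∃ h ∈ Γ, g * h ≠ h * g) : ∃ x : SL2, toPSL x ∈ Γ ∧ Lox x := by
  by_contra hcon
  push Not at hcon
  obtain ⟨g, hg, h, hh, hne⟩ := hna
  have hg1 : g ≠ 1 := by
    rintro rfl
    exact hne (by rw [one_mul, mul_one])
  have hh1 : h ≠ 1 := by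
    rintro rfl
    exact hne (by rw [one_mul, mul_one])
  obtain ⟨X, rfl, hX⟩ := exists_trace_two hd ht hcon g hg hg1
  obtain ⟨Y, rfl, hY⟩ := exists_trace_two hd ht hcon h hh hh1
  apply hne
  rw [← map_mul, ← map_mul, comm_of_trace X Y hX hY ?_]
  -- the trace of `X ^ n * Y` is bounded
  set τ : ℂ := (X.1 * Y.1).trace - 2 with hτ
  have h1 : ∀ n : ℕ, ‖(n : ℂ) * τ‖ ≤ 4 := by
    intro n
    have h2 : toPSL (X ^ n * Y) ∈ Γ := by
      rw [map_mul, map_pow]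
      exact Γ.mul_mem (Γ.pow_mem hg n) hh
    obtain ⟨t, ht2, htr⟩ := not_not.1 (hcon _ h2)
    have h3 : (X ^ n * Y).1.trace = 2 + n * τ := by
      rw [trace_pow_mul X Y hX n, hY]
    have h4 : (n : ℂ) * τ = (t : ℂ) - 2 := by
      rw [← htr, h3]
      ring
    rw [h4]
    calc ‖(t : ℂ) - 2‖ ≤ ‖(t : ℂ)‖ + ‖(2 : ℂ)‖ := norm_sub_le _ _
      _ ≤ 2 + 2 := by
        apply add_le_add
        · rw [Complex.norm_real]
          exact ht2
        · norm_num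
      _ = 4 := by norm_num
  have h2 : τ = 0 := by
    by_contra hne
    obtain ⟨n, hn⟩ := exists_nat_gt (4 / ‖τ‖)
    have h3 := h1 n
    rw [norm_mul, Complex.norm_natCast] at h3
    rw [div_lt_iff₀ (norm_pos_iff.2 hne)] at hn
    linarith
  rw [hτ, sub_eq_zero] at h2
  exact h2

namespace Disc3

theorem dg_pow (l : ℂ) (hl : l ≠ 0) (k : ℕ) :
    ((dg l hl) ^ k).1 = !![l ^ k, 0; 0, (l⁻¹) ^ k] := by
  induction k with
  | zero =>
    simp only [pow_zero]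
    exact Matrix.one_fin_two
  | succ k ih =>
    have h1 : ((dg l hl) ^ (k + 1)).1 = ((dg l hl) ^ k).1 * (dg l hl).1 := by
      rw [pow_succ]
      rfl
    have h2 : (dg l hl).1 = !![l, 0; 0, l⁻¹] := rfl
    rw [h1, ih, h2, Matrix.mul_fin_two]
    simp [pow_succ]

theorem trace_comm (l : ℂ) (hl : l ≠ 0) (k : ℕ) (m : SL2) :
    ((dg l hl) ^ k * m * ((dg l hl) ^ k)⁻¹ * m⁻¹).1.trace =
      2 * (m.1 0 0 * m.1 1 1) - m.1 0 1 * m.1 1 0 * ((l ^ k) ^ 2 + ((l⁻¹) ^ k) ^ 2) := by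
  have h1 : ((dg l hl) ^ k * m * ((dg l hl) ^ k)⁻¹ * m⁻¹).1 =
      ((dg l hl) ^ k).1 * m.1 * (((dg l hl) ^ k)⁻¹).1 * (m⁻¹).1 := rfl
  have h2 : (((dg l hl) ^ k)⁻¹).1 = !![(l⁻¹) ^ k, 0; 0, l ^ k] := by
    have : (((dg l hl) ^ k)⁻¹).1 = adjugate ((dg l hl) ^ k).1 := rfl
    rw [this, dg_pow, Matrix.adjugate_fin_two_of]
    simp
  have h3 : (m⁻¹).1 = !![m.1 1 1, -m.1 0 1; -m.1 1 0, m.1 0 0] := by
    have : (m⁻¹).1 = adjugate m.1 := rfl
    rw [this, Matrix.adjugate_fin_two]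
  have h4 : m.1 = !![m.1 0 0, m.1 0 1; m.1 1 0, m.1 1 1] := Matrix.eta_fin_two m.1
  have h5 : l ^ k * (l⁻¹) ^ k = 1 := by
    rw [← mul_pow, mul_inv_cancel₀ hl, one_pow]
  rw [h1, h2, h3, dg_pow]
  rw [h4, Matrix.mul_fin_two, Matrix.mul_fin_two, Matrix.mul_fin_two, Matrix.trace_fin_two_of]
  simp only [Matrix.of_apply, Matrix.cons_val', Matrix.cons_val_zero, Matrix.cons_val_one,
    Matrix.cons_val_fin_one]
  linear_combination (2 * (m.1 0 0 * m.1 1 1)) * h5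

end Disc3

/-- NS-14b -/
theorem exists_lox_normal (hd : Discrete Γ)
    (ht : ∀ g ∈ Γ, ∀ n : ℕ, 0 < n → g ^ n = 1 → g = 1)
    (hna : ∃ g ∈ Γ, ∃ h ∈ Γ, g * h ≠ h * g) (M : Subgroup PSL2) (hM : M ≤ Γ)
    (hn : ∀ g ∈ Γ, ∀ m ∈ M, g * m * g⁻¹ ∈ M) (h1 : M ≠ ⊥) : ∃ x : SL2, toPSL x ∈ M ∧ Lox x := by
  obtain ⟨x, hx, hxl⟩ := exists_lox hd ht hna
  obtain ⟨P, l, hl, hl1, hxP⟩ := exists_diag x hxl
  obtain ⟨⟨μ, hμM⟩, hμ1'⟩ := Subgroup.ne_bot_iff_exists_ne_one.1 h1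
  have hμ1 : μ ≠ 1 := fun h => hμ1' (Subtype.ext h)
  obtain ⟨m, rfl⟩ : ∃ m, toPSL m = μ := QuotientGroup.mk'_surjective _ μ
  by_cases hml : Lox m
  · exact ⟨m, hμM, hml⟩
  have hz : toPSL (P * dg l hl * P⁻¹) ∈ Γ := by rw [← hxP]; exact hx
  have hiff := entry_zero_iff hd P l hl hl1 hz m (hM hμM)
  set m' : SL2 := P⁻¹ * m * P with hm'
  have hmm : m = P * m' * P⁻¹ := by rw [hm']; group
  have htr : m'.1.trace = m.1.trace := by
    have h2 : m'.1 = (P⁻¹).1 * m.1 * P.1 := rfl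
    have h3 : P.1 * (P⁻¹).1 = 1 := by
      have : (P * P⁻¹).1 = (1 : SL2).1 := by rw [mul_inv_cancel]
      exact this
    rw [h2, Matrix.trace_mul_comm, ← mul_assoc, h3, one_mul]
  have hdet := det_eq m'
  by_cases hb : m'.1 0 1 = 0
  · -- `m'` is diagonal
    exfalso
    have hc := hiff.1 hb
    rw [hb, zero_mul, sub_zero] at hdet
    have h2 : ∀ ε : ℂ, ε * ε = 1 → m'.1.trace = 2 * ε → m'.1 0 0 = ε ∧ m'.1 1 1 = ε := by
      intro ε hε htr'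
      rw [trace_fin_two] at htr'
      have h3 : (m'.1 0 0 - ε) ^ 2 = 0 := by
        linear_combination m'.1 0 0 * htr' - hdet + hε
      have h4 : m'.1 0 0 = ε := sub_eq_zero.1 (pow_eq_zero_iff two_ne_zero |>.1 h3)
      refine ⟨h4, ?_⟩
      rw [h4] at htr'
      linear_combination htr'
    rcases trace_eq hd ht m (hM hμM) hμ1 hml with h | h
    · obtain ⟨h3, h4⟩ := h2 1 (by ring) (by rw [htr, h]; ring)
      apply hμ1
      have h5 : m' = 1 := by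
        apply Subtype.ext
        show m'.1 = 1
        rw [Matrix.eta_fin_two m'.1, h3, h4, hb, hc, Matrix.one_fin_two]
      rw [hmm, h5, mul_one, mul_inv_cancel, map_one]
    · obtain ⟨h3, h4⟩ := h2 (-1) (by ring) (by rw [htr, h]; ring)
      apply hμ1
      have h5 : m' = -1 := by
        apply Subtype.ext
        show m'.1 = -1
        rw [Matrix.eta_fin_two m'.1, h3, h4, hb, hc, Matrix.one_fin_two]
        simp
      rw [hmm, h5, mul_neg, mul_one, neg_mul, mul_inv_cancel, toPSL_neg, map_one]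
  · have hc : m'.1 1 0 ≠ 0 := fun h => hb (hiff.2 h)
    set κ : ℂ := m'.1 0 1 * m'.1 1 0 with hκ
    have hκ0 : 0 < ‖κ‖ := norm_pos_iff.2 (mul_ne_zero hb hc)
    obtain ⟨k, hk⟩ := ((tendsto_pow_atTop_atTop_of_one_lt hl1).eventually_gt_atTop
      ((2 + 2 * ‖m'.1 0 0 * m'.1 1 1‖) / ‖κ‖ + 1)).exists
    refine ⟨x ^ k * m * (x ^ k)⁻¹ * m⁻¹, ?_, ?_⟩
    · rw [map_mul, map_mul, map_mul, map_inv, map_inv, map_pow]
      exact M.mul_mem (hn _ (Γ.pow_mem hx k) _ hμM) (M.inv_mem hμM)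
    · rintro ⟨t, ht2, htr2⟩
      have h2 : x ^ k * m * (x ^ k)⁻¹ * m⁻¹ =
          P * ((dg l hl) ^ k * m' * ((dg l hl) ^ k)⁻¹ * m'⁻¹) * P⁻¹ := by
        have h3 : x ^ k = P * (dg l hl) ^ k * P⁻¹ := by
          rw [hxP, conj_pow]
        rw [h3, hm']
        group
      have h3 : (x ^ k * m * (x ^ k)⁻¹ * m⁻¹).1.trace =
          ((dg l hl) ^ k * m' * ((dg l hl) ^ k)⁻¹ * m'⁻¹).1.trace := by
        rw [h2]
        generalize (dg l hl) ^ k * m' * ((dg l hl) ^ k)⁻¹ * m'⁻¹ = Z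
        have h4 : (P * Z * P⁻¹).1 = P.1 * Z.1 * (P⁻¹).1 := rfl
        have h5 : (P⁻¹).1 * P.1 = 1 := by
          have : (P⁻¹ * P).1 = (1 : SL2).1 := by rw [inv_mul_cancel]
          exact this
        rw [h4, Matrix.trace_mul_comm, ← mul_assoc, h5, one_mul]
      rw [h3, trace_comm] at htr2
      -- norms
      have h4 : ‖κ‖ * ‖(l ^ k) ^ 2 + ((l⁻¹) ^ k) ^ 2‖ ≤ 2 + 2 * ‖m'.1 0 0 * m'.1 1 1‖ := by
        rw [← norm_mul]
        have h5 : κ * ((l ^ k) ^ 2 + ((l⁻¹) ^ k) ^ 2) = 2 * (m'.1 0 0 * m'.1 1 1) - t := by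
          rw [← htr2]
          ring
        rw [h5]
        calc ‖2 * (m'.1 0 0 * m'.1 1 1) - (t : ℂ)‖
            ≤ ‖2 * (m'.1 0 0 * m'.1 1 1)‖ + ‖(t : ℂ)‖ := norm_sub_le _ _
          _ ≤ 2 * ‖m'.1 0 0 * m'.1 1 1‖ + 2 := by
            apply add_le_add
            · rw [norm_mul]
              norm_num
            · rw [Complex.norm_real]
              exact ht2
          _ = _ := by ring
      have h5 : ‖l‖ ^ k - 1 ≤ ‖(l ^ k) ^ 2 + ((l⁻¹) ^ k) ^ 2‖ := by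
        have h6 : ‖((l⁻¹) ^ k) ^ 2‖ ≤ 1 := by
          rw [norm_pow, norm_pow, norm_inv]
          exact pow_le_one₀ (by positivity) (pow_le_one₀ (by positivity) (inv_le_one_of_one_le₀ hl1.le))
        have h7 : ‖l‖ ^ k ≤ ‖(l ^ k) ^ 2‖ := by
          rw [norm_pow, norm_pow]
          have : 1 ≤ ‖l‖ ^ k := one_le_pow₀ hl1.le
          nlinarith
        have h8 : ‖(l ^ k) ^ 2‖ ≤ ‖(l ^ k) ^ 2 + ((l⁻¹) ^ k) ^ 2‖ + ‖((l⁻¹) ^ k) ^ 2‖ := by
          have := norm_sub_le ((l ^ k) ^ 2 + ((l⁻¹) ^ k) ^ 2) (((l⁻¹) ^ k) ^ 2)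
          rwa [add_sub_cancel_right] at this
        linarith
      have h6 : (2 + 2 * ‖m'.1 0 0 * m'.1 1 1‖) / ‖κ‖ < ‖l‖ ^ k - 1 := by linarith
      rw [div_lt_iff₀ hκ0] at h6
      nlinarith

end Helper85.NS
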