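import Pool.Agent.Helper85.NS.Disc2

/-!
Discrete torsion-free subgroups of `PSL₂(ℂ)`: choice of conjugators.
-/

namespace Helper85.NS

open Matrix

namespace Disc4

/-- the matrices of `Γ` which are diagonal in the basis `P` -/
def E (Γ : Subgroup PSL2) (P : SL2) : Subgroup SL2 where
  carrier := {u | toPSL u ∈ Γ ∧ (P⁻¹ * u * P).1 0 1 = 0 ∧ (P⁻¹ * u * P).1 1 0 = 0}
  one_mem' := by
    refine ⟨by rw [map_one]; exact Γ.one_mem, ?_, ?_⟩ <;>
    · rw [mul_one, inv_mul_cancel]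
      simp
  mul_mem' := by
    rintro u v ⟨hu, hu1, hu2⟩ ⟨hv, hv1, hv2⟩
    have h : P⁻¹ * (u * v) * P = (P⁻¹ * u * P) * (P⁻¹ * v * P) := by group
    have h' : ∀ i j, (P⁻¹ * (u * v) * P).1 i j =
        (P⁻¹ * u * P).1 i 0 * (P⁻¹ * v * P).1 0 j + (P⁻¹ * u * P).1 i 1 * (P⁻¹ * v * P).1 1 j := by
      intro i j
      rw [h]
      show ((P⁻¹ * u * P).1 * (P⁻¹ * v * P).1) i j = _
      rw [Matrix.mul_apply, Fin.sum_univ_two]
    refine ⟨by rw [map_mul]; exact Γ.mul_mem hu hv, ?_, ?_⟩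
    · rw [h', hu1, hv1]
      ring
    · rw [h', hu2, hv2]
      ring
  inv_mem' := by
    rintro u ⟨hu, hu1, hu2⟩
    have h : P⁻¹ * u⁻¹ * P = (P⁻¹ * u * P)⁻¹ := by group
    have h' : (P⁻¹ * u⁻¹ * P).1 = adjugate (P⁻¹ * u * P).1 := by
      rw [h]
      rfl
    refine ⟨by rw [map_inv]; exact Γ.inv_mem hu, ?_, ?_⟩
    · rw [h', Matrix.adjugate_fin_two]
      simp [hu1]
    · rw [h', Matrix.adjugate_fin_two]
      simp [hu2]

theorem mem_E {Γ : Subgroup PSL2} {P u : SL2} : u ∈ E Γ P ↔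
    toPSL u ∈ Γ ∧ (P⁻¹ * u * P).1 0 1 = 0 ∧ (P⁻¹ * u * P).1 1 0 = 0 := Iff.rfl

theorem dg_pow' (l : ℂ) (hl : l ≠ 0) (k : ℕ) :
    ((dg l hl) ^ k).1 = !![l ^ k, 0; 0, (l⁻¹) ^ k] := by
  induction k with
  | zero =>
    simp only [pow_zero]
    exact Matrix.one_fin_two
  | succ k ih =>
    have h1 : ((dg l hl) ^ (k + 1)).1 = ((dg l hl) ^ k).1 * (dg l hl).1 := by
      rw [pow_succ]
      rfl
    have h2 : (dg l hl).1 = !![l, 0; 0, l⁻¹] := rfl
    rw [h1, ih, h2, Matrix.mul_fin_two]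
    simp [pow_succ]

theorem entry (l : ℂ) (hl : l ≠ 0) (k : ℕ) (u : SL2) :
    (u⁻¹ * (dg l hl) ^ k * u).1 0 1 = u.1 0 1 * u.1 1 1 * (l ^ k - (l⁻¹) ^ k) := by
  have h1 : (u⁻¹ * (dg l hl) ^ k * u).1 = (u⁻¹).1 * ((dg l hl) ^ k).1 * u.1 := rfl
  have h3 : (u⁻¹).1 = !![u.1 1 1, -u.1 0 1; -u.1 1 0, u.1 0 0] := by
    have : (u⁻¹).1 = adjugate u.1 := rfl
    rw [this, Matrix.adjugate_fin_two]
  have h4 : u.1 = !![u.1 0 0, u.1 0 1; u.1 1 0, u.1 1 1] := Matrix.eta_fin_two u.1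
  rw [h1, h3, dg_pow']
  rw [h4, Matrix.mul_fin_two, Matrix.mul_fin_two]
  simp only [Matrix.of_apply, Matrix.cons_val', Matrix.cons_val_zero, Matrix.cons_val_one,
    Matrix.cons_val_fin_one]
  ring

end Disc4

open Disc4

/-- NS-14c -/
theorem exists_conj {Γ : Subgroup PSL2} (hd : Discrete Γ)
    (ht : ∀ g ∈ Γ, ∀ n : ℕ, 0 < n → g ^ n = 1 → g = 1)
    (hna : ∃ g ∈ Γ, ∃ h ∈ Γ, g * h ≠ h * g) (P : SL2) (l : ℂ) (hl : l ≠ 0) (hl1 : 1 < ‖l‖)
    (hz : toPSL (P * dg l hl * P⁻¹) ∈ Γ) (r : ℕ) (g : Fin r → SL2)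
    (hg : ∀ i, toPSL (g i) ∈ Γ) :
    ∃ h : Fin r → SL2, (∀ i, toPSL (h i) ∈ Γ) ∧
      (∀ i j, i ≠ j → (P⁻¹ * ((h i)⁻¹ * h j) * P).1 0 1 ≠ 0) ∧
      (∀ i j, i ≠ j → (P⁻¹ * ((g i * h i)⁻¹ * (g j * h j)) * P).1 1 0 ≠ 0) := by
  have hE1 : ∀ u : SL2, toPSL u ∈ Γ → (P⁻¹ * u * P).1 0 1 = 0 → u ∈ E Γ P := fun u hu h =>
    ⟨hu, h, (entry_zero_iff hd P l hl hl1 hz u hu).1 h⟩
  have hE2 : ∀ u : SL2, toPSL u ∈ Γ → (P⁻¹ * u * P).1 1 0 = 0 → u ∈ E Γ P := fun u hu h =>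
    ⟨hu, (entry_zero_iff hd P l hl hl1 hz u hu).2 h, h⟩
  -- an element outside `E`
  obtain ⟨u, hu, huE⟩ : ∃ u : SL2, toPSL u ∈ Γ ∧ u ∉ E Γ P := by
    by_contra hcon
    push Not at hcon
    obtain ⟨a, ha, b, hb, hab⟩ := hna
    obtain ⟨a, rfl⟩ : ∃ x, toPSL x = a := QuotientGroup.mk'_surjective _ a
    obtain ⟨b, rfl⟩ : ∃ x, toPSL x = b := QuotientGroup.mk'_surjective _ b
    apply hab
    rw [← map_mul, ← map_mul]
    congr 1
    have h1 : a = P * (P⁻¹ * a * P) * P⁻¹ := by group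
    have h2 : b = P * (P⁻¹ * b * P) * P⁻¹ := by group
    obtain ⟨-, ha1, ha2⟩ := hcon a ha
    obtain ⟨-, hb1, hb2⟩ := hcon b hb
    have h3 : (P⁻¹ * a * P) * (P⁻¹ * b * P) = (P⁻¹ * b * P) * (P⁻¹ * a * P) := by
      apply Subtype.ext
      show (P⁻¹ * a * P).1 * (P⁻¹ * b * P).1 = (P⁻¹ * b * P).1 * (P⁻¹ * a * P).1
      ext i j
      fin_cases i <;> fin_cases j <;>
        simp only [Matrix.mul_apply, Fin.sum_univ_two, Fin.zero_eta, Fin.mk_one, Fin.isValue, ha1,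
          ha2, hb1, hb2] <;> ring
    have h4 : P * ((P⁻¹ * a * P) * (P⁻¹ * b * P)) * P⁻¹ = a * b := by group
    have h5 : P * ((P⁻¹ * b * P) * (P⁻¹ * a * P)) * P⁻¹ = b * a := by group
    rw [← h4, ← h5, h3]
  set z : SL2 := P * dg l hl * P⁻¹ with hzdef
  have hzu : ∀ k : ℕ, 0 < k → u⁻¹ * z ^ k * u ∉ E Γ P := by
    rintro k hk ⟨-, h1, -⟩
    have h2 : P⁻¹ * (u⁻¹ * z ^ k * u) * P =
        (P⁻¹ * u * P)⁻¹ * (dg l hl) ^ k * (P⁻¹ * u * P) := by
      rw [hzdef, conj_pow]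
      group
    rw [h2, entry] at h1
    have h3 : (P⁻¹ * u * P).1 0 1 ≠ 0 := fun h => huE (hE1 u hu h)
    have h4 := (entry_ne_zero hd ht P l hl hl1 hz u hu).2
    have h5 : l ^ k - (l⁻¹) ^ k ≠ 0 := by
      intro h6
      rw [sub_eq_zero] at h6
      have h7 := congrArg norm h6
      rw [norm_pow, norm_pow, norm_inv] at h7
      have h8 : 1 < ‖l‖ ^ k := one_lt_pow₀ hl1 hk.ne'
      have h9 : (‖l‖⁻¹) ^ k ≤ 1 := pow_le_one₀ (by positivity) (inv_le_one_of_one_le₀ hl1.le)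
      linarith
    exact mul_ne_zero (mul_ne_zero h3 h4) h5 h1
  -- the sequence of representatives
  have hinj : ∀ n m : ℕ, (z ^ n * u)⁻¹ * (z ^ m * u) ∈ E Γ P → n = m := by
    intro n m h
    rcases lt_trichotomy n m with hnm | hnm | hnm
    · exfalso
      apply hzu (m - n) (by omega)
      have : u⁻¹ * z ^ (m - n) * u = (z ^ n * u)⁻¹ * (z ^ m * u) := by
        have h3 : z ^ m = z ^ n * z ^ (m - n) := by
          rw [← pow_add, Nat.add_sub_cancel' hnm.le]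
        rw [h3]
        group
      rw [this]
      exact h
    · exact hnm
    · exfalso
      apply hzu (n - m) (by omega)
      have : u⁻¹ * z ^ (n - m) * u = ((z ^ n * u)⁻¹ * (z ^ m * u))⁻¹ := by
        have h3 : z ^ n = z ^ m * z ^ (n - m) := by
          rw [← pow_add, Nat.add_sub_cancel' hnm.le]
        rw [h3]
        group
      rw [this]
      exact (E Γ P).inv_mem h
  have hcΓ : ∀ n : ℕ, toPSL (z ^ n * u) ∈ Γ := by
    intro n
    rw [map_mul, map_pow]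
    exact Γ.mul_mem (Γ.pow_mem hz n) hu
  have hfin : ∀ x : SL2, {n : ℕ | x⁻¹ * (z ^ n * u) ∈ E Γ P}.Finite := by
    intro x
    apply Set.Subsingleton.finite
    intro n hn m hm
    apply hinj
    have h1 := (E Γ P).mul_mem ((E Γ P).inv_mem hn) hm
    have h2 : (x⁻¹ * (z ^ n * u))⁻¹ * (x⁻¹ * (z ^ m * u)) = (z ^ n * u)⁻¹ * (z ^ m * u) := by group
    rwa [h2] at h1
  -- successive choice
  have hstep : ∀ s : ℕ, s ≤ r → ∃ h : Fin r → SL2, (∀ i, toPSL (h i) ∈ Γ) ∧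
      ∀ i j : Fin r, i < j → j.val < s → (h i)⁻¹ * h j ∉ E Γ P ∧
        (g i * h i)⁻¹ * (g j * h j) ∉ E Γ P := by
    intro s
    induction s with
    | zero =>
      intro _
      exact ⟨fun _ => 1, fun _ => by rw [map_one]; exact Γ.one_mem, fun i j _ hj => absurd hj (by omega)⟩
    | succ s ih =>
      intro hs
      obtain ⟨h, hh, hcond⟩ := ih (by omega)
      have hfin2 : (⋃ i : Fin r, ({n : ℕ | (h i)⁻¹ * (z ^ n * u) ∈ E Γ P} ∪
          {n : ℕ | ((g ⟨s, hs⟩)⁻¹ * (g i * h i))⁻¹ * (z ^ n * u) ∈ E Γ P})).Finite :=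
        Set.finite_iUnion fun i => (hfin _).union (hfin _)
      obtain ⟨n, hn⟩ := hfin2.exists_notMem
      simp only [Set.mem_iUnion, Set.mem_union, Set.mem_ofPred_eq, not_exists, not_or] at hn
      refine ⟨Function.update h ⟨s, hs⟩ (z ^ n * u), ?_, ?_⟩
      · intro i
        by_cases hi : i = ⟨s, hs⟩
        · rw [hi, Function.update_self]
          exact hcΓ n
        · rw [Function.update_of_ne hi]
          exact hh i
      · intro i j hij hj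
        by_cases hjs : j = ⟨s, hs⟩
        · have hi : i ≠ ⟨s, hs⟩ := by rw [← hjs]; exact hij.ne
          rw [hjs, Function.update_self, Function.update_of_ne hi]
          refine ⟨(hn i).1, ?_⟩
          have h2 := (hn i).2
          have h3 : ((g ⟨s, hs⟩)⁻¹ * (g i * h i))⁻¹ * (z ^ n * u) =
              (g i * h i)⁻¹ * (g ⟨s, hs⟩ * (z ^ n * u)) := by group
          rwa [h3] at h2
        · have hjs' : j.val < s := by
            have : j.val ≠ s := fun h => hjs (Fin.ext h)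
            omega
          have hi : i ≠ ⟨s, hs⟩ := by
            intro h
            rw [h, Fin.lt_def] at hij
            simp only at hij
            omega
          rw [Function.update_of_ne hi, Function.update_of_ne hjs]
          exact hcond i j hij hjs'
  obtain ⟨h, hh, hcond⟩ := hstep r le_rfl
  have hcond' : ∀ i j : Fin r, i ≠ j → (h i)⁻¹ * h j ∉ E Γ P ∧
      (g i * h i)⁻¹ * (g j * h j) ∉ E Γ P := by
    intro i j hij
    rcases lt_or_gt_of_ne hij with h1 | h1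
    · exact hcond i j h1 j.2
    · obtain ⟨h2, h3⟩ := hcond j i h1 i.2
      constructor
      · intro h4
        apply h2
        have := (E Γ P).inv_mem h4
        rwa [_root_.mul_inv_rev, inv_inv] at this
      · intro h4
        apply h3
        have := (E Γ P).inv_mem h4
        rwa [_root_.mul_inv_rev, inv_inv] at this
  refine ⟨h, hh, ?_, ?_⟩
  · intro i j hij h1
    apply (hcond' i j hij).1
    apply hE1 _ ?_ h1
    rw [map_mul, map_inv]
    exact Γ.mul_mem (Γ.inv_mem (hh i)) (hh j)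
  · intro i j hij h1
    apply (hcond' i j hij).2
    apply hE2 _ ?_ h1
    rw [map_mul, map_inv, map_mul, map_mul]
    exact Γ.mul_mem (Γ.inv_mem (Γ.mul_mem (hg i) (hh i))) (Γ.mul_mem (hg j) (hh j))

end Helper85.NS
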