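import Mathlib

/-!
Comparison of growth rates.
-/

namespace Helper85.NS

open Filter Topology

theorem tendsto_div_of_lt {f : ℕ → ℝ} {R C : ℝ} {a c : ℕ} (hR : 1 < R) (hac : a < c)
    (hf : Tendsto (fun n => f n / R ^ (2 * n * a)) atTop (𝓝 C)) :
    Tendsto (fun n => f n / R ^ (2 * n * c)) atTop (𝓝 0) := by
  have hR0 : 0 < R := by linarith
  have h1 : Tendsto (fun n : ℕ => ((R ^ (2 * (c - a)))⁻¹) ^ n) atTop (𝓝 0) := by
    apply tendsto_pow_atTop_nhds_zero_of_lt_one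
    · positivity
    · apply inv_lt_one_of_one_lt₀
      exact one_lt_pow₀ hR (by omega)
  have h2 := hf.mul h1
  rw [mul_zero] at h2
  refine h2.congr fun n => ?_
  have h3 : R ^ (2 * n * c) = R ^ (2 * n * a) * (R ^ (2 * (c - a))) ^ n := by
    rw [← pow_mul, ← pow_add]
    congr 1
    obtain ⟨d, rfl⟩ := Nat.exists_eq_add_of_lt hac
    have : a + d + 1 - a = d + 1 := by omega
    rw [this]
    ring
  rw [h3, inv_pow]
  field_simp

/-- NS-10b -/
theorem eventually_sep {f g h : ℕ → ℝ} {R C₁ C₂ C₃ : ℝ} {a b c : ℕ} (hR : 1 < R)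
    (h₃ : 0 < C₃) (hac : a < c) (hbc : b < c)
    (hf : Tendsto (fun n => f n / R ^ (2 * n * a)) atTop (𝓝 C₁))
    (hg : Tendsto (fun n => g n / R ^ (2 * n * b)) atTop (𝓝 C₂))
    (hh : Tendsto (fun n => h n / R ^ (2 * n * c)) atTop (𝓝 C₃)) :
    ∀ᶠ n in atTop, 3 * (f n + g n) ≤ h n + 2 := by
  have hR0 : 0 < R := by linarith
  have h1 := tendsto_div_of_lt hR hac hf
  have h2 := tendsto_div_of_lt hR hbc hg
  have h4 : Tendsto (fun n => h n / R ^ (2 * n * c) - 3 * (f n / R ^ (2 * n * c) +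
      g n / R ^ (2 * n * c))) atTop (𝓝 (C₃ - 3 * (0 + 0))) :=
    hh.sub ((h1.add h2).const_mul 3)
  rw [add_zero, mul_zero, sub_zero] at h4
  filter_upwards [h4.eventually (lt_mem_nhds h₃)] with n hn
  have hp : 0 < R ^ (2 * n * c) := by positivity
  have h5 : 0 < (h n / R ^ (2 * n * c) - 3 * (f n / R ^ (2 * n * c) +
      g n / R ^ (2 * n * c))) * R ^ (2 * n * c) := mul_pos hn hp
  have h6 : (h n / R ^ (2 * n * c) - 3 * (f n / R ^ (2 * n * c) +
      g n / R ^ (2 * n * c))) * R ^ (2 * n * c) = h n - 3 * (f n + g n) := by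
    field_simp
  linarith

end Helper85.NS
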