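import Pool.Agent.Helper85.NS.Norm

/-!
Points of hyperbolic space and their distances.
-/

namespace Helper85.NS

open Matrix
open scoped ComplexOrder

/-- NS-8c: points of hyperbolic space -/
theorem exists_eq_mul_conjTranspose {Y : Matrix (Fin 2) (Fin 2) ℂ} (hY : Y ∈ H3) :
    ∃ g : SL2, Y = g.1 * g.1ᴴ := by
  obtain ⟨hpos, hdet⟩ := hY
  have hH : Yᴴ = Y := hpos.isHermitian
  have h00 : 0 < Y 0 0 := hpos.diag_pos
  obtain ⟨p, hp, hp0⟩ : ∃ p : ℝ, 0 < p ∧ Y 0 0 = p := by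
    rw [Complex.lt_def] at h00
    refine ⟨(Y 0 0).re, by simpa using h00.1, ?_⟩
    apply Complex.ext
    · simp
    · simpa using h00.2.symm
  have h10 : Y 0 1 = (starRingEnd ℂ) (Y 1 0) := by
    conv_lhs => rw [← hH]
    rfl
  rw [Matrix.det_fin_two, hp0, h10] at hdet
  have hs : (Real.sqrt p : ℂ) * (Real.sqrt p : ℂ) = p := by
    rw [← Complex.ofReal_mul, Real.mul_self_sqrt hp.le]
  have hs0 : (Real.sqrt p : ℂ) ≠ 0 := by
    rw [Complex.ofReal_ne_zero]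
    exact (Real.sqrt_pos.mpr hp).ne'
  refine ⟨⟨!![(Real.sqrt p : ℂ), 0; Y 1 0 / Real.sqrt p, (Real.sqrt p : ℂ)⁻¹], ?_⟩, ?_⟩
  · rw [Matrix.det_fin_two_of]
    field_simp
    simp
  · ext i j
    fin_cases i <;> fin_cases j
    · simp [Matrix.mul_apply, Fin.sum_univ_two, hp0, hs]
    · simp [Matrix.mul_apply, Fin.sum_univ_two, h10]
      field_simp
    · simp [Matrix.mul_apply, Fin.sum_univ_two]
      field_simp
    · simp [Matrix.mul_apply, Fin.sum_univ_two]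
      have hp0' : (p : ℂ) ≠ 0 := by
        rw [Complex.ofReal_ne_zero]
        exact hp.ne'
      field_simp
      rw [show (Real.sqrt p : ℂ) ^ 2 = p by rw [sq, hs]]
      linear_combination hdet

/-- NS-8d -/
theorem mul_conjTranspose_mem (g : SL2) : g.1 * g.1ᴴ ∈ H3 := by
  refine ⟨?_, ?_⟩
  · apply Matrix.PosDef.mul_conjTranspose_self
    intro x y hxy
    have h1 : x ᵥ* g.1 ᵥ* (g⁻¹).1 = y ᵥ* g.1 ᵥ* (g⁻¹).1 := by
      have : x ᵥ* g.1 = y ᵥ* g.1 := hxy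
      rw [this]
    rwa [Matrix.vecMul_vecMul, Matrix.vecMul_vecMul, ← Matrix.SpecialLinearGroup.coe_mul,
      mul_inv_cancel, Matrix.SpecialLinearGroup.coe_one, Matrix.vecMul_one, Matrix.vecMul_one]
      at h1
  · rw [Matrix.det_mul, Matrix.det_conjTranspose, g.2]
    simp

theorem N_eq_trace (M : Matrix (Fin 2) (Fin 2) ℂ) : (M * Mᴴ).trace.re = N M := by
  rw [N_eq, Matrix.trace_fin_two]
  simp only [Matrix.mul_apply, Fin.sum_univ_two, Matrix.conjTranspose_apply]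
  simp only [Complex.sq_norm, Complex.normSq_apply, Complex.add_re, Complex.mul_re,
    RCLike.star_def, Complex.conj_re, Complex.conj_im]
  ring

/-- NS-8e -/
theorem coshDist_eq (g h : SL2) :
    coshDist (g.1 * g.1ᴴ) (h.1 * h.1ᴴ) = N (g⁻¹ * h).1 / 2 := by
  have hh : h.1 * (h⁻¹).1 = 1 := by
    rw [← Matrix.SpecialLinearGroup.coe_mul, mul_inv_cancel, Matrix.SpecialLinearGroup.coe_one]
  have h1 : (h.1 * h.1ᴴ)⁻¹ = ((h⁻¹).1)ᴴ * (h⁻¹).1 := by
    apply Matrix.inv_eq_right_inv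
    calc h.1 * h.1ᴴ * (((h⁻¹).1)ᴴ * (h⁻¹).1) = h.1 * (h.1ᴴ * ((h⁻¹).1)ᴴ) * (h⁻¹).1 := by
          simp only [Matrix.mul_assoc]
      _ = h.1 * (h⁻¹).1 := by
          rw [← Matrix.conjTranspose_mul, ← Matrix.SpecialLinearGroup.coe_mul, inv_mul_cancel,
            Matrix.SpecialLinearGroup.coe_one, Matrix.conjTranspose_one, Matrix.mul_one]
      _ = 1 := hh
  rw [coshDist, h1]
  have h2 : (g.1 * g.1ᴴ * (((h⁻¹).1)ᴴ * (h⁻¹).1)).trace =
      ((h⁻¹ * g).1 * ((h⁻¹ * g).1)ᴴ).trace := by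
    rw [Matrix.SpecialLinearGroup.coe_mul, Matrix.conjTranspose_mul,
      Matrix.trace_mul_comm (g.1 * g.1ᴴ), Matrix.mul_assoc ((h⁻¹).1)ᴴ,
      Matrix.trace_mul_comm ((h⁻¹).1)ᴴ]
    simp only [Matrix.mul_assoc]
  rw [h2, N_eq_trace, ← N_inv, _root_.mul_inv_rev, inv_inv]

end Helper85.NS
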