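import Pool.Agent.Helper85.NS.Defs

/-!
The separation condition for Schottky type groups.
-/

namespace Helper85.NS

/-- The separation condition for the generators `x i`, seen from the base point `P Pᴴ`. -/
def Sep {α : Type} (P : SL2) (x : α → SL2) : Prop :=
  ∀ s t : α × Bool, s ≠ t →
    3 * (N (P⁻¹ * ev x s * P).1 + N (P⁻¹ * ev x t * P).1) ≤
      N (P⁻¹ * ((ev x s)⁻¹ * ev x t) * P).1 + 2

end Helper85.NS
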