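import Pool.Agent.Helper85.NS.Growth
import Pool.Agent.Helper85.NS.Hyp
import Pool.Agent.Helper85.NS.Sep

/-!
Schottky type groups are geometrically finite.
-/

namespace Helper85.NS

open Matrix

private theorem gf_ev {α : Type} (P : SL2) (x : α → SL2) (s : α × Bool) :
    ev (fun i => P⁻¹ * x i * P) s = P⁻¹ * ev x s * P := by
  obtain ⟨i, b⟩ := s
  cases b
  · simp only [ev, cond_false]
    group
  · simp only [ev, cond_true]

private theorem gf_lift {α : Type} (P : SL2) (x : α → SL2) (w : FreeGroup α) :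
    FreeGroup.lift (fun i => P⁻¹ * x i * P) w = P⁻¹ * FreeGroup.lift x w * P := by
  induction w using FreeGroup.induction_on with
  | C1 => simp
  | of i => simp
  | inv_of i _ =>
    rw [map_inv, map_inv, FreeGroup.lift_apply_of, FreeGroup.lift_apply_of]
    group
  | mul a b ha hb =>
    rw [map_mul, map_mul, ha, hb]
    group

private theorem gf_growth {α : Type} (P : SL2) (x : α → SL2) (h : Sep P x) (g : SL2)
    (hg : ∀ s : α × Bool, N g.1 ≤ N (g * (P⁻¹ * ev x s * P)).1) (w : FreeGroup α) :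
    N g.1 ≤ N (g * (P⁻¹ * FreeGroup.lift x w * P)).1 := by
  classical
  rw [← gf_lift]
  have hU : ∀ s t : α × Bool, s ≠ t →
      3 * (N (ev (fun i => P⁻¹ * x i * P) s).1 + N (ev (fun i => P⁻¹ * x i * P) t).1) ≤
        N ((ev (fun i => P⁻¹ * x i * P) s)⁻¹ * ev (fun i => P⁻¹ * x i * P) t).1 + 2 := by
    intro s t hst
    have h1 := h s t hst
    have h2 : (ev (fun i => P⁻¹ * x i * P) s)⁻¹ * ev (fun i => P⁻¹ * x i * P) t =
        P⁻¹ * ((ev x s)⁻¹ * ev x t) * P := by
      rw [gf_ev, gf_ev]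
      group
    rw [h2, gf_ev, gf_ev]
    exact h1
  have hw : w = FreeGroup.mk w.toWord := FreeGroup.mk_toWord.symm
  rw [hw]
  have hred : FreeGroup.IsReduced w.toWord := FreeGroup.isReduced_toWord
  cases hL : w.toWord with
  | nil =>
    have : (FreeGroup.mk ([] : List (α × Bool))) = 1 := rfl
    rw [this, map_one, mul_one]
  | cons s L =>
    rw [hL] at hred
    have h3 := growth (fun i => P⁻¹ * x i * P) hU s L hred g.1 (by
      have := hg s
      rw [gf_ev]
      exact this)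
    have h4 : (1 : ℝ) ≤ 2 ^ L.length := one_le_pow₀ (by norm_num)
    have h5 := N_nonneg g.1
    calc N g.1 ≤ 2 ^ L.length * N g.1 := by nlinarith
      _ ≤ _ := h3

private theorem gf_act (u P : SL2) : act u (P.1 * P.1ᴴ) = (u * P).1 * (u * P).1ᴴ := by
  unfold act
  have : (u * P).1 = u.1 * P.1 := rfl
  rw [this, Matrix.conjTranspose_mul]
  simp only [Matrix.mul_assoc]

/-- NS-9a -/
theorem geometricallyFinite_of_sep {α : Type} [Finite α] (P : SL2) (x : α → SL2)
    (h : Sep P x) : GeometricallyFinite ((FreeGroup.lift x).range.map toPSL) := by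
  refine ⟨P.1 * P.1ᴴ, mul_conjTranspose_mem P, Set.range (fun s : α × Bool => ev x s),
    Set.finite_range _, ?_, ?_⟩
  · rintro _ ⟨s, rfl⟩
    refine ⟨ev x s, ⟨FreeGroup.mk [s], ?_⟩, rfl⟩
    obtain ⟨i, b⟩ := s
    cases b <;> simp [FreeGroup.lift_mk, ev]
  · intro Y hY hF g hg
    obtain ⟨y, rfl⟩ := exists_eq_mul_conjTranspose hY
    rw [gf_act, coshDist_eq, coshDist_eq]
    have h1 : ∀ s : α × Bool, N (y⁻¹ * P).1 ≤ N (y⁻¹ * P * (P⁻¹ * ev x s * P)).1 := by
      intro s
      have h2 := hF (ev x s) ⟨s, rfl⟩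
      rw [gf_act, coshDist_eq, coshDist_eq] at h2
      have h3 : y⁻¹ * P * (P⁻¹ * ev x s * P) = y⁻¹ * (ev x s * P) := by group
      rw [h3]
      linarith
    obtain ⟨_, ⟨w, rfl⟩, hw⟩ := hg
    have h4 : toPSL (g * (FreeGroup.lift x w)⁻¹) = 1 := by
      rw [map_mul, map_inv, ← hw, mul_inv_cancel]
    have h5 := gf_growth P x h (y⁻¹ * P) h1 w
    have h6 : y⁻¹ * P * (P⁻¹ * FreeGroup.lift x w * P) = y⁻¹ * (FreeGroup.lift x w * P) := by
      group
    rw [h6] at h5
    rcases (toPSL_eq_one_iff _).1 h4 with h7 | h7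
    · rw [mul_inv_eq_one] at h7
      rw [h7]
      linarith
    · have h8 : g = -(FreeGroup.lift x w) := by
        rw [mul_inv_eq_iff_eq_mul] at h7
        rw [h7, neg_one_mul]
      have h9 : (y⁻¹ * (g * P)).1 = -(y⁻¹ * (FreeGroup.lift x w * P)).1 := by
        rw [h8, neg_mul, mul_neg]
        rfl
      rw [h9, N_neg]
      linarith

end Helper85.NS
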