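import Pool.Agent.Helper85.NS.Defs

/-!
Lengths of products of letters and of powers.
-/

namespace Helper85.NS

private theorem norm_mk_eq {α : Type} [DecidableEq α] (L : List (α × Bool))
    (h : FreeGroup.IsReduced L) : (FreeGroup.mk L).norm = L.length := by
  rw [FreeGroup.norm, FreeGroup.toWord_mk, h.reduce_eq]

private theorem wlet_ne {α : Type} [DecidableEq α] (b₀ k₀ i : α) (e : Bool) (hi : i ≠ k₀) :
    wlet b₀ k₀ (i, e) = FreeGroup.mk [(i, e)] := by
  cases e <;> simp [wlet, wmap, hi, FreeGroup.of, FreeGroup.inv_mk, FreeGroup.invRev]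

private theorem wlet_t {α : Type} [DecidableEq α] (b₀ k₀ : α) :
    wlet b₀ k₀ (k₀, true) =
      FreeGroup.mk [(k₀, false), (k₀, false), (b₀, true), (k₀, true)] := by
  simp [wlet, wmap, FreeGroup.of, FreeGroup.inv_mk, FreeGroup.invRev, FreeGroup.mul_mk]

private theorem wlet_f {α : Type} [DecidableEq α] (b₀ k₀ : α) :
    wlet b₀ k₀ (k₀, false) =
      FreeGroup.mk [(k₀, false), (b₀, false), (k₀, true), (k₀, true)] := by
  simp [wlet, wmap, FreeGroup.of, FreeGroup.inv_mk, FreeGroup.invRev, FreeGroup.mul_mk]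

private theorem wlet_inv {α : Type} [DecidableEq α] (b₀ k₀ i : α) (e : Bool) :
    (wlet b₀ k₀ (i, e))⁻¹ = wlet b₀ k₀ (i, !e) := by
  cases e <;> simp [wlet]

/-- NS-7b -/
theorem norm_wlet {α : Type} [DecidableEq α] (b₀ k₀ : α) (hbk : b₀ ≠ k₀) (s t : α × Bool)
    (hst : s ≠ t) :
    (wlet b₀ k₀ s).norm < ((wlet b₀ k₀ s)⁻¹ * wlet b₀ k₀ t).norm ∧
    (wlet b₀ k₀ t).norm < ((wlet b₀ k₀ s)⁻¹ * wlet b₀ k₀ t).norm := by
  obtain ⟨i, e⟩ := s
  obtain ⟨j, d⟩ := t
  have hn : (wlet b₀ k₀ (i, e)).norm = (wlet b₀ k₀ (i, !e)).norm := by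
    rw [← wlet_inv, FreeGroup.norm_inv_eq]
  rw [hn, wlet_inv]
  have hkb : k₀ ≠ b₀ := hbk.symm
  by_cases hi : i = k₀ <;> by_cases hj : j = k₀
  · subst hi; subst hj
    cases e <;> cases d
    · exact absurd rfl hst
    · have h1 : wlet b₀ j (j, !false) * wlet b₀ j (j, true) =
          FreeGroup.mk [(j, false), (j, false), (b₀, true), (j, false), (b₀, true), (j, true)] := by
        rw [Bool.not_false, wlet_t, FreeGroup.mul_mk]
        apply Quot.sound
        exact FreeGroup.Red.Step.not (L₁ := [(j, false), (j, false), (b₀, true)])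
          (L₂ := [(j, false), (b₀, true), (j, true)]) (x := j) (b := true)
      rw [h1, Bool.not_false, wlet_t]
      rw [norm_mk_eq _ (by simp [FreeGroup.IsReduced, hbk, hkb]),
        norm_mk_eq _ (by simp [FreeGroup.IsReduced, hbk, hkb])]
      simp
    · have h1 : wlet b₀ j (j, !true) * wlet b₀ j (j, false) =
          FreeGroup.mk [(j, false), (b₀, false), (j, true), (b₀, false), (j, true), (j, true)] := by
        rw [Bool.not_true, wlet_f, FreeGroup.mul_mk]
        apply Quot.sound
        exact FreeGroup.Red.Step.not (L₁ := [(j, false), (b₀, false), (j, true)])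
          (L₂ := [(b₀, false), (j, true), (j, true)]) (x := j) (b := true)
      rw [h1, Bool.not_true, wlet_f]
      rw [norm_mk_eq _ (by simp [FreeGroup.IsReduced, hbk, hkb]),
        norm_mk_eq _ (by simp [FreeGroup.IsReduced, hbk, hkb])]
      simp
    · exact absurd rfl hst
  · subst hi
    have hj' : i ≠ j := fun h => hj h.symm
    rw [wlet_ne b₀ i j d hj]
    cases e
    · rw [Bool.not_false, wlet_t, FreeGroup.mul_mk]
      rw [norm_mk_eq _ (by simp [FreeGroup.IsReduced, hbk, hkb]),
        norm_mk_eq _ (by simp [FreeGroup.IsReduced, hbk, hkb, hj']),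
        norm_mk_eq _ (by simp [FreeGroup.IsReduced, hbk, hkb, hj'])]
      simp
    · rw [Bool.not_true, wlet_f, FreeGroup.mul_mk]
      rw [norm_mk_eq _ (by simp [FreeGroup.IsReduced, hbk, hkb]),
        norm_mk_eq _ (by simp [FreeGroup.IsReduced, hbk, hkb, hj']),
        norm_mk_eq _ (by simp [FreeGroup.IsReduced, hbk, hkb, hj'])]
      simp
  · subst hj
    rw [wlet_ne b₀ j i _ hi]
    cases d
    · rw [wlet_f, FreeGroup.mul_mk]
      rw [norm_mk_eq _ (by simp [FreeGroup.IsReduced, hbk, hkb]),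
        norm_mk_eq _ (by simp [FreeGroup.IsReduced, hbk, hkb, hi]),
        norm_mk_eq _ (by simp [FreeGroup.IsReduced, hbk, hkb, hi])]
      simp
    · rw [wlet_t, FreeGroup.mul_mk]
      rw [norm_mk_eq _ (by simp [FreeGroup.IsReduced, hbk, hkb]),
        norm_mk_eq _ (by simp [FreeGroup.IsReduced, hbk, hkb, hi]),
        norm_mk_eq _ (by simp [FreeGroup.IsReduced, hbk, hkb, hi])]
      simp
  · rw [wlet_ne b₀ k₀ i _ hi, wlet_ne b₀ k₀ j _ hj, FreeGroup.mul_mk]
    have h2 : i = j → e = !d := by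
      intro h
      subst h
      cases e <;> cases d <;> simp_all
    rw [norm_mk_eq _ (by simp [FreeGroup.IsReduced]),
      norm_mk_eq _ (by simpa [FreeGroup.IsReduced] using h2),
      norm_mk_eq _ (by simp [FreeGroup.IsReduced])]
    simp

/-- NS-7c -/
theorem le_norm_pow {α : Type} [DecidableEq α] (v : FreeGroup α) (hv : v ≠ 1) (n : ℕ) :
    n ≤ (v ^ n).norm := by
  rw [FreeGroup.norm, FreeGroup.toWord_pow,
    FreeGroup.reduceCyclically.reduce_flatten_replicate FreeGroup.isReduced_toWord]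
  split_ifs with h
  · omega
  · have h1 : FreeGroup.reduceCyclically v.toWord ≠ [] := by
      intro h2
      have h3 := FreeGroup.reduceCyclically.conj_conjugator_reduceCyclically v.toWord
      rw [h2, List.append_nil] at h3
      apply hv
      have h4 : v = FreeGroup.mk v.toWord := FreeGroup.mk_toWord.symm
      rw [h4, ← h3, ← FreeGroup.mul_mk, ← FreeGroup.inv_mk, mul_inv_cancel]
    have h2 : 1 ≤ (FreeGroup.reduceCyclically v.toWord).length := by
      rw [Nat.one_le_iff_ne_zero]
      simpa using h1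
    simp only [List.length_append, List.length_flatten, List.map_replicate, List.sum_replicate,
      smul_eq_mul]
    have h3 : n * 1 ≤ n * (FreeGroup.reduceCyclically v.toWord).length :=
      Nat.mul_le_mul_left _ h2
    omega

end Helper85.NS
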