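import Pool.Agent.Helper85.NS.Growth
import Pool.Agent.Helper85.NS.Sep
import Pool.Agent.Helper85.NS.Len
import Pool.Agent.Helper85.NS.Diag

/-!
Schottky type groups are purely loxodromic.
-/

namespace Helper85.NS

private theorem ls_ev {α : Type} (P : SL2) (x : α → SL2) (s : α × Bool) :
    ev (fun i => P⁻¹ * x i * P) s = P⁻¹ * ev x s * P := by
  obtain ⟨i, b⟩ := s
  cases b
  · simp only [ev, cond_false]
    group
  · simp only [ev, cond_true]

private theorem ls_lift {α : Type} (P : SL2) (x : α → SL2) (w : FreeGroup α) :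
    FreeGroup.lift (fun i => P⁻¹ * x i * P) w = P⁻¹ * FreeGroup.lift x w * P := by
  induction w using FreeGroup.induction_on with
  | C1 => simp
  | of i => simp
  | inv_of i _ =>
    rw [map_inv, map_inv, FreeGroup.lift_apply_of, FreeGroup.lift_apply_of]
    group
  | mul a b ha hb =>
    rw [map_mul, map_mul, ha, hb]
    group

/-- exponential growth along a nontrivial word -/
private theorem ls_growth {α : Type} (P : SL2) (x : α → SL2) (h : Sep P x)
    (v : FreeGroup α) (hv : v ≠ 1) (n : ℕ) (hn : 1 ≤ n) :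
    (2 : ℝ) ^ n ≤ N (P⁻¹ * (FreeGroup.lift x v) ^ n * P).1 := by
  classical
  rw [← map_pow, ← ls_lift]
  have hU : ∀ s t : α × Bool, s ≠ t →
      3 * (N (ev (fun i => P⁻¹ * x i * P) s).1 + N (ev (fun i => P⁻¹ * x i * P) t).1) ≤
        N ((ev (fun i => P⁻¹ * x i * P) s)⁻¹ * ev (fun i => P⁻¹ * x i * P) t).1 + 2 := by
    intro s t hst
    have h1 := h s t hst
    have h2 : (ev (fun i => P⁻¹ * x i * P) s)⁻¹ * ev (fun i => P⁻¹ * x i * P) t =
        P⁻¹ * ((ev x s)⁻¹ * ev x t) * P := by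
      rw [ls_ev, ls_ev]
      group
    rw [h2, ls_ev, ls_ev]
    exact h1
  have hlen : n ≤ (v ^ n).toWord.length := le_norm_pow v hv n
  have hw : v ^ n = FreeGroup.mk (v ^ n).toWord := FreeGroup.mk_toWord.symm
  rw [hw]
  have hred : FreeGroup.IsReduced (v ^ n).toWord := FreeGroup.isReduced_toWord
  cases hL : (v ^ n).toWord with
  | nil =>
    rw [hL] at hlen
    simp at hlen
    omega
  | cons s L =>
    rw [hL] at hred hlen
    have h3 := growth (fun i => P⁻¹ * x i * P) hU s L hred 1 (by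
      rw [N_one, one_mul]
      exact two_le_N _)
    rw [N_one, one_mul] at h3
    rw [List.length_cons] at hlen
    calc (2 : ℝ) ^ n ≤ 2 ^ (L.length + 1) := pow_le_pow_right₀ (by norm_num) hlen
      _ = 2 ^ L.length * 2 := pow_succ _ _
      _ ≤ _ := h3

/-- NS-9b -/
theorem lox_of_sep {α : Type} (P : SL2) (x : α → SL2) (h : Sep P x)
    (v : FreeGroup α) (hv : v ≠ 1) : Lox (FreeGroup.lift x v) := by
  by_contra hlox
  obtain ⟨C, hC⟩ := N_pow_le (FreeGroup.lift x v) hlox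
  set M := FreeGroup.lift x v with hM
  set A : ℝ := 4 * (N (P⁻¹).1 * |C| * N P.1) with hA
  have hA0 : 0 ≤ A := by
    have h1 := N_nonneg (P⁻¹).1
    have h2 := N_nonneg P.1
    positivity
  have hbound : ∀ n : ℕ, 1 ≤ n → (2 : ℝ) ^ n ≤ A * (n : ℝ) ^ 2 := by
    intro n hn
    have h1 := ls_growth P x h v hv n hn
    have h2 : N (P⁻¹ * M ^ n * P).1 ≤ N (P⁻¹).1 * N (M ^ n).1 * N P.1 := by
      have h3 : (P⁻¹ * M ^ n * P).1 = ((P⁻¹).1 * (M ^ n).1) * P.1 := rfl
      rw [h3]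
      refine (N_mul_le _ _).trans ?_
      exact mul_le_mul_of_nonneg_right (N_mul_le _ _) (N_nonneg _)
    have h3 : N (M ^ n).1 ≤ |C| * ((n : ℝ) + 1) ^ 2 :=
      (hC n).trans (mul_le_mul_of_nonneg_right (le_abs_self C) (by positivity))
    have h4 : ((n : ℝ) + 1) ^ 2 ≤ 4 * (n : ℝ) ^ 2 := by
      have : (1 : ℝ) ≤ n := by exact_mod_cast hn
      nlinarith
    have h5 := N_nonneg (P⁻¹).1
    have h6 := N_nonneg P.1
    calc (2 : ℝ) ^ n ≤ N (P⁻¹ * M ^ n * P).1 := h1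
      _ ≤ N (P⁻¹).1 * N (M ^ n).1 * N P.1 := h2
      _ ≤ N (P⁻¹).1 * (|C| * ((n : ℝ) + 1) ^ 2) * N P.1 := by gcongr
      _ ≤ N (P⁻¹).1 * (|C| * (4 * (n : ℝ) ^ 2)) * N P.1 := by gcongr
      _ = A * (n : ℝ) ^ 2 := by rw [hA]; ring
  have hlim := tendsto_pow_const_div_const_pow_of_one_lt 2 (r := (2 : ℝ)) (by norm_num)
  have hlim2 := hlim.const_mul A
  rw [mul_zero] at hlim2
  have hev := (hlim2.eventually (gt_mem_nhds (show (0 : ℝ) < 1 by norm_num))).and
    (Filter.eventually_ge_atTop 1)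
  obtain ⟨n, hn1, hn2⟩ := hev.exists
  have h7 := hbound n hn2
  have h8 : (0 : ℝ) < 2 ^ n := by positivity
  have h9 : A * ((n : ℝ) ^ 2 / 2 ^ n) = A * (n : ℝ) ^ 2 / 2 ^ n := by ring
  rw [h9, div_lt_one h8] at hn1
  linarith

end Helper85.NS
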