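import Pool.Agent.Helper85.NS.FreeAct

/-!
The range of `wmap` is malnormal.
-/

namespace Helper85.NS

section

variable {α : Type} [DecidableEq α]

/-- The core graph of the range of `wmap b₀ k₀`. -/
def stp (b₀ k₀ : α) (v : Fin 3) (s : α × Bool) : Option (Fin 3) :=
  if s.1 = k₀ then
    cond s.2 (if v = 0 then some 1 else if v = 1 then some 2 else none)
      (if v = 1 then some 0 else if v = 2 then some 1 else none)
  else if s.1 = b₀ then
    cond s.2 (if v = 0 then some 0 else if v = 1 then some 2 else none)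
      (if v = 0 then some 0 else if v = 2 then some 1 else none)
  else if v = 0 then some 0 else none

theorem stp_inv (b₀ k₀ : α) (v v' : Fin 3) (s : α × Bool) (h : stp b₀ k₀ v s = some v') :
    stp b₀ k₀ v' (s.1, !s.2) = some v := by
  obtain ⟨i, b⟩ := s
  by_cases h1 : i = k₀
  · subst h1
    cases b <;> fin_cases v <;> fin_cases v' <;> simp [stp] at h ⊢
  · by_cases h2 : i = b₀
    · subst h2
      cases b <;> fin_cases v <;> fin_cases v' <;> simp [stp, h1] at h ⊢
    · fin_cases v <;> fin_cases v' <;> simp [stp, h1, h2] at h ⊢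

/-- The vertices of the covering graph: a vertex of the core and a reduced word leaving it. -/
def Om (b₀ k₀ : α) : Type :=
  {p : Fin 3 × List (α × Bool) // FreeGroup.IsReduced p.2 ∧
    ∀ t ∈ p.2.getLast?, stp b₀ k₀ p.1 t = none}

/-- The action of a letter on the underlying pairs. -/
def actl (b₀ k₀ : α) (s : α × Bool) : Fin 3 × List (α × Bool) → Fin 3 × List (α × Bool)
  | (v, []) => match stp b₀ k₀ v s with
    | some v' => (v', [])
    | none => (v, [s])
  | (v, t :: L) => if t = (s.1, !s.2) then (v, L) else (v, s :: t :: L)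

/-- The invariant of the vertices. -/
def Okp (b₀ k₀ : α) (p : Fin 3 × List (α × Bool)) : Prop :=
  FreeGroup.IsReduced p.2 ∧ ∀ t ∈ p.2.getLast?, stp b₀ k₀ p.1 t = none

theorem not_not_pair (s : α × Bool) : ((s.1, !s.2).1, !(s.1, !s.2).2) = s := by
  obtain ⟨i, b⟩ := s
  simp

theorem actl_ok (b₀ k₀ : α) (s : α × Bool) (p : Fin 3 × List (α × Bool)) (hp : Okp b₀ k₀ p) :
    Okp b₀ k₀ (actl b₀ k₀ s p) := by
  obtain ⟨v, L⟩ := p
  rcases L with _ | ⟨t, L⟩
  · cases h : stp b₀ k₀ v s with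
    | some v' =>
      have h1 : actl b₀ k₀ s (v, []) = (v', []) := by simp [actl, h]
      rw [h1]
      exact ⟨FreeGroup.IsReduced.nil, by simp⟩
    | none =>
      have h1 : actl b₀ k₀ s (v, []) = (v, [s]) := by simp [actl, h]
      rw [h1]
      refine ⟨FreeGroup.IsReduced.singleton, ?_⟩
      intro t ht
      simp at ht
      subst ht
      exact h
  · by_cases h : t = (s.1, !s.2)
    · have h1 : actl b₀ k₀ s (v, t :: L) = (v, L) := by simp [actl, h]
      rw [h1]
      refine ⟨List.IsChain.right_of_append (l₁ := [t]) hp.1, ?_⟩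
      intro t' ht'
      apply hp.2 t'
      simp only
      rw [List.getLast?_cons]
      simp only at ht'
      rw [Option.mem_def] at ht' ⊢
      rw [ht']
      rfl
    · have h1 : actl b₀ k₀ s (v, t :: L) = (v, s :: t :: L) := by simp [actl, h]
      rw [h1]
      refine ⟨?_, ?_⟩
      · change FreeGroup.IsReduced (s :: t :: L)
        rw [FreeGroup.isReduced_cons_cons]
        refine ⟨?_, hp.1⟩
        intro h1
        by_contra h2
        apply h
        obtain ⟨i, b⟩ := s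
        obtain ⟨j, b'⟩ := t
        simp only at h1 h2 ⊢
        subst h1
        cases b <;> cases b' <;> simp_all
      · intro t' ht'
        apply hp.2 t'
        simp only at ht' ⊢
        rw [List.getLast?_cons_cons] at ht'
        exact ht'

theorem actl_inv (b₀ k₀ : α) (s : α × Bool) (p : Fin 3 × List (α × Bool)) (hp : Okp b₀ k₀ p) :
    actl b₀ k₀ (s.1, !s.2) (actl b₀ k₀ s p) = p := by
  obtain ⟨v, L⟩ := p
  rcases L with _ | ⟨t, L⟩
  · cases h : stp b₀ k₀ v s with
    | some v' =>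
      have h1 : actl b₀ k₀ s (v, []) = (v', []) := by simp [actl, h]
      rw [h1]
      have h2 := stp_inv b₀ k₀ v v' s h
      simp [actl, h2]
    | none =>
      have h1 : actl b₀ k₀ s (v, []) = (v, [s]) := by simp [actl, h]
      rw [h1]
      simp [actl]
  · by_cases h : t = (s.1, !s.2)
    · have h1 : actl b₀ k₀ s (v, t :: L) = (v, L) := by simp [actl, h]
      rw [h1]
      rcases L with _ | ⟨t', L⟩
      · have h2 : stp b₀ k₀ v t = none := hp.2 t (by simp)
        rw [← h]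
        simp [actl, h2]
      · have h2 : t' ≠ s := by
          intro h2
          have h3 := hp.1
          simp only at h3
          rw [FreeGroup.isReduced_cons_cons, h, h2] at h3
          have := h3.1 rfl
          simp at this
        have h3 : t' ≠ ((s.1, !s.2).1, !(s.1, !s.2).2) := by
          rw [not_not_pair]; exact h2
        rw [← h] at h3 ⊢
        simp only [actl]
        rw [if_neg h3]
    · have h1 : actl b₀ k₀ s (v, t :: L) = (v, s :: t :: L) := by simp [actl, h]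
      rw [h1]
      simp only [actl]
      rw [if_pos (not_not_pair s).symm]

/-- The permutation given by a generator. -/
def prm (b₀ k₀ : α) (i : α) : Equiv.Perm (Om b₀ k₀) where
  toFun p := ⟨actl b₀ k₀ (i, true) p.1, actl_ok b₀ k₀ _ _ p.2⟩
  invFun p := ⟨actl b₀ k₀ (i, false) p.1, actl_ok b₀ k₀ _ _ p.2⟩
  left_inv p := Subtype.ext (actl_inv b₀ k₀ (i, true) p.1 p.2)
  right_inv p := Subtype.ext (actl_inv b₀ k₀ (i, false) p.1 p.2)

instance instActOm (b₀ k₀ : α) : MulAction (FreeGroup α) (Om b₀ k₀) :=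
  MulAction.compHom _ (FreeGroup.lift (prm b₀ k₀))

theorem ev_smul (b₀ k₀ : α) (s : α × Bool) (p : Om b₀ k₀) :
    (ev FreeGroup.of s • p).1 = actl b₀ k₀ s p.1 := by
  obtain ⟨i, b⟩ := s
  cases b
  · change ((FreeGroup.lift (prm b₀ k₀)) (FreeGroup.of i)⁻¹ • p).1 = _
    rw [map_inv, FreeGroup.lift_apply_of]
    rfl
  · change ((FreeGroup.lift (prm b₀ k₀)) (FreeGroup.of i) • p).1 = _
    rw [FreeGroup.lift_apply_of]
    rfl

/-- Distinct pairs of vertices. -/
def PairOm (b₀ k₀ : α) : Type := {x : Om b₀ k₀ × Om b₀ k₀ // x.1 ≠ x.2}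

instance instActPair (b₀ k₀ : α) : MulAction (FreeGroup α) (PairOm b₀ k₀) where
  smul g x := ⟨(g • x.1.1, g • x.1.2), fun h => x.2 (smul_left_cancel g h)⟩
  one_smul x := Subtype.ext (Prod.ext (one_smul _ _) (one_smul _ _))
  mul_smul g h x := Subtype.ext (Prod.ext (mul_smul _ _ _) (mul_smul _ _ _))

theorem pair_smul_fst (b₀ k₀ : α) (g : FreeGroup α) (x : PairOm b₀ k₀) :
    (g • x).1.1 = g • x.1.1 := rfl

theorem pair_smul_snd (b₀ k₀ : α) (g : FreeGroup α) (x : PairOm b₀ k₀) :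
    (g • x).1.2 = g • x.1.2 := rfl

/-- The potential on pairs. -/
def phi (p q : Fin 3 × List (α × Bool)) : ℕ :=
  2 * max p.2.length q.2.length +
    if p.2 = [] ∧ q.2 = [] ∧ (p.1 = 2 ∨ q.1 = 2) then 1 else 0

theorem len_actl_of_ne (b₀ k₀ : α) (s t : α × Bool) (v : Fin 3) (L : List (α × Bool))
    (h : t ≠ (s.1, !s.2)) : (actl b₀ k₀ s (v, t :: L)).2.length = L.length + 2 := by
  simp only [actl]
  rw [if_neg h]
  simp

theorem eq_of_phi_left (b₀ k₀ : α) (v : Fin 3) (t : α × Bool) (L : List (α × Bool))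
    (q : Fin 3 × List (α × Bool)) (hq : q.2.length ≤ (t :: L).length) (s : α × Bool)
    (h : phi (actl b₀ k₀ s (v, t :: L)) (actl b₀ k₀ s q) ≤ phi (v, t :: L) q) :
    t = (s.1, !s.2) := by
  by_contra hne
  have h1 := len_actl_of_ne b₀ k₀ s t v L hne
  have h2 : phi (v, t :: L) q = 2 * (L.length + 1) := by
    unfold phi
    rw [if_neg (by simp), max_eq_left hq]
    simp
  have h3 : 2 * (L.length + 2) ≤ phi (actl b₀ k₀ s (v, t :: L)) (actl b₀ k₀ s q) := by
    unfold phi
    have := le_max_left (actl b₀ k₀ s (v, t :: L)).2.length (actl b₀ k₀ s q).2.length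
    omega
  omega

theorem phi_comm (p q : Fin 3 × List (α × Bool)) : phi p q = phi q p := by
  unfold phi
  rw [max_comm]
  congr 2
  apply propext
  constructor
  · rintro ⟨h1, h2, h3⟩; exact ⟨h2, h1, h3.symm⟩
  · rintro ⟨h1, h2, h3⟩; exact ⟨h2, h1, h3.symm⟩

theorem letter_ext {s t : α × Bool} (h : (s.1, !s.2) = (t.1, !t.2)) : s = t := by
  obtain ⟨i, b⟩ := s
  obtain ⟨j, c⟩ := t
  simp only [Prod.mk.injEq] at h
  obtain ⟨h1, h2⟩ := h
  subst h1
  cases b <;> cases c <;> simp_all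

/-- The letter which may be applied to a pair of core vertices. -/
theorem phi_core (b₀ k₀ : α) (hbk : b₀ ≠ k₀) (v w : Fin 3) (hvw : v ≠ w) (s : α × Bool)
    (h : phi (actl b₀ k₀ s (v, [])) (actl b₀ k₀ s (w, [])) ≤ phi (α := α) (v, []) (w, [])) :
    (v + w = 0 → s = (k₀, false)) ∧ (v + w ≠ 0 → s = (b₀, false)) := by
  obtain ⟨i, b⟩ := s
  by_cases h1 : i = k₀
  · subst h1
    cases b <;> fin_cases v <;> fin_cases w <;> simp [phi, actl, stp] at h hvw ⊢
  · by_cases h2 : i = b₀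
    · subst h2
      cases b <;> fin_cases v <;> fin_cases w <;> simp [phi, actl, stp, h1] at h hvw ⊢
    · cases b <;> fin_cases v <;> fin_cases w <;> simp [phi, actl, stp, h1, h2] at h hvw ⊢

end

/-- The representative of a vertex. -/
def rv {α : Type} (k₀ : α) (v : Fin 3) : FreeGroup α :=
  if v = 0 then 1 else if v = 1 then FreeGroup.of k₀ else FreeGroup.of k₀ * FreeGroup.of k₀

theorem wmap_of_ne {α : Type} [DecidableEq α] (b₀ k₀ i : α) (h : i ≠ k₀) :
    wmap b₀ k₀ (FreeGroup.of i) = FreeGroup.of i := by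
  simp [wmap, h]

theorem wmap_of_eq {α : Type} [DecidableEq α] (b₀ k₀ : α) :
    wmap b₀ k₀ (FreeGroup.of k₀) =
      (FreeGroup.of k₀)⁻¹ * (FreeGroup.of k₀)⁻¹ * FreeGroup.of b₀ * FreeGroup.of k₀ := by
  simp [wmap]

theorem of_mem_range {α : Type} [DecidableEq α] (b₀ k₀ i : α) (h : i ≠ k₀) :
    FreeGroup.of i ∈ (wmap b₀ k₀).range := ⟨FreeGroup.of i, wmap_of_ne b₀ k₀ i h⟩

theorem rep_core {α : Type} [DecidableEq α] (b₀ k₀ : α) (hbk : b₀ ≠ k₀) (i : α) (v v' : Fin 3)
    (h : stp b₀ k₀ v (i, true) = some v') :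
    (rv k₀ v')⁻¹ * (FreeGroup.of i * rv k₀ v) ∈ (wmap b₀ k₀).range := by
  by_cases h1 : i = k₀
  · subst h1
    fin_cases v <;> fin_cases v' <;> simp [stp] at h
    · simp [rv]
    · simp [rv]
  · by_cases h2 : i = b₀
    · subst h2
      fin_cases v <;> fin_cases v' <;> simp [stp, h1] at h
      · simpa [rv] using of_mem_range i k₀ i h1
      · refine ⟨FreeGroup.of k₀, ?_⟩
        rw [wmap_of_eq]
        simp [rv, mul_assoc]
    · fin_cases v <;> fin_cases v' <;> simp [stp, h1, h2] at h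
      simpa [rv] using of_mem_range b₀ k₀ i h1

/-- The representative of a point. -/
def rp {α : Type} (k₀ : α) (p : Fin 3 × List (α × Bool)) : FreeGroup α :=
  FreeGroup.mk p.2 * rv k₀ p.1

theorem rep_step {α : Type} [DecidableEq α] (b₀ k₀ : α) (hbk : b₀ ≠ k₀) (i : α)
    (p : Fin 3 × List (α × Bool)) :
    (rp k₀ (actl b₀ k₀ (i, true) p))⁻¹ * (FreeGroup.of i * rp k₀ p) ∈ (wmap b₀ k₀).range := by
  obtain ⟨v, L⟩ := p
  have hnil : FreeGroup.mk ([] : List (α × Bool)) = 1 := rfl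
  rcases L with _ | ⟨t, L⟩
  · cases h : stp b₀ k₀ v (i, true) with
    | some v' =>
      have h1 : actl b₀ k₀ (i, true) (v, []) = (v', []) := by simp [actl, h]
      rw [h1]
      simp only [rp, hnil, one_mul]
      exact rep_core b₀ k₀ hbk i v v' h
    | none =>
      have h1 : actl b₀ k₀ (i, true) (v, []) = (v, [(i, true)]) := by simp [actl, h]
      rw [h1]
      have h2 : FreeGroup.mk [(i, true)] = FreeGroup.of i := rfl
      simp only [rp, hnil, one_mul, h2, inv_mul_cancel]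
      exact one_mem _
  · by_cases h : t = (i, false)
    · have h1 : actl b₀ k₀ (i, true) (v, t :: L) = (v, L) := by simp [actl, h]
      rw [h1]
      have h2 : FreeGroup.mk (t :: L) = (FreeGroup.of i)⁻¹ * FreeGroup.mk L := by
        rw [h, mk_cons_eq]
        rfl
      simp only [rp, h2]
      have : (FreeGroup.mk L * rv k₀ v)⁻¹ *
          (FreeGroup.of i * ((FreeGroup.of i)⁻¹ * FreeGroup.mk L * rv k₀ v)) = 1 := by group
      rw [this]
      exact one_mem _
    · have h1 : actl b₀ k₀ (i, true) (v, t :: L) = (v, (i, true) :: t :: L) := by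
        simp [actl, h]
      rw [h1]
      have h2 : FreeGroup.mk ((i, true) :: t :: L) = FreeGroup.of i * FreeGroup.mk (t :: L) := by
        rw [mk_cons_eq]
        rfl
      simp only [rp, h2, mul_assoc, inv_mul_cancel]
      exact one_mem _

theorem rep_all {α : Type} [DecidableEq α] (b₀ k₀ : α) (hbk : b₀ ≠ k₀) (g : FreeGroup α) :
    ∀ p : Om b₀ k₀, (rp k₀ (g • p).1)⁻¹ * (g * rp k₀ p.1) ∈ (wmap b₀ k₀).range := by
  have hgen : ∀ (i : α) (p : Om b₀ k₀),
      (rp k₀ (FreeGroup.of i • p).1)⁻¹ * (FreeGroup.of i * rp k₀ p.1) ∈ (wmap b₀ k₀).range := by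
    intro i p
    have h1 := ev_smul b₀ k₀ (i, true) p
    have h2 : (FreeGroup.of i • p).1 = actl b₀ k₀ (i, true) p.1 := h1
    rw [h2]
    exact rep_step b₀ k₀ hbk i p.1
  induction g using FreeGroup.induction_on with
  | C1 =>
    intro p
    rw [one_smul, one_mul, inv_mul_cancel]
    exact one_mem _
  | of i => exact hgen i
  | inv_of i _ =>
    intro p
    have h := hgen i ((FreeGroup.of i)⁻¹ • p)
    rw [smul_inv_smul] at h
    have h2 := inv_mem h
    have h3 : ((rp k₀ p.1)⁻¹ * (FreeGroup.of i * rp k₀ ((FreeGroup.of i)⁻¹ • p).1))⁻¹ =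
        (rp k₀ ((FreeGroup.of i)⁻¹ • p).1)⁻¹ * ((FreeGroup.of i)⁻¹ * rp k₀ p.1) := by group
    rw [h3] at h2
    exact h2
  | mul g h ihg ihh =>
    intro p
    have h1 := ihg (h • p)
    have h2 := ihh p
    have h3 := mul_mem h1 h2
    rw [mul_smul]
    have h4 : (rp k₀ (g • h • p).1)⁻¹ * (g * rp k₀ (h • p).1) *
        ((rp k₀ (h • p).1)⁻¹ * (h * rp k₀ p.1)) =
        (rp k₀ (g • h • p).1)⁻¹ * (g * h * rp k₀ p.1) := by group
    rw [h4] at h3
    exact h3

/-- The base point. -/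
def bp {α : Type} [DecidableEq α] (b₀ k₀ : α) : Om b₀ k₀ :=
  ⟨(0, []), FreeGroup.IsReduced.nil, by simp⟩

theorem smul_bp_of_mem {α : Type} [DecidableEq α] (b₀ k₀ : α) (hbk : b₀ ≠ k₀)
    (g : FreeGroup α) (hg : g ∈ (wmap b₀ k₀).range) : g • bp b₀ k₀ = bp b₀ k₀ := by
  have hev : ∀ (i : α) (p : Om b₀ k₀), (FreeGroup.of i • p).1 = actl b₀ k₀ (i, true) p.1 :=
    fun i p => ev_smul b₀ k₀ (i, true) p
  have hev' : ∀ (i : α) (p : Om b₀ k₀),
      ((FreeGroup.of i)⁻¹ • p).1 = actl b₀ k₀ (i, false) p.1 :=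
    fun i p => ev_smul b₀ k₀ (i, false) p
  have hgen : ∀ i, wmap b₀ k₀ (FreeGroup.of i) • bp b₀ k₀ = bp b₀ k₀ := by
    intro i
    by_cases h : i = k₀
    · subst h
      rw [wmap_of_eq, mul_smul, mul_smul, mul_smul]
      apply Subtype.ext
      rw [hev', hev', hev, hev]
      simp [bp, actl, stp, hbk]
    · rw [wmap_of_ne b₀ k₀ i h]
      apply Subtype.ext
      rw [hev]
      by_cases h2 : i = b₀
      · subst h2
        simp [bp, actl, stp, h]
      · simp [bp, actl, stp, h, h2]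
  have hle : (wmap b₀ k₀).range ≤ MulAction.stabilizer (FreeGroup α) (bp b₀ k₀) := by
    rw [MonoidHom.range_eq_map, Subgroup.map_le_iff_le_comap]
    have htop : (⊤ : Subgroup (FreeGroup α)) = Subgroup.closure (Set.range FreeGroup.of) :=
      (FreeGroup.closure_range_of α).symm
    rw [htop, Subgroup.closure_le]
    rintro _ ⟨i, rfl⟩
    exact hgen i
  exact hle hg

theorem mem_of_smul_bp {α : Type} [DecidableEq α] (b₀ k₀ : α) (hbk : b₀ ≠ k₀)
    (g : FreeGroup α) (hg : g • bp b₀ k₀ = bp b₀ k₀) : g ∈ (wmap b₀ k₀).range := by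
  have h := rep_all b₀ k₀ hbk g (bp b₀ k₀)
  rw [hg] at h
  have h1 : rp k₀ (bp b₀ k₀).1 = 1 := by
    change FreeGroup.mk ([] : List (α × Bool)) * rv k₀ 0 = 1
    have hnil : FreeGroup.mk ([] : List (α × Bool)) = 1 := rfl
    rw [hnil, one_mul]
    rfl
  rw [h1] at h
  simpa using h

/-- NS-6b -/
theorem wmap_malnormal {α : Type} [DecidableEq α] (b₀ k₀ : α) (hbk : b₀ ≠ k₀) :
    Malnormal (wmap b₀ k₀).range := by
  intro g hg a ha hga
  by_contra ha1
  have h1 := smul_bp_of_mem b₀ k₀ hbk a ha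
  have h2 := smul_bp_of_mem b₀ k₀ hbk _ hga
  rw [mul_smul, mul_smul] at h2
  have h3 : a • g⁻¹ • bp b₀ k₀ = g⁻¹ • bp b₀ k₀ := eq_inv_smul_iff.2 h2
  have h4 : bp b₀ k₀ ≠ g⁻¹ • bp b₀ k₀ := by
    intro h
    apply hg
    have h5 := mem_of_smul_bp b₀ k₀ hbk g⁻¹ h.symm
    simpa using inv_mem h5
  let x : PairOm b₀ k₀ := ⟨(bp b₀ k₀, g⁻¹ • bp b₀ k₀), h4⟩
  have hx : a • x = x := Subtype.ext (Prod.ext h1 h3)
  refine free_action (fun x : PairOm b₀ k₀ => phi x.1.1.1 x.1.2.1) ?_ a ha1 x hx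
  rintro ⟨⟨⟨⟨v, L⟩, hp⟩, ⟨⟨w, M⟩, hq⟩⟩, hne⟩ s t hs ht
  have hs' : phi (actl b₀ k₀ s (v, L)) (actl b₀ k₀ s (w, M)) ≤ phi (v, L) (w, M) := by
    have := hs
    simp only [pair_smul_fst, pair_smul_snd, ev_smul] at this
    exact this
  have ht' : phi (actl b₀ k₀ t (v, L)) (actl b₀ k₀ t (w, M)) ≤ phi (v, L) (w, M) := by
    have := ht
    simp only [pair_smul_fst, pair_smul_snd, ev_smul] at this
    exact this
  rcases L with _ | ⟨t0, L⟩
  · rcases M with _ | ⟨t1, M⟩
    · have hvw : v ≠ w := by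
        intro h
        subst h
        exact hne rfl
      have c1 := phi_core b₀ k₀ hbk v w hvw s hs'
      have c2 := phi_core b₀ k₀ hbk v w hvw t ht'
      by_cases h : v + w = 0
      · rw [c1.1 h, c2.1 h]
      · rw [c1.2 h, c2.2 h]
    · rw [phi_comm, phi_comm (v, _)] at hs' ht'
      have e1 := eq_of_phi_left b₀ k₀ w t1 M (v, []) (by simp) s hs'
      have e2 := eq_of_phi_left b₀ k₀ w t1 M (v, []) (by simp) t ht'
      exact letter_ext (e1.symm.trans e2)
  · by_cases hlen : M.length ≤ (t0 :: L).length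
    · have e1 := eq_of_phi_left b₀ k₀ v t0 L (w, M) hlen s hs'
      have e2 := eq_of_phi_left b₀ k₀ v t0 L (w, M) hlen t ht'
      exact letter_ext (e1.symm.trans e2)
    · rcases M with _ | ⟨t1, M⟩
      · simp at hlen
      · rw [phi_comm, phi_comm (v, _)] at hs' ht'
        have e1 := eq_of_phi_left b₀ k₀ w t1 M (v, t0 :: L) (by simp at hlen ⊢; omega) s hs'
        have e2 := eq_of_phi_left b₀ k₀ w t1 M (v, t0 :: L) (by simp at hlen ⊢; omega) t ht'
        exact letter_ext (e1.symm.trans e2)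

end Helper85.NS
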