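import Pool.Agent.Helper85.NS.Push

/-!
Malnormality of a factor of a free product with amalgamation.
-/

namespace Helper85.NS

open Monoid Function

section reduced

variable {ι : Type*} {H : Type*} {G : ι → Type*} [Group H] [∀ i, Group (G i)]
  (φ : ∀ i, H →* G i)

/-- products of nonempty reduced words with given first and last index -/
inductive RW : ι → ι → PushoutI φ → Prop
  | single (i : ι) (g : G i) (hg : g ∉ (φ i).range) : RW i i (PushoutI.of i g)
  | cons (i k j : ι) (g : G i) (hg : g ∉ (φ i).range) (x : PushoutI φ) (h : RW k j x)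
      (hik : i ≠ k) : RW i j (PushoutI.of i g * x)

variable {φ}

theorem ne_one_of_notMem {i : ι} {g : G i} (hg : g ∉ (φ i).range) : g ≠ 1 := by
  rintro rfl
  exact hg (one_mem _)

theorem RW.word {i j : ι} {x : PushoutI φ} (h : RW φ i j x) :
    ∃ w : CoprodI.Word G, PushoutI.Reduced φ w ∧ PushoutI.ofCoprodI w.prod = x ∧
      w.fstIdx = some i := by
  classical
  induction h with
  | single i g hg =>
    have h1 := ne_one_of_notMem hg
    refine ⟨CoprodI.Word.cons g CoprodI.Word.empty (by simp [CoprodI.Word.fstIdx,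
      CoprodI.Word.empty]) h1, ?_, ?_, ?_⟩
    · intro l hl
      simp only [CoprodI.Word.cons, CoprodI.Word.empty, List.mem_singleton] at hl
      subst hl
      exact hg
    · rw [CoprodI.Word.prod_cons]
      simp
    · simp
  | cons i k j g hg x h hik ih =>
    obtain ⟨w, hw, hx, hf⟩ := ih
    have h1 := ne_one_of_notMem hg
    have h2 : w.fstIdx ≠ some i := by
      rw [hf]
      intro hc
      exact hik (Option.some.inj hc).symm
    refine ⟨CoprodI.Word.cons g w h2 h1, ?_, ?_, ?_⟩
    · intro l hl
      simp only [CoprodI.Word.cons, List.mem_cons] at hl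
      rcases hl with rfl | hl
      · exact hg
      · exact hw l hl
    · rw [CoprodI.Word.prod_cons, map_mul, hx, PushoutI.ofCoprodI_of]
    · simp

theorem RW.notMem_base (hφ : ∀ i, Injective (φ i)) {i j : ι} {x : PushoutI φ} (h : RW φ i j x) :
    x ∉ (PushoutI.base φ).range := by
  intro hx
  obtain ⟨w, hw, hwx, hf⟩ := h.word
  have h1 := hw.eq_empty_of_mem_range hφ (by rw [hwx]; exact hx)
  rw [h1] at hf
  simp [CoprodI.Word.fstIdx, CoprodI.Word.empty] at hf

theorem RW.mul {i j k l : ι} {x y : PushoutI φ} (hx : RW φ i j x) (hy : RW φ k l y)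
    (hjk : j ≠ k) : RW φ i l (x * y) := by
  induction hx with
  | single i g hg => exact RW.cons i k l g hg y hy hjk
  | cons i m j g hg x h him ih =>
    rw [mul_assoc]
    exact RW.cons i m l g hg _ (ih hjk) him

theorem inv_notMem {i : ι} {g : G i} (hg : g ∉ (φ i).range) : g⁻¹ ∉ (φ i).range := by
  intro h
  exact hg (by simpa using inv_mem h)

theorem RW.inv {i j : ι} {x : PushoutI φ} (hx : RW φ i j x) : RW φ j i x⁻¹ := by
  induction hx with
  | single i g hg =>
    rw [← map_inv]
    exact RW.single i _ (inv_notMem hg)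
  | cons i m j g hg x h him ih =>
    rw [mul_inv_rev, ← map_inv]
    exact ih.mul (RW.single i _ (inv_notMem hg)) (Ne.symm him)

theorem RW.of_eq (hφ : ∀ i, Injective (φ i)) {i j t : ι} {x : PushoutI φ} (hx : RW φ i j x)
    {y : G t} (h : x = PushoutI.of t y) : j = t := by
  by_contra hne
  have hy : y ∉ (φ t).range := by
    rintro ⟨c, rfl⟩
    apply hx.notMem_base hφ
    rw [h]
    exact ⟨c, (PushoutI.of_apply_eq_base φ t c).symm⟩
  have h1 := hx.mul (RW.single (φ := φ) t y⁻¹ (inv_notMem hy)) hne
  apply h1.notMem_base hφ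
  rw [h, map_inv, mul_inv_cancel]
  exact one_mem _

theorem base_mul_of (c : H) (i : ι) (g : G i) :
    PushoutI.base φ c * PushoutI.of i g = PushoutI.of i (φ i c * g) := by
  rw [map_mul, PushoutI.of_apply_eq_base]

theorem RW.base_mul {i j : ι} {x : PushoutI φ} (hx : RW φ i j x) (c : H) :
    RW φ i j (PushoutI.base φ c * x) := by
  have key : ∀ (i : ι) (g : G i), g ∉ (φ i).range → φ i c * g ∉ (φ i).range := by
    intro i g hg h
    apply hg
    have := mul_mem (inv_mem (⟨c, rfl⟩ : φ i c ∈ (φ i).range)) h
    simpa using this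
  cases hx with
  | single _ g hg =>
    rw [base_mul_of]
    exact RW.single _ _ (key _ _ hg)
  | cons _ k _ g hg x h hik =>
    rw [← mul_assoc, base_mul_of]
    exact RW.cons _ _ _ _ (key _ _ hg) _ h hik

/-- normal forms exist -/
theorem exists_RW (x : PushoutI φ) :
    x ∈ (PushoutI.base φ).range ∨ ∃ i j, RW φ i j x := by
  set N : PushoutI φ → Prop := fun y => y ∈ (PushoutI.base φ).range ∨ ∃ i j, RW φ i j y with hN
  have hbase : ∀ c y, N y → N (PushoutI.base φ c * y) := by
    rintro c y (⟨d, rfl⟩ | ⟨i, j, h⟩)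
    · left
      exact ⟨c * d, map_mul _ _ _⟩
    · right
      exact ⟨i, j, h.base_mul c⟩
  have hofone : ∀ (i : ι) (g : G i), N (PushoutI.of i g) := by
    intro i g
    by_cases hg : g ∈ (φ i).range
    · obtain ⟨c, rfl⟩ := hg
      left
      exact ⟨c, (PushoutI.of_apply_eq_base φ i c).symm⟩
    · right
      exact ⟨i, i, RW.single i g hg⟩
  have hof : ∀ (i : ι) (g : G i) y, N y → N (PushoutI.of i g * y) := by
    rintro i g y (⟨c, rfl⟩ | ⟨k, j, h⟩)
    · have e : (PushoutI.of i g : PushoutI φ) * PushoutI.base φ c = PushoutI.of i (g * φ i c) := by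
        rw [map_mul, PushoutI.of_apply_eq_base]
      rw [e]
      exact hofone i _
    · by_cases hg : g ∈ (φ i).range
      · obtain ⟨c, rfl⟩ := hg
        rw [PushoutI.of_apply_eq_base]
        exact hbase c y (Or.inr ⟨k, j, h⟩)
      · by_cases hik : i = k
        · subst hik
          cases h with
          | single _ g' hg' =>
            rw [← map_mul]
            exact hofone i _
          | cons _ m _ g' hg' x' h' him =>
            rw [← mul_assoc, ← map_mul]
            by_cases hgg : g * g' ∈ (φ i).range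
            · obtain ⟨c, hc⟩ := hgg
              rw [← hc, PushoutI.of_apply_eq_base]
              exact hbase c x' (Or.inr ⟨m, j, h'⟩)
            · exact Or.inr ⟨i, j, RW.cons i m j _ hgg x' h' him⟩
        · exact Or.inr ⟨i, j, RW.cons i k j g hg y h hik⟩
  have hall : ∀ x : PushoutI φ, ∀ y, N y → N (x * y) := by
    intro x
    induction x using PushoutI.induction_on with
    | of i g => exact hof i g
    | base c => exact hbase c
    | mul x x' ih ih' =>
      intro y hy
      rw [mul_assoc]
      exact ih _ (ih' _ hy)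
  have h1 := hall x 1 (Or.inl (one_mem _))
  rw [mul_one] at h1
  exact h1

end reduced

section two

variable {H : Type*} {G : Bool → Type*} [Group H] [∀ i, Group (G i)] {φ : ∀ i, H →* G i}

theorem RW.strip {i j : Bool} {x : PushoutI φ} (hx : RW φ i j x) :
    x ∈ (PushoutI.of (φ := φ) true).range ∨
      ∃ y ∈ (PushoutI.of (φ := φ) true).range, ∃ h, RW φ false j h ∧ x = y * h := by
  cases i with
  | false => exact Or.inr ⟨1, one_mem _, x, hx, (one_mul x).symm⟩
  | true =>
    cases hx with
    | single _ g hg => exact Or.inl ⟨g, rfl⟩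
    | cons _ k _ g hg x' h hik =>
      cases k with
      | false => exact Or.inr ⟨_, ⟨g, rfl⟩, x', h, rfl⟩
      | true => exact absurd rfl hik

theorem malnormal_of_true (hφ : ∀ i, Injective (φ i)) (hm : Malnormal (φ false).range) :
    Malnormal (PushoutI.of (φ := φ) true).range := by
  intro g hg a ha hga
  have hbT : ∀ c, PushoutI.base φ c ∈ (PushoutI.of (φ := φ) true).range := fun c =>
    ⟨φ true c, PushoutI.of_apply_eq_base φ true c⟩
  -- the reduced form of `g`
  obtain ⟨x, hx, k, y, hy, hk, hgk⟩ : ∃ x ∈ (PushoutI.of (φ := φ) true).range, ∃ k, ∃ y ∈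
      (PushoutI.of (φ := φ) true).range, RW φ false false k ∧ g = x * k * y := by
    rcases exists_RW g with ⟨c, rfl⟩ | ⟨i, j, h⟩
    · exact absurd (hbT c) hg
    · rcases h.strip with h1 | ⟨x, hx, h', hh', hgx⟩
      · exact absurd h1 hg
      · rcases hh'.inv.strip with h2 | ⟨z, hz, k, hk, hkz⟩
        · exfalso
          apply hg
          rw [hgx]
          exact mul_mem hx (by simpa using inv_mem h2)
        · refine ⟨x, hx, k⁻¹, z⁻¹, inv_mem hz, hk.inv, ?_⟩
          have : h' = k⁻¹ * z⁻¹ := by
            rw [← inv_inv h', hkz, mul_inv_rev]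
          rw [hgx, this, mul_assoc]
  -- conjugate
  set a' := y * a * y⁻¹ with ha'
  have ha'T : a' ∈ (PushoutI.of (φ := φ) true).range := mul_mem (mul_mem hy ha) (inv_mem hy)
  have hka : k * a' * k⁻¹ ∈ (PushoutI.of (φ := φ) true).range := by
    have e : k * a' * k⁻¹ = x⁻¹ * (g * a * g⁻¹) * x := by
      rw [ha', hgk]
      group
    rw [e]
    exact mul_mem (mul_mem (inv_mem hx) hga) hx
  suffices h1 : a' = 1 by
    have e : a = y⁻¹ * a' * y := by
      rw [ha']
      group
    rw [e, h1]
    group
  have hcontra : ∀ z, RW φ false false z → z ∉ (PushoutI.of (φ := φ) true).range := by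
    rintro z hz ⟨t, ht⟩
    have := hz.of_eq hφ ht.symm
    exact absurd this (by decide)
  obtain ⟨α, hα⟩ := ha'T
  by_cases hαm : α ∈ (φ true).range
  · obtain ⟨c, rfl⟩ := hαm
    rw [PushoutI.of_apply_eq_base] at hα
    -- conjugation by a letter of index `false`
    have hconj : ∀ b : G false, b ∉ (φ false).range →
        b⁻¹ * φ false c * b ∈ (φ false).range → c = 1 := by
      intro b hb h1
      have h2 := hm b⁻¹ (inv_notMem hb) (φ false c) ⟨c, rfl⟩ (by rw [inv_inv]; exact h1)
      exact hφ false (h2.trans (map_one _).symm)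
    have hc : c = 1 := by
      by_contra hc
      have hk' := hk.inv
      have hconv : ∀ b : G false, (PushoutI.of (φ := φ) false b)⁻¹ * PushoutI.base φ c *
          PushoutI.of false b = PushoutI.of false (b⁻¹ * φ false c * b) := by
        intro b
        rw [map_mul, map_mul, map_inv, PushoutI.of_apply_eq_base]
      generalize hkk : k⁻¹ = k' at hk' hka
      have hk2 : k = k'⁻¹ := by rw [← hkk, inv_inv]
      rw [hk2, ← hα] at hka
      cases hk' with
      | single _ b hb =>
        rw [hconv] at hka
        have hd : b⁻¹ * φ false c * b ∉ (φ false).range := fun h1 => hc (hconj b hb h1)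
        exact hcontra _ (RW.single false _ hd) hka
      | cons _ m _ b hb z hz hbm =>
        have hm' : m = true := by
          cases m with
          | false => exact absurd rfl hbm
          | true => rfl
        subst hm'
        have e : (PushoutI.of (φ := φ) false b * z)⁻¹ * PushoutI.base φ c *
            (PushoutI.of false b * z) = z⁻¹ * (PushoutI.of false (b⁻¹ * φ false c * b) * z) := by
          rw [← hconv]
          group
        rw [e] at hka
        have hd : b⁻¹ * φ false c * b ∉ (φ false).range := fun h1 => hc (hconj b hb h1)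
        have h3 : RW φ false false (z⁻¹ * (PushoutI.of false (b⁻¹ * φ false c * b) * z)) :=
          hz.inv.mul ((RW.single false _ hd).mul hz (by decide)) (by decide)
        exact hcontra _ h3 hka
    rw [← hα, hc, map_one]
  · exfalso
    have h1 : RW φ true true a' := by
      rw [← hα]
      exact RW.single true α hαm
    have h2 := (hk.mul h1 (by decide)).mul hk.inv (by decide)
    exact hcontra _ h2 hka

end two

/-- NS-22: if the edge group is malnormal in the second factor then the first factor is malnormal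
in the amalgam. -/
theorem malnormal_inl {A Γ₁ Γ₂ : Type} [Group A] [Group Γ₁] [Group Γ₂] (i₁ : A →* Γ₁)
    (i₂ : A →* Γ₂) (hi₁ : Injective i₁) (hi₂ : Injective i₂) (h : Malnormal i₂.range) :
    Malnormal (Amalgam.inl i₁ i₂).range := by
  have hφ : ∀ b, Injective (famHom i₁ i₂ b) := by
    intro b
    cases b
    · exact hi₂
    · exact hi₁
  have hM : Malnormal (PushoutI.of (φ := famHom i₁ i₂) true).range :=
    malnormal_of_true hφ h
  have htr : ∀ x, toPush i₁ i₂ (Amalgam.inl i₁ i₂ x) = PushoutI.of (φ := famHom i₁ i₂) true x :=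
    fun x => rfl
  have hmem : ∀ z, toPush i₁ i₂ z ∈ (PushoutI.of (φ := famHom i₁ i₂) true).range →
      z ∈ (Amalgam.inl i₁ i₂).range := by
    rintro z ⟨t, ht⟩
    refine ⟨t, toPush_injective i₁ i₂ ?_⟩
    rw [htr, ← ht]
  rintro g hg a ⟨s, rfl⟩ ⟨t, ht⟩
  have h1 := hM (toPush i₁ i₂ g) (fun hc => hg (hmem g hc)) (toPush i₁ i₂ (Amalgam.inl i₁ i₂ s))
    ⟨s, (htr s).symm⟩ ⟨t, by rw [← htr, ht, map_mul, map_mul, map_inv]⟩
  exact toPush_injective i₁ i₂ (h1.trans (map_one _).symm)

end Helper85.NS
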