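import Pool.Agent.Helper85.NS.Crit2
import Pool.Agent.Helper85.NS.Mal
import Pool.Agent.Helper85.NS.MalAm

/-!
The range of `wpq` is malnormal.
-/

namespace Helper85.NS

open Monoid Function

theorem psi_injective {α : Type} [DecidableEq α] (b₀ k₀ : α) (hbk : b₀ ≠ k₀) (p q : ℕ) :
    Injective (psi b₀ k₀ p q (MonoidHom.id (FreeGroup α))) := by
  let φ : Sm b₀ k₀ p q (MonoidHom.id (FreeGroup α)) →* FreeGroup α :=
    Amalgam.lift _ _ (wpq b₀ k₀ p q) (kh b₀ k₀ p q) (fun v => (kh_wmap b₀ k₀ hbk p q v).symm)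
  have h : φ.comp (psi b₀ k₀ p q (MonoidHom.id (FreeGroup α))) = MonoidHom.id _ := by
    ext j
    by_cases hj : j = k₀
    · subst hj
      have h1 : kh b₀ j p q (FreeGroup.of false) = kap b₀ j p q := by simp [kh]
      simp only [MonoidHom.comp_apply, psi, FreeGroup.lift_apply_of, if_true, map_mul, map_inv,
        φ, Amalgam.lift_inl, Amalgam.lift_inr, MonoidHom.id_apply, h1, wpq_of_k]
      group
    · rw [MonoidHom.comp_apply, psi_of_ne _ _ _ _ _ _ hj]
      simp only [φ, Amalgam.lift_inl, MonoidHom.id_apply]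
      simp [wpq, hj]
  exact LeftInverse.injective (g := φ) fun x => DFunLike.congr_fun h x

theorem wpq_malnormal {α : Type} [DecidableEq α] (b₀ k₀ : α) (hbk : b₀ ≠ k₀) (p q : ℕ)
    (hp : 0 < p) (hq : 0 < q) (hinj : Injective (wpq b₀ k₀ p q)) :
    Malnormal (wpq b₀ k₀ p q).range := by
  have hw : Injective (wmap true false) := by
    intro v w hvw
    apply pw_injective b₀ k₀ hbk p q hp hq
    apply hinj
    rw [← kh_wmap b₀ k₀ hbk, ← kh_wmap b₀ k₀ hbk, hvw]
  have hm := malnormal_inl ((MonoidHom.id (FreeGroup α)).comp (pw b₀ k₀ p q)) (wmap true false)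
    (pw_injective b₀ k₀ hbk p q hp hq) hw (wmap_malnormal true false (by decide))
  have hψ := psi_injective b₀ k₀ hbk p q
  have hψw := psi_wpq b₀ k₀ p q (MonoidHom.id (FreeGroup α)) hbk
  rintro g hg _ ⟨a, rfl⟩ ⟨a', ha'⟩
  have h1 : psi b₀ k₀ p q (MonoidHom.id (FreeGroup α)) g ∉ (Amalgam.inl
      ((MonoidHom.id (FreeGroup α)).comp (pw b₀ k₀ p q)) (wmap true false)).range := by
    rintro ⟨v, hv⟩
    refine hg ⟨v, hψ ?_⟩
    rw [hψw]
    exact hv
  have h2 := hm _ h1 (psi b₀ k₀ p q (MonoidHom.id (FreeGroup α)) (wpq b₀ k₀ p q a))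
    ⟨a, (hψw a).symm⟩ (by
      rw [← map_inv, ← map_mul, ← map_mul, ← ha']
      exact ⟨a', (hψw a').symm⟩)
  rw [← map_one (psi b₀ k₀ p q (MonoidHom.id (FreeGroup α)))] at h2
  exact hψ h2

end Helper85.NS
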