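import Pool.Agent.Helper85.NS.Schottky
import Pool.Agent.Helper85.NS.Crit2
import Pool.Agent.Helper85.NS.Mal2
import Pool.Agent.Helper85.NS.LoxSep
import Pool.Agent.Helper85.NS.GF
import Pool.Agent.Helper85.NS.Disc3
import Pool.Agent.Helper85.NS.Pred

/-!
Finitely presented nonseparable subgroups of amalgams of hyperbolic 3-manifold groups.
-/

namespace Helper85.NS

open Matrix Filter Topology Function

theorem toPSL_surjective : Surjective toPSL := QuotientGroup.mk'_surjective _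

theorem toPSL_eq_iff (g h : SL2) : toPSL g = toPSL h ↔ g = h ∨ g = -h := by
  have h1 : toPSL g = toPSL h ↔ toPSL (g * h⁻¹) = 1 := by
    rw [map_mul, map_inv, mul_inv_eq_one]
  rw [h1, toPSL_eq_one_iff, mul_inv_eq_one]
  refine or_congr Iff.rfl ⟨fun h2 => ?_, fun h2 => ?_⟩
  · rw [mul_inv_eq_iff_eq_mul] at h2
    rw [h2]
    simp
  · rw [h2]
    simp

theorem lox_neg (g : SL2) (hg : Lox g) : Lox (-g) := by
  rintro ⟨t, h1, h2⟩
  refine hg ⟨-t, by rwa [abs_neg], ?_⟩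
  rw [Matrix.SpecialLinearGroup.coe_neg, Matrix.trace_neg] at h2
  rw [Complex.ofReal_neg, ← h2, neg_neg]

theorem loxodromic_of_lox (g : SL2) (hg : Lox g) : Loxodromic (toPSL g) := by
  intro x hx
  rcases (toPSL_eq_iff x g).mp hx with h | h
  · rwa [h]
  · rw [h]
    exact lox_neg g hg

theorem not_lox_one : ¬ Lox 1 := by
  intro h
  exact h ⟨2, by norm_num, by simp⟩

theorem toPSL_ne_one (g : SL2) (hg : Lox g) : toPSL g ≠ 1 := by
  intro h
  have h1 := loxodromic_of_lox g hg 1 (by rw [h, map_one])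
  exact not_lox_one h1

/-- The two cases for the loxodromic element. -/
theorem exists_start {r : ℕ} (Γ : Subgroup PSL2) (hd : Discrete Γ)
    (ht : ∀ g ∈ Γ, ∀ n : ℕ, 0 < n → g ^ n = 1 → g = 1)
    (hna : ∃ g ∈ Γ, ∃ h ∈ Γ, g * h ≠ h * g) :
    ∃ (x : SL2) (hx : toPSL x ∈ Γ) (g : Fin r → SL2) (hg : ∀ i, toPSL (g i) ∈ Γ), Lox x ∧
      ((∃ ρ : Γ →* FreeGroup (Fin r), Surjective ρ ∧ ¬ Injective ρ) →
        ∃ ρ : Γ →* FreeGroup (Fin r), ρ ⟨toPSL x, hx⟩ = 1 ∧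
          ∀ i, ρ ⟨toPSL (g i), hg i⟩ = FreeGroup.of i) := by
  by_cases h : ∃ ρ : Γ →* FreeGroup (Fin r), Surjective ρ ∧ ¬ Injective ρ
  · obtain ⟨ρ, hρ, hρ'⟩ := h
    have hM1 : ρ.ker.map Γ.subtype ≠ ⊥ := by
      intro h1
      apply hρ'
      rw [← MonoidHom.ker_eq_bot_iff]
      exact (Subgroup.map_eq_bot_iff_of_injective _ Γ.subtype_injective).mp h1
    obtain ⟨x, hx, hxl⟩ := exists_lox_normal hd ht hna (ρ.ker.map Γ.subtype)
      (by
        rintro _ ⟨g, -, rfl⟩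
        exact g.2)
      (by
        rintro g hg _ ⟨m, hm, rfl⟩
        refine ⟨⟨g, hg⟩ * m * ⟨g, hg⟩⁻¹, ?_, rfl⟩
        exact (MonoidHom.normal_ker ρ).conj_mem m hm ⟨g, hg⟩) hM1
    obtain ⟨x', hx', hx''⟩ := hx
    have hxΓ : toPSL x ∈ Γ := by
      rw [← hx'']
      exact x'.2
    choose g₀ hg₀ using fun i : Fin r => hρ (FreeGroup.of i)
    choose g hg using fun i : Fin r => toPSL_surjective (g₀ i : PSL2)
    refine ⟨x, hxΓ, g, fun i => by rw [hg]; exact (g₀ i).2, hxl, fun _ => ⟨ρ, ?_, fun i => ?_⟩⟩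
    · have h1 : (⟨toPSL x, hxΓ⟩ : Γ) = x' := Subtype.ext hx''.symm
      rw [h1]
      exact hx'
    · rw [← hg₀ i]
      congr 1
      exact Subtype.ext (hg i)
  · obtain ⟨x, hx, hxl⟩ := exists_lox hd ht hna
    exact ⟨x, hx, fun _ => 1, fun _ => by rw [map_one]; exact Γ.one_mem, hxl,
      fun h1 => absurd h1 h⟩

theorem free_zpow_eq_one {α : Type} (v : FreeGroup α) (hv : v ≠ 1) (q : ℤ) (h : v ^ q = 1) :
    q = 0 := by
  classical
  by_contra hq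
  exact hv ((IsMulTorsionFree.zpow_eq_one_iff_left hq).mp h)

theorem malnormal_of_retraction {r : ℕ} {b₀ k₀ : Fin r} (hbk : b₀ ≠ k₀) {p' q' : ℕ}
    (hp' : 0 < p') (hq' : 0 < q') {Γ : Subgroup PSL2}
    (hd : Discrete Γ) (ht : ∀ g ∈ Γ, ∀ n : ℕ, 0 < n → g ^ n = 1 → g = 1)
    (y : FreeGroup (Fin r) →* Γ) (e : FreeGroup (Fin r) ≃* FreeGroup (Fin r))
    (i₂ : FreeGroup (Fin r) →* Γ) (hi₂ : i₂ = (y.comp (wpq b₀ k₀ p' q')).comp e.symm.toMonoidHom)
    (hinj : Injective i₂) (hlox : ∀ a, a ≠ 1 → Loxodromic (i₂ a))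
    (ρ : Γ →* FreeGroup (Fin r)) (hρ : ∀ v, ρ (y v) = v) : Malnormal i₂.range := by
  have hρi (a : FreeGroup (Fin r)) : ρ (i₂ a) = wpq b₀ k₀ p' q' (e.symm a) := by
    rw [hi₂]
    exact hρ _
  have hinjw : Injective (wpq b₀ k₀ p' q') := by
    intro a a' haa
    have h1 : i₂ (e a) = i₂ (e a') := by
      rw [hi₂]
      simp [haa]
    exact e.injective (hinj h1)
  have hρinj : ∀ a a' : FreeGroup (Fin r), ρ (i₂ a) = ρ (i₂ a') → a = a' := by
    intro a a' haa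
    rw [hρi, hρi] at haa
    exact e.symm.injective (hinjw haa)
  rintro g hg _ ⟨a, rfl⟩ ⟨a', ha'⟩
  by_contra hne
  have ha1 : a ≠ 1 := by
    rintro rfl
    exact hne (map_one _)
  -- the image of `g` is in the range of `wpq`
  have h1 : ρ g ∈ (wpq b₀ k₀ p' q').range := by
    by_contra h2
    have h3 := wpq_malnormal b₀ k₀ hbk p' q' hp' hq' hinjw (ρ g) h2 (ρ (i₂ a)) ⟨_, (hρi a).symm⟩
      (by
        rw [← map_mul, ← map_inv, ← map_mul, ← ha', hρi]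
        exact ⟨_, rfl⟩)
    rw [← map_one ρ, ← map_one i₂] at h3
    exact ha1 (hρinj _ _ h3)
  obtain ⟨c, hc⟩ := h1
  have hc' : ρ (i₂ (e c)) = ρ g := by
    rw [hρi, MulEquiv.symm_apply_apply, hc]
  -- `g' = (i₂ (e c))⁻¹ * g` is in the kernel and commutes with `i₂ a`
  set g' : Γ := (i₂ (e c))⁻¹ * g with hg'
  have hg'1 : ρ g' = 1 := by
    rw [hg', map_mul, map_inv, hc', inv_mul_cancel]
  have h4 : g' * i₂ a * g'⁻¹ = i₂ ((e c)⁻¹ * a' * e c) := by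
    rw [hg', map_mul, map_mul, map_inv, ha']
    group
  have h5 : (e c)⁻¹ * a' * e c = a := by
    apply hρinj
    rw [← h4, map_mul, map_mul, hg'1, map_inv, hg'1]
    simp
  rw [h5] at h4
  have h6 : i₂ a * g' = g' * i₂ a := by
    rw [mul_inv_eq_iff_eq_mul] at h4
    exact h4.symm
  obtain ⟨X, hX⟩ := toPSL_surjective (i₂ a : PSL2)
  obtain ⟨Y, hY⟩ := toPSL_surjective (g' : PSL2)
  obtain ⟨p, hp, q, hpq⟩ := exists_pow_eq_zpow hd X (hlox a ha1 X hX) (by rw [hX]; exact (i₂ a).2)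
    Y (by rw [hY]; exact g'.2) (by rw [hX, hY, ← Subgroup.coe_mul, ← Subgroup.coe_mul, h6])
  rw [hX, hY, ← Subgroup.coe_zpow, ← Subgroup.coe_pow] at hpq
  have h7 : g' ^ p = (i₂ a) ^ q := Subtype.ext hpq
  have h8 : (ρ (i₂ a)) ^ q = 1 := by
    rw [← map_zpow, ← h7, map_pow, hg'1, one_pow]
  have h9 : q = 0 := free_zpow_eq_one _ (fun h => ha1 (hρinj _ _ (by rw [h, map_one, map_one]))) q h8
  rw [h9, zpow_zero] at h7
  have h10 : (g' : PSL2) = 1 := ht _ g'.2 p hp (by rw [← Subgroup.coe_pow, h7]; rfl)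
  have h11 : g' = 1 := Subtype.ext h10
  rw [hg', inv_mul_eq_one] at h11
  exact hg ⟨e c, h11⟩

/-- The exponents. -/
theorem exists_exponents {Γ : Type} [Group Γ] {Γ' : Subgroup Γ} (χ : Γ' →* Multiplicative ℤ)
    (x z : Γ) (m : ℕ) (hm : 0 < m) (hx : x ^ m ∈ Γ') (hz : z ^ m ∈ Γ') (h1 : χ ⟨_, hx⟩ ≠ 1)
    (h2 : χ ⟨_, hz⟩ ≠ 1) :
    ∃ (c : Bool) (p q : ℕ), 0 < p ∧ 0 < q ∧ ∃ (hx' : x ^ p ∈ Γ')
      (hz' : (cond c z z⁻¹) ^ q ∈ Γ'), χ ⟨_, hz'⟩ = χ ⟨_, hx'⟩ ∧ χ ⟨_, hx'⟩ ≠ 1 := by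
  set u : ℤ := (χ ⟨_, hx⟩).toAdd with hu
  set v : ℤ := (χ ⟨_, hz⟩).toAdd with hv
  have hu0 : u ≠ 0 := fun h => h1 (Multiplicative.toAdd.injective h)
  have hv0 : v ≠ 0 := fun h => h2 (Multiplicative.toAdd.injective h)
  have hp : 0 < m * v.natAbs := Nat.mul_pos hm (Int.natAbs_pos.mpr hv0)
  have hq : 0 < m * u.natAbs := Nat.mul_pos hm (Int.natAbs_pos.mpr hu0)
  have hxp : x ^ (m * v.natAbs) ∈ Γ' := by
    rw [pow_mul]
    exact Γ'.pow_mem hx _
  have hzq : z ^ (m * u.natAbs) ∈ Γ' := by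
    rw [pow_mul]
    exact Γ'.pow_mem hz _
  have hχx : (χ ⟨_, hxp⟩).toAdd = v.natAbs * u := by
    have h3 : (⟨_, hxp⟩ : Γ') = ⟨_, hx⟩ ^ v.natAbs := Subtype.ext (by
      rw [Subgroup.coe_pow, ← pow_mul])
    rw [h3, map_pow, toAdd_pow, hu, nsmul_eq_mul]
  have hχz : (χ ⟨_, hzq⟩).toAdd = u.natAbs * v := by
    have h3 : (⟨_, hzq⟩ : Γ') = ⟨_, hz⟩ ^ u.natAbs := Subtype.ext (by
      rw [Subgroup.coe_pow, ← pow_mul])
    rw [h3, map_pow, toAdd_pow, hv, nsmul_eq_mul]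
  have hne : χ ⟨_, hxp⟩ ≠ 1 := by
    intro h
    rw [h, toAdd_one] at hχx
    rcases mul_eq_zero.mp hχx.symm with h3 | h3
    · exact hv0 (Int.natAbs_eq_zero.mp (by exact_mod_cast h3))
    · exact hu0 h3
  rcases lt_or_gt_of_ne (mul_ne_zero hu0 hv0) with h | h
  · -- different signs
    refine ⟨false, m * v.natAbs, m * u.natAbs, hp, hq, hxp, ?_, ?_, hne⟩
    · rw [cond_false, inv_pow]
      exact Γ'.inv_mem hzq
    · have h3 : ∀ h4 : (cond false z z⁻¹) ^ (m * u.natAbs) ∈ Γ', (⟨_, h4⟩ : Γ') = ⟨_, hzq⟩⁻¹ := by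
        intro h4
        apply Subtype.ext
        rw [Subgroup.coe_inv]
        simp
      rw [h3, map_inv]
      apply Multiplicative.toAdd.injective
      rw [toAdd_inv, hχx, hχz]
      rcases lt_or_gt_of_ne hu0 with h5 | h5
      · have h6 : 0 < v := by
          by_contra h7
          push Not at h7
          nlinarith
        rw [Int.ofNat_natAbs_of_nonpos h5.le, Int.natAbs_of_nonneg h6.le]
        ring
      · have h6 : v < 0 := by
          by_contra h7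
          push Not at h7
          nlinarith
        rw [Int.ofNat_natAbs_of_nonpos h6.le, Int.natAbs_of_nonneg h5.le]
        ring
  · refine ⟨true, m * v.natAbs, m * u.natAbs, hp, hq, hxp, hzq, ?_, hne⟩
    apply Multiplicative.toAdd.injective
    rw [hχx]
    refine Eq.trans ?_ (Eq.trans (b := u.natAbs * v) hχz ?_)
    · rfl
    rcases lt_or_gt_of_ne hu0 with h5 | h5
    · have h6 : v < 0 := by
        by_contra h7
        push Not at h7
        nlinarith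
      rw [Int.ofNat_natAbs_of_nonpos h5.le, Int.ofNat_natAbs_of_nonpos h6.le]
      ring
    · have h6 : 0 < v := by
        by_contra h7
        push Not at h7
        nlinarith
      rw [Int.natAbs_of_nonneg h5.le, Int.natAbs_of_nonneg h6.le]
      ring

/-- The automorphism which inverts a generator (or not). -/
theorem exists_flip {r : ℕ} (k : Fin r) (c : Bool) :
    ∃ f : FreeGroup (Fin r) ≃* FreeGroup (Fin r), (∀ i, i ≠ k → f (FreeGroup.of i) = FreeGroup.of i) ∧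
      f (FreeGroup.of k) = cond c (FreeGroup.of k) (FreeGroup.of k)⁻¹ := by
  cases c
  · let f : FreeGroup (Fin r) →* FreeGroup (Fin r) :=
      FreeGroup.lift fun i => if i = k then (FreeGroup.of k)⁻¹ else FreeGroup.of i
    have hf : f.comp f = MonoidHom.id _ := by
      ext i
      by_cases hi : i = k
      · subst hi
        simp [f]
      · simp [f, hi]
    refine ⟨MonoidHom.toMulEquiv f f hf hf, fun i hi => ?_, ?_⟩
    · simp [f, hi]
    · simp [f]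
  · exact ⟨MulEquiv.refl _, fun i _ => rfl, rfl⟩

theorem Detects.common {Γ : Type} [Group Γ] {Γ' : Subgroup Γ} {χ : Γ' →* Multiplicative ℤ}
    {x z : Γ} (hx : Detects χ x) (hz : Detects χ z) :
    ∃ (m : ℕ) (hx : x ^ m ∈ Γ') (hz : z ^ m ∈ Γ'), 0 < m ∧ χ ⟨_, hx⟩ ≠ 1 ∧ χ ⟨_, hz⟩ ≠ 1 := by
  obtain ⟨m, hm, h1⟩ := hx
  obtain ⟨n, hn, h2⟩ := hz
  have hm0 : 0 < m := by
    rcases Nat.eq_zero_or_pos m with h | h
    · exfalso
      apply h1
      rw [← map_one χ]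
      congr 1
      apply Subtype.ext
      simp [h]
    · exact h
  have hn0 : 0 < n := by
    rcases Nat.eq_zero_or_pos n with h | h
    · exfalso
      apply h2
      rw [← map_one χ]
      congr 1
      apply Subtype.ext
      simp [h]
    · exact h
  have h3 : x ^ (m * n) ∈ Γ' := by
    rw [pow_mul]
    exact Γ'.pow_mem hm _
  have h4 : z ^ (m * n) ∈ Γ' := by
    rw [mul_comm, pow_mul]
    exact Γ'.pow_mem hn _
  refine ⟨m * n, h3, h4, Nat.mul_pos hm0 hn0, ?_, ?_⟩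
  · have h5 : (⟨_, h3⟩ : Γ') = ⟨_, hm⟩ ^ n := Subtype.ext (by
      rw [Subgroup.coe_pow, ← pow_mul])
    rw [h5, map_pow]
    intro h6
    exact h1 ((pow_eq_one_iff_left hn0.ne').mp h6)
  · have h5 : (⟨_, h4⟩ : Γ') = ⟨_, hn⟩ ^ m := Subtype.ext (by
      rw [Subgroup.coe_pow, ← pow_mul, mul_comm n m])
    rw [h5, map_pow]
    intro h6
    exact h2 ((pow_eq_one_iff_left hm0.ne').mp h6)

theorem main (r : ℕ) {Γ₁ : Type} [Group Γ₁] (Γ₁' : Subgroup Γ₁)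
    (χ : Γ₁' →* Multiplicative ℤ) (hχ : Group.IsFinitelyPresented χ.ker)
    (i₁ : FreeGroup (Fin r) →* Γ₁) (hi₁ : Injective i₁)
    (h : ∃ (e : FreeGroup (Fin r) ≃* FreeGroup (Fin r)) (b k : Fin r), b ≠ k ∧
      Detects χ (i₁ (e (FreeGroup.of b))) ∧ Detects χ (i₁ (e (FreeGroup.of k))))
    (Γ₂ : Subgroup PSL2) (hd : Discrete Γ₂) (ht : TorsionFree Γ₂) (hna : Nonabelian Γ₂) :
    ∃ i₂ : FreeGroup (Fin r) →* Γ₂, Injective i₂ ∧
      GeometricallyFinite (i₂.range.map Γ₂.subtype) ∧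
      (∀ a, a ≠ 1 → Loxodromic (i₂ a)) ∧
      ((∃ ρ : Γ₂ →* FreeGroup (Fin r), Surjective ρ ∧ ¬ Injective ρ) → Malnormal i₂.range) ∧
      HasNonseparable (Amalgam i₁ i₂) := by
  obtain ⟨e', b₀, k₀, hbk, hdb, hdk⟩ := h
  obtain ⟨m, hb', hk', hm, hχb', hχk'⟩ := hdb.common hdk
  obtain ⟨c, p, q, hp, hq, hb, hk, hχk, hχb⟩ := exists_exponents χ _ _ m hm hb' hk' hχb' hχk'
  obtain ⟨f, hf1, hf2⟩ := exists_flip k₀ c
  obtain ⟨e, he⟩ : ∃ e : FreeGroup (Fin r) ≃* FreeGroup (Fin r), e = f.trans e' := ⟨_, rfl⟩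
  have heb : e (FreeGroup.of b₀) = e' (FreeGroup.of b₀) := by
    rw [he, MulEquiv.trans_apply, hf1 b₀ hbk]
  have hek : i₁ (e (FreeGroup.of k₀)) = cond c (i₁ (e' (FreeGroup.of k₀)))
      (i₁ (e' (FreeGroup.of k₀)))⁻¹ := by
    rw [he, MulEquiv.trans_apply, hf2]
    cases c <;> simp
  rw [← heb] at hb
  simp only [← heb, ← hek] at hk hχk hχb
  obtain ⟨x, hx, g, hg, hxl, hρ⟩ := exists_start (r := r) Γ₂ hd ht hna
  obtain ⟨P, l, hl, hl1, rfl⟩ := exists_diag x hxl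
  obtain ⟨n, h, hh, hs1, hs2⟩ := exists_schottky b₀ k₀ hbk p q hp hq hd ht hna P l hl hl1 hx g hg
  set y₀ : Fin r → SL2 := fun i => g i * (h i * (P * dg l hl * P⁻¹) ^ n * (h i)⁻¹) with hy₀
  have hyΓ (i : Fin r) : toPSL (y₀ i) ∈ Γ₂ := by
    rw [hy₀]
    simp only
    rw [map_mul, map_mul, map_mul, map_inv, map_pow]
    exact Γ₂.mul_mem (hg i) (Γ₂.mul_mem (Γ₂.mul_mem (hh i) (Γ₂.pow_mem hx n)) (Γ₂.inv_mem (hh i)))
  set y : FreeGroup (Fin r) →* Γ₂ := FreeGroup.lift fun i => ⟨toPSL (y₀ i), hyΓ i⟩ with hy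
  have hyv (v : FreeGroup (Fin r)) : (y v : PSL2) = toPSL (FreeGroup.lift y₀ v) := by
    have h1 : Γ₂.subtype.comp y = toPSL.comp (FreeGroup.lift y₀) := by
      ext i
      simp [hy]
    exact DFunLike.congr_fun h1 v
  have hyinj : Injective y := by
    rw [injective_iff_map_eq_one]
    intro v hv
    by_contra h1
    apply toPSL_ne_one _ (lox_of_sep P y₀ hs1 v h1)
    rw [← hyv, hv]
    rfl
  set x₀ : Fin r → SL2 := fun i => FreeGroup.lift y₀ (wpq b₀ k₀ p q (FreeGroup.of i)) with hx₀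
  have hxv (v : FreeGroup (Fin r)) :
      FreeGroup.lift y₀ (wpq b₀ k₀ p q v) = FreeGroup.lift x₀ v := by
    have h1 : (FreeGroup.lift y₀).comp (wpq b₀ k₀ p q) = FreeGroup.lift x₀ := by
      ext i
      simp [hx₀]
    exact DFunLike.congr_fun h1 v
  set i₂ : FreeGroup (Fin r) →* Γ₂ := (y.comp (wpq b₀ k₀ p q)).comp e.symm.toMonoidHom with hi₂
  have hi₂v (a : FreeGroup (Fin r)) : (i₂ a : PSL2) = toPSL (FreeGroup.lift x₀ (e.symm a)) := by
    rw [← hxv, ← hyv]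
    rfl
  have hlox : ∀ a, a ≠ 1 → Loxodromic (i₂ a) := by
    intro a ha
    rw [hi₂v]
    apply loxodromic_of_lox
    apply lox_of_sep P x₀ hs2
    simpa using ha
  have hinj : Injective i₂ := by
    rw [injective_iff_map_eq_one]
    intro a ha
    by_contra h1
    have h2 := lox_of_sep P x₀ hs2 (e.symm a) (by simpa using h1)
    apply toPSL_ne_one _ h2
    rw [← hi₂v, ha]
    rfl
  refine ⟨i₂, hinj, ?_, hlox, ?_, ?_⟩
  · have h1 : i₂.range.map Γ₂.subtype = (FreeGroup.lift x₀).range.map toPSL := by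
      ext u
      constructor
      · rintro ⟨_, ⟨a, rfl⟩, rfl⟩
        exact ⟨_, ⟨e.symm a, rfl⟩, (hi₂v a).symm⟩
      · rintro ⟨_, ⟨a, rfl⟩, rfl⟩
        refine ⟨_, ⟨e a, rfl⟩, ?_⟩
        rw [Subgroup.subtype_apply, hi₂v, MulEquiv.symm_apply_apply]
    rw [h1]
    exact geometricallyFinite_of_sep P x₀ hs2
  · intro h1
    obtain ⟨ρ, hρ1, hρ2⟩ := hρ h1
    refine malnormal_of_retraction hbk hp hq hd ht y e i₂ hi₂ hinj hlox ρ ?_
    intro v
    have h2 : ρ.comp y = MonoidHom.id _ := by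
      ext i
      have h3 : (⟨toPSL (y₀ i), hyΓ i⟩ : Γ₂) = ⟨toPSL (g i), hg i⟩ * (⟨toPSL (h i), hh i⟩ *
          ⟨toPSL (P * dg l hl * P⁻¹), hx⟩ ^ n * (⟨toPSL (h i), hh i⟩)⁻¹) := by
        apply Subtype.ext
        simp only [hy₀, map_mul, map_inv, map_pow, Subgroup.coe_mul, Subgroup.coe_inv,
          Subgroup.coe_pow]
      simp only [hy, MonoidHom.comp_apply, FreeGroup.lift_apply_of, MonoidHom.id_apply]
      rw [h3, map_mul, map_mul, map_mul, map_pow, hρ1, hρ2, map_inv]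
      simp
    exact DFunLike.congr_fun h2 v
  · obtain ⟨H, hH1, hH2⟩ := crit2 b₀ k₀ hbk p q hp hq Γ₁' χ hχ e i₁ hi₁ i₂ hinj hb hk hχk hχb y
      hyinj (by
        intro a
        rw [hi₂]
        simp)
    obtain ⟨g, hg⟩ := hH2
    exact ⟨H, hH1, ⟨g, hg⟩, not_separable H g hg⟩

end Helper85.NS
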