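import Pool.Agent.Helper85.NS.Crit2
import Pool.Agent.Helper85.NS.Pred
import Pool.Agent.Helper85.NS.Mal
import Pool.Agent.Helper85.NS.MalAm

/-!
The criterion for free products.
-/

namespace Helper85.NS

open Monoid Function

theorem pconj_inl {B C Γ : Type} [Group B] [Group C] [Group Γ] (j : Coprod B C →* Γ)
    (κ : Coprod B C) (b : B) : pconj j κ (Coprod.inl b) = j (Coprod.inl b) := by
  simp [pconj]

theorem pconj_inr {B C Γ : Type} [Group B] [Group C] [Group Γ] (j : Coprod B C →* Γ)
    (κ : Coprod B C) (c : C) :
    pconj j κ (Coprod.inr c) = (j κ)⁻¹ * j (Coprod.inr c) * j κ := by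
  simp [pconj]

theorem pconj_eq {B C Γ : Type} [Group B] [Group C] [Group Γ] (j : Coprod B C →* Γ)
    (κ : Coprod B C) : pconj j κ = j.comp (pconj (MonoidHom.id _) κ) := by
  apply Coprod.hom_ext
  · ext b
    simp only [MonoidHom.comp_apply, pconj_inl, MonoidHom.id_apply]
  · ext c
    simp only [MonoidHom.comp_apply, pconj_inr, MonoidHom.id_apply, map_mul, map_inv]

section

variable {B C : Type} [Group B] [Group C] (x : B) (z : C)

/-- The element `x z` of `B ∗ C`. -/
def kz : Coprod B C := Coprod.inl x * Coprod.inr z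

/-- The partial conjugation by `x z`. -/
def wz : Coprod B C →* Coprod B C := pconj (MonoidHom.id _) (kz x z)

theorem wz_inl (b : B) : wz x z (Coprod.inl b) = Coprod.inl b := by
  simp [wz, pconj_inl]

theorem wz_inr (c : C) : wz x z (Coprod.inr c) = (kz x z)⁻¹ * Coprod.inr c * kz x z := by
  simp [wz, pconj_inr]

theorem wz_z : wz x z (Coprod.inr z⁻¹) = (kz x z)⁻¹ * (kz x z)⁻¹ * Coprod.inl x * kz x z := by
  rw [wz_inr, kz]
  simp only [map_inv]
  group

/-- The homomorphism of the free group on two generators to `B ∗ C` with values `x` and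
`z⁻¹`. -/
def pz : FreeGroup Bool →* Coprod B C :=
  FreeGroup.lift fun c => cond c (Coprod.inl x) (Coprod.inr z⁻¹)

theorem pz_injective (hx : ∀ n : ℤ, x ^ n = 1 → n = 0) (hz : ∀ n : ℤ, z ^ n = 1 → n = 0) :
    Injective (pz x z) := by
  let u : FreeGroup Unit →* B := FreeGroup.lift fun _ => x
  let v : FreeGroup Unit →* C := FreeGroup.lift fun _ => z⁻¹
  have hu : Injective u := by
    rw [injective_iff_map_eq_one]
    intro w hw
    obtain ⟨n, rfl⟩ : ∃ n : ℤ, w = FreeGroup.of () ^ n := by
      refine ⟨FreeGroup.freeGroupUnitEquivInt w, ?_⟩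
      exact (FreeGroup.freeGroupUnitEquivInt.symm_apply_apply w).symm
    rw [map_zpow] at hw
    simp only [u, FreeGroup.lift_apply_of] at hw
    rw [hx n hw, zpow_zero]
  have hv : Injective v := by
    rw [injective_iff_map_eq_one]
    intro w hw
    obtain ⟨n, rfl⟩ : ∃ n : ℤ, w = FreeGroup.of () ^ n := by
      refine ⟨FreeGroup.freeGroupUnitEquivInt w, ?_⟩
      exact (FreeGroup.freeGroupUnitEquivInt.symm_apply_apply w).symm
    rw [map_zpow] at hw
    simp only [v, FreeGroup.lift_apply_of, inv_zpow'] at hw
    have h1 := hz _ hw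
    rw [neg_eq_zero.mp h1, zpow_zero]
  let s : FreeGroup Bool →* Coprod (FreeGroup Unit) (FreeGroup Unit) :=
    FreeGroup.lift fun c => cond c (Coprod.inl (FreeGroup.of ())) (Coprod.inr (FreeGroup.of ()))
  let s' : Coprod (FreeGroup Unit) (FreeGroup Unit) →* FreeGroup Bool :=
    Coprod.lift (FreeGroup.lift fun _ => FreeGroup.of true) (FreeGroup.lift fun _ => FreeGroup.of false)
  have hs : s'.comp s = MonoidHom.id _ := by
    ext c
    cases c <;> simp [s, s']
  have hs' : Injective s := LeftInverse.injective (g := s') fun x => DFunLike.congr_fun hs x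
  have h : pz x z = (Coprod.map u v).comp s := by
    ext c
    cases c <;> simp [pz, s, u, v]
  rw [h]
  exact (coprod_map_injective u v hu hv).comp hs'

variable {Γ₁ : Type} [Group Γ₁] (i : Coprod B C →* Γ₁)

/-- The small amalgam. -/
abbrev Smz : Type := Amalgam (i.comp (pz x z)) (wmap true false)

/-- The free product maps to the small amalgam. -/
def psz : Coprod B C →* Smz x z i :=
  Coprod.lift ((Amalgam.inl (i.comp (pz x z)) (wmap true false)).comp (i.comp Coprod.inl))
    ((MulAut.conj (Amalgam.inr (i.comp (pz x z)) (wmap true false)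
      (FreeGroup.of false))).toMonoidHom.comp
      ((Amalgam.inl (i.comp (pz x z)) (wmap true false)).comp (i.comp Coprod.inr)))

theorem psz_inl (b : B) : psz x z i (Coprod.inl b) =
    Amalgam.inl (i.comp (pz x z)) (wmap true false) (i (Coprod.inl b)) := by
  simp [psz]

theorem psz_inr (c : C) : psz x z i (Coprod.inr c) =
    Amalgam.inr (i.comp (pz x z)) (wmap true false) (FreeGroup.of false) *
    Amalgam.inl (i.comp (pz x z)) (wmap true false) (i (Coprod.inr c)) *
    (Amalgam.inr (i.comp (pz x z)) (wmap true false) (FreeGroup.of false))⁻¹ := by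
  simp [psz]

theorem smz_true : Amalgam.inr (i.comp (pz x z)) (wmap true false) (FreeGroup.of true) =
    Amalgam.inl (i.comp (pz x z)) (wmap true false) (i (Coprod.inl x)) := by
  have h := Amalgam.inl_eq_inr (i.comp (pz x z)) (wmap true false) (FreeGroup.of true)
  have h1 : wmap true false (FreeGroup.of true) = FreeGroup.of true := by simp [wmap]
  rw [h1] at h
  rw [← h]
  simp [pz]

theorem smz_false :
    (Amalgam.inr (i.comp (pz x z)) (wmap true false) (FreeGroup.of false))⁻¹ *
    (Amalgam.inr (i.comp (pz x z)) (wmap true false) (FreeGroup.of false))⁻¹ *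
    Amalgam.inl (i.comp (pz x z)) (wmap true false) (i (Coprod.inl x)) *
    Amalgam.inr (i.comp (pz x z)) (wmap true false) (FreeGroup.of false) =
    (Amalgam.inl (i.comp (pz x z)) (wmap true false) (i (Coprod.inr z)))⁻¹ := by
  have h := Amalgam.inl_eq_inr (i.comp (pz x z)) (wmap true false) (FreeGroup.of false)
  have h1 : wmap true false (FreeGroup.of false) = (FreeGroup.of false)⁻¹ *
      (FreeGroup.of false)⁻¹ * FreeGroup.of true * FreeGroup.of false := by simp [wmap]
  rw [h1, map_mul, map_mul, map_mul, map_inv, smz_true] at h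
  have h2 : (i.comp (pz x z)) (FreeGroup.of false) = (i (Coprod.inr z))⁻¹ := by simp [pz]
  rw [← h, h2, map_inv]

theorem psz_kz : psz x z i (kz x z) =
    Amalgam.inr (i.comp (pz x z)) (wmap true false) (FreeGroup.of false) := by
  have h := smz_false x z i
  have h2 : Amalgam.inl (i.comp (pz x z)) (wmap true false) (i (Coprod.inr z)) = _ :=
    (inv_eq_iff_eq_inv.mp h.symm)
  rw [kz, map_mul, psz_inl, psz_inr, h2]
  group

theorem psz_wz (v : Coprod B C) : psz x z i (wz x z v) =
    Amalgam.inl (i.comp (pz x z)) (wmap true false) (i v) := by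
  have h : (psz x z i).comp (wz x z) =
      (Amalgam.inl (i.comp (pz x z)) (wmap true false)).comp i := by
    apply Coprod.hom_ext
    · ext b
      simp only [MonoidHom.comp_apply, wz_inl, psz_inl]
    · ext c
      simp only [MonoidHom.comp_apply, wz_inr, map_mul, map_inv, psz_kz, psz_inr]
      group
  exact DFunLike.congr_fun h v

/-- The free group on two generators maps to `B ∗ C`. -/
def khz : FreeGroup Bool →* Coprod B C :=
  FreeGroup.lift fun c => cond c (Coprod.inl x) (kz x z)

theorem khz_wmap (v : FreeGroup Bool) : khz x z (wmap true false v) = wz x z (pz x z v) := by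
  have h : (khz x z).comp (wmap true false) = (wz x z).comp (pz x z) := by
    ext c
    cases c
    · have h1 := wz_z x z
      simp only [MonoidHom.comp_apply, wmap, pz, FreeGroup.lift_apply_of, if_true, map_mul,
        khz, cond_true, cond_false]
      rw [h1]
      simp only [map_inv, FreeGroup.lift_apply_of, cond_false]
    · simp only [MonoidHom.comp_apply, wmap, pz, FreeGroup.lift_apply_of, khz, cond_true]
      simp [wz_inl]
  exact DFunLike.congr_fun h v

/-- The map of the small amalgam is injective. -/
theorem exists_small_z :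
    ∃ F : Smz x z i →* Amalgam i (wz x z), Injective F ∧
      (∀ v, F (Amalgam.inl _ _ v) = Amalgam.inl _ _ v) ∧
      (∀ v, F (Amalgam.inr _ _ v) = Amalgam.inr _ _ (khz x z v)) := by
  let F : Smz x z i →* Amalgam i (wz x z) :=
    Amalgam.lift _ _ (Amalgam.inl i (wz x z))
      ((Amalgam.inr i (wz x z)).comp (khz x z)) (by
        intro v
        have h1 := Amalgam.inl_eq_inr i (wz x z) (pz x z v)
        rw [MonoidHom.comp_apply, MonoidHom.comp_apply, khz_wmap, h1])
  let G : Amalgam i (wz x z) →* Smz x z i :=
    Amalgam.lift _ _ (Amalgam.inl _ _) (psz x z i) (fun v => (psz_wz x z i v).symm)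
  have hGF : G.comp F = MonoidHom.id _ := by
    apply Amalgam.hom_ext
    · intro x
      rfl
    · intro v
      have h1 : (psz x z i).comp (khz x z) = Amalgam.inr _ _ := by
        ext c
        cases c
        · simp only [MonoidHom.comp_apply, khz, FreeGroup.lift_apply_of, cond_false]
          exact psz_kz x z i
        · simp only [MonoidHom.comp_apply, khz, FreeGroup.lift_apply_of, cond_true]
          rw [psz_inl, smz_true]
      exact DFunLike.congr_fun h1 v
  exact ⟨F, LeftInverse.injective (g := G) fun x => DFunLike.congr_fun hGF x, fun x => rfl,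
    fun x => rfl⟩

theorem psz_injective : Injective (psz x z (MonoidHom.id (Coprod B C))) := by
  let φ : Smz x z (MonoidHom.id (Coprod B C)) →* Coprod B C :=
    Amalgam.lift _ _ (wz x z) (khz x z) (fun v => (khz_wmap x z v).symm)
  have h : φ.comp (psz x z (MonoidHom.id (Coprod B C))) = MonoidHom.id _ := by
    have h1 : khz x z (FreeGroup.of false) = kz x z := by simp [khz]
    apply Coprod.hom_ext
    · ext b
      rw [MonoidHom.comp_apply, MonoidHom.comp_apply, psz_inl]
      simp only [φ, Amalgam.lift_inl, MonoidHom.id_apply]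
      rw [wz_inl]
      rfl
    · ext c
      rw [MonoidHom.comp_apply, MonoidHom.comp_apply, psz_inr]
      simp only [φ, map_mul, map_inv, Amalgam.lift_inl, Amalgam.lift_inr, MonoidHom.id_apply]
      rw [h1, wz_inr, MonoidHom.comp_apply, MonoidHom.id_apply]
      group
  exact LeftInverse.injective (g := φ) fun x => DFunLike.congr_fun h x

end

end Helper85.NS
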