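import Pool.Agent.Helper85.NS.Fp3

/-!
The criterion for free products, second part.
-/

namespace Helper85.NS

open Monoid Function

theorem inl_injective {A Γ₁ Γ₂ : Type} [Group A] [Group Γ₁] [Group Γ₂] (i₁ : A →* Γ₁)
    (i₂ : A →* Γ₂) (hi₁ : Injective i₁) (hi₂ : Injective i₂) :
    Injective (Amalgam.inl i₁ i₂) := by
  have h : ∀ b, Injective (famHom i₁ i₂ b) := by
    intro b
    cases b
    · exact hi₂
    · exact hi₁
  have h1 := PushoutI.of_injective h true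
  intro x y hxy
  exact h1 (congrArg (toPush i₁ i₂) hxy)

/-- Malnormal subgroups of malnormal subgroups are malnormal. -/
theorem malnormal_comp {A Γ : Type} [Group A] [Group Γ] (j : A →* Γ) (hj : Injective j)
    (w : A →* A) (hw : Malnormal w.range) (hm : Malnormal j.range) :
    Malnormal (j.comp w).range := by
  rintro g hg _ ⟨a, rfl⟩ ⟨a', ha'⟩
  by_cases h : g ∈ j.range
  · obtain ⟨g, rfl⟩ := h
    have h1 : g ∉ w.range := by
      rintro ⟨v, rfl⟩
      exact hg ⟨v, rfl⟩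
    have h2 := hw g h1 (w a) ⟨a, rfl⟩ (by
      refine ⟨a', hj ?_⟩
      rw [map_mul, map_mul, map_inv]
      exact ha')
    rw [MonoidHom.comp_apply, h2, map_one]
  · exact hm g h _ ⟨w a, rfl⟩ ⟨w a', ha'⟩

theorem crit3 {B C Γ₁ Γ₂ : Type} [Group B] [Group C] [Group Γ₁] [Group Γ₂] (Γ₁' : Subgroup Γ₁)
    (χ : Γ₁' →* Multiplicative ℤ) (hfp : Group.IsFinitelyPresented χ.ker)
    (i₁ : Coprod B C →* Γ₁) (hi₁ : Injective i₁) (x : B) (z : C)
    (hx : i₁ (Coprod.inl x) ∈ Γ₁') (hz : i₁ (Coprod.inr z⁻¹) ∈ Γ₁')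
    (hχz : χ ⟨_, hz⟩ = χ ⟨_, hx⟩) (hχ : χ ⟨_, hx⟩ ≠ 1)
    (j : Coprod B C →* Γ₂) (hj : Injective j) :
    Injective (wz x z) ∧ Malnormal (wz x z).range ∧
      ∃ H : Subgroup (Amalgam i₁ (pconj j (kz x z))), Group.IsFinitelyPresented H ∧
        ∃ g, H.map (MulAut.conj g).toMonoidHom < H := by
  let t : Γ₁' := ⟨_, hx⟩
  let t' : Γ₁' := ⟨_, hz⟩
  have hxo : ∀ n : ℤ, x ^ n = 1 → n = 0 := by
    intro n hn
    apply zpow_ne_one_of_ne_one _ hχ
    rw [← map_zpow, ← map_one χ]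
    congr 1
    apply Subtype.ext
    rw [Subgroup.coe_zpow, ← map_zpow, ← map_zpow, hn, map_one, map_one]
    rfl
  have hzo : ∀ n : ℤ, z ^ n = 1 → n = 0 := by
    intro n hn
    apply zpow_ne_one_of_ne_one _ hχ
    rw [← hχz, ← map_zpow, ← map_one χ]
    congr 1
    apply Subtype.ext
    rw [Subgroup.coe_zpow, ← map_zpow, ← map_zpow, inv_zpow, hn, inv_one, map_one, map_one]
    rfl
  have hpz : Injective (pz x z) := pz_injective x z hxo hzo
  let jΓ : FreeGroup Bool →* Γ₁' := FreeGroup.lift fun c => cond c t t'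
  have hjΓ (v : FreeGroup Bool) : (jΓ v : Γ₁) = i₁.comp (pz x z) (MulEquiv.refl _ v) := by
    have h1 : Γ₁'.subtype.comp jΓ = i₁.comp (pz x z) := by
      ext c
      cases c <;> simp [jΓ, pz, t, t']
    exact DFunLike.congr_fun h1 v
  have hjt : jΓ (FreeGroup.of true) = t := by simp [jΓ]
  have hjt' : jΓ (FreeGroup.of false) = t' := by simp [jΓ]
  let a : χ.ker := ⟨jΓ (FreeGroup.of false) * (jΓ (FreeGroup.of true))⁻¹, by
    rw [MonoidHom.mem_ker, map_mul, map_inv, mul_inv_eq_one, hjt, hjt']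
    exact hχz⟩
  obtain ⟨Θ₀, hΘ₀, hΘ₀l, hΘ₀r, hw⟩ := crit_aux true false (by decide) Γ₁' χ (MulEquiv.refl _)
    (i₁.comp (pz x z)) (hi₁.comp hpz) (wmap true false) jΓ hjΓ
    (fun c h1 h2 => by cases c <;> simp_all) a rfl (by rw [hjt]; exact hχ) (MonoidHom.id _)
    (fun _ _ h => h) (fun _ => rfl)
  -- the endomorphism `wz`
  have hwz : Injective (wz x z) := by
    intro v v' h
    have h1 := congrArg (psz x z (MonoidHom.id (Coprod B C))) h
    rw [psz_wz, psz_wz] at h1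
    exact inl_injective ((MonoidHom.id (Coprod B C)).comp (pz x z)) (wmap true false) hpz hw h1
  have hmal : Malnormal (wz x z).range := by
    have hm := malnormal_inl ((MonoidHom.id (Coprod B C)).comp (pz x z)) (wmap true false)
      hpz hw (wmap_malnormal true false (by decide))
    have hψ := psz_injective x z
    have hψw := psz_wz x z (MonoidHom.id (Coprod B C))
    rintro g hg _ ⟨a, rfl⟩ ⟨a', ha'⟩
    have h1 : psz x z (MonoidHom.id (Coprod B C)) g ∉ (Amalgam.inl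
        ((MonoidHom.id (Coprod B C)).comp (pz x z)) (wmap true false)).range := by
      rintro ⟨v, hv⟩
      refine hg ⟨v, hψ ?_⟩
      rw [hψw]
      exact hv
    have h2 := hm _ h1 (psz x z (MonoidHom.id (Coprod B C)) (wz x z a))
      ⟨a, (hψw a).symm⟩ (by
        rw [← map_inv, ← map_mul, ← map_mul, ← ha']
        exact ⟨a', (hψw a').symm⟩)
    rw [← map_one (psz x z (MonoidHom.id (Coprod B C)))] at h2
    exact hψ h2
  refine ⟨hwz, hmal, ?_⟩
  obtain ⟨F, hF, hFl, hFr⟩ := exists_small_z x z i₁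
  have hpc : ∀ v, pconj j (kz x z) v = j (wz x z v) := by
    intro v
    rw [pconj_eq]
    rfl
  let F₁ : Amalgam i₁ (wz x z) →*
      Amalgam ((MonoidHom.id Γ₁).comp i₁) (j.comp (wz x z)) :=
    Amalgam.lift _ _ (Amalgam.inl _ _) ((Amalgam.inr _ _).comp j)
      (fun v => Amalgam.inl_eq_inr ((MonoidHom.id Γ₁).comp i₁) (j.comp (wz x z)) v)
  have hF₁ : Injective F₁ := amalgam_map_injective i₁ (wz x z) hi₁ hwz (MonoidHom.id Γ₁) j
    (fun _ _ h => h) hj F₁ (fun x => rfl) (fun x => rfl)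
  let F₂ : Amalgam ((MonoidHom.id Γ₁).comp i₁) (j.comp (wz x z)) →*
      Amalgam i₁ (pconj j (kz x z)) :=
    Amalgam.lift _ _ (Amalgam.inl i₁ (pconj j (kz x z))) (Amalgam.inr i₁ (pconj j (kz x z))) (by
      intro v
      have h1 := Amalgam.inl_eq_inr i₁ (pconj j (kz x z)) v
      rw [hpc] at h1
      exact h1)
  let F₃ : Amalgam i₁ (pconj j (kz x z)) →*
      Amalgam ((MonoidHom.id Γ₁).comp i₁) (j.comp (wz x z)) :=
    Amalgam.lift i₁ (pconj j (kz x z)) (Amalgam.inl _ _) (Amalgam.inr _ _) (by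
      intro v
      rw [hpc]
      exact Amalgam.inl_eq_inr ((MonoidHom.id Γ₁).comp i₁) (j.comp (wz x z)) v)
  have hF₂ : Injective F₂ := by
    have h1 : F₃.comp F₂ = MonoidHom.id _ := Amalgam.hom_ext _ _ (fun x => rfl) (fun x => rfl)
    exact LeftInverse.injective (g := F₃) fun x => DFunLike.congr_fun h1 x
  let Θ : Coprod χ.ker (FreeGroup Unit) →* Amalgam i₁ (pconj j (kz x z)) :=
    F₂.comp (F₁.comp (F.comp Θ₀))
  have hΘ : Injective Θ := hF₂.comp (hF₁.comp (hF.comp hΘ₀))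
  have hΘl (s : χ.ker) : Θ (Coprod.inl s) = Amalgam.inl i₁ (pconj j (kz x z)) (s : Γ₁') := by
    simp only [Θ, MonoidHom.comp_apply, hΘ₀l, hFl]
    rfl
  set κ : Amalgam i₁ (pconj j (kz x z)) := Amalgam.inr i₁ (pconj j (kz x z)) (j (kz x z)) with hκ
  have hΘr : Θ (Coprod.inr (FreeGroup.of ())) = κ := by
    have h1 : khz x z (FreeGroup.of false) = kz x z := by simp [khz]
    simp only [Θ, MonoidHom.comp_apply, hΘ₀r, MonoidHom.id_apply]
    rw [hFr, h1]
    rfl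
  set g : Amalgam i₁ (pconj j (kz x z)) := Amalgam.inl i₁ (pconj j (kz x z)) (t : Γ₁) with hg
  have hg2 : g = Amalgam.inr i₁ (pconj j (kz x z)) (j (Coprod.inl x)) := by
    have h1 := Amalgam.inl_eq_inr i₁ (pconj j (kz x z)) (Coprod.inl x)
    rw [hpc, wz_inl] at h1
    exact h1
  have hg3 : Amalgam.inl i₁ (pconj j (kz x z)) (t' : Γ₁) = κ⁻¹ * κ⁻¹ * g * κ := by
    have h1 := Amalgam.inl_eq_inr i₁ (pconj j (kz x z)) (Coprod.inr z⁻¹)
    rw [hpc, wz_z] at h1
    simp only [map_mul, map_inv] at h1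
    rw [← hκ, ← hg2] at h1
    rw [← h1]
    simp [t']
  refine exists_of_hom hfp (MulAut.conjNormal t) a Θ hΘ g ?_ ?_
  · intro s
    rw [hΘl, hΘl, MulAut.conjNormal_apply]
    simp only [hg, Subgroup.coe_mul, Subgroup.coe_inv, map_mul, map_inv]
  · rw [hΘl, hΘr]
    have h1 : ((a : Γ₁') : Γ₁) = (t' : Γ₁) * (t : Γ₁)⁻¹ := by
      change ((jΓ (FreeGroup.of false) * (jΓ (FreeGroup.of true))⁻¹ : Γ₁') : Γ₁) = _
      rw [hjt, hjt']
      rfl
    rw [h1, map_mul, map_inv, hg3, ← hg]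
    group

end Helper85.NS
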