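import Pool.Agent.Helper85.NS.Defs

/-!
A criterion for free actions of free groups.
-/

namespace Helper85.NS

theorem mk_cons_eq {α : Type} (a : α × Bool) (L : List (α × Bool)) :
    FreeGroup.mk (a :: L) = ev FreeGroup.of a * FreeGroup.mk L := by
  obtain ⟨i, b⟩ := a
  cases b
  · change _ = (FreeGroup.of i)⁻¹ * FreeGroup.mk L
    rw [FreeGroup.of, FreeGroup.inv_mk, FreeGroup.mul_mk]
    rfl
  · change _ = (FreeGroup.of i) * FreeGroup.mk L
    rw [FreeGroup.of, FreeGroup.mul_mk]
    rfl

theorem ev_not {α : Type} {G : Type*} [Group G] (x : α → G) (a : α × Bool) :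
    ev x (a.1, !a.2) = (ev x a)⁻¹ := by
  obtain ⟨i, b⟩ := a
  cases b <;> simp [ev]

/-- The case of a cyclically reduced word. -/
theorem free_action_cyc {α : Type} {X : Type*} [MulAction (FreeGroup α) X] (Φ : X → ℕ)
    (hU : ∀ (x : X) (s t : α × Bool), Φ (ev FreeGroup.of s • x) ≤ Φ x →
      Φ (ev FreeGroup.of t • x) ≤ Φ x → s = t)
    (L : List (α × Bool)) (hL : FreeGroup.IsCyclicallyReduced L) (hne : L ≠ []) (y : X)
    (hy : FreeGroup.mk L • y = y) : False := by
  have hred : FreeGroup.IsReduced (L ++ L) := by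
    have := (hL.flatten_replicate 2).isReduced
    simpa using this
  set m := L.length with hm
  have hm0 : 0 < m := List.length_pos_of_ne_nil hne
  set q : ℕ → X := fun j => FreeGroup.mk ((L ++ L).drop j) • y with hq
  have hper : ∀ j ≤ m, q (m + j) = q j := by
    intro j hj
    simp only [hq]
    rw [List.drop_append_of_le_length (l₂ := L) (by omega : j ≤ L.length), ← FreeGroup.mul_mk,
      mul_smul, hy]
    congr 2
    rw [List.drop_append]
    simp [hm, List.drop_eq_nil_of_le]
  obtain ⟨i, hi, hmax⟩ := Finset.exists_max_image (Finset.Icc 1 m) (fun j => Φ (q j))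
    ⟨1, Finset.mem_Icc.2 ⟨le_rfl, hm0⟩⟩
  rw [Finset.mem_Icc] at hi
  obtain ⟨j, rfl⟩ : ∃ j, i = j + 1 := ⟨i - 1, by omega⟩
  have h1 : Φ (q j) ≤ Φ (q (j + 1)) := by
    rcases Nat.eq_zero_or_pos j with rfl | hj
    · have := hper 0 (Nat.zero_le _)
      rw [← this]
      exact hmax m (Finset.mem_Icc.2 ⟨hm0, le_rfl⟩)
    · exact hmax j (Finset.mem_Icc.2 ⟨hj, by omega⟩)
  have h2 : Φ (q (j + 2)) ≤ Φ (q (j + 1)) := by
    rcases Nat.lt_or_ge (j + 1) m with hj | hj
    · exact hmax (j + 2) (Finset.mem_Icc.2 ⟨by omega, hj⟩)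
    · have : j + 2 = m + 1 := by omega
      rw [this, hper 1 hm0]
      exact hmax 1 (Finset.mem_Icc.2 ⟨le_rfl, hm0⟩)
  have hlen : (L ++ L).length = m + m := by simp [hm]
  have hj1 : j < (L ++ L).length := by omega
  have hj2 : j + 1 < (L ++ L).length := by omega
  have e1 : q j = ev FreeGroup.of ((L ++ L)[j]) • q (j + 1) := by
    simp only [hq]
    rw [List.drop_eq_getElem_cons hj1, mk_cons_eq, mul_smul]
  have e2 : q (j + 1) = ev FreeGroup.of ((L ++ L)[j + 1]) • q (j + 2) := by
    simp only [hq]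
    rw [List.drop_eq_getElem_cons hj2, mk_cons_eq, mul_smul]
  have e3 : q (j + 2) = ev FreeGroup.of ((L ++ L)[j + 1].1, !(L ++ L)[j + 1].2) • q (j + 1) := by
    rw [ev_not, e2, inv_smul_smul]
  rw [e1] at h1
  rw [e3] at h2
  have h3 := hU _ _ _ h1 h2
  have h4 := (List.isChain_iff_getElem.1 hred) j hj2
  have h5 := h4 (by rw [h3])
  rw [h3] at h5
  simp at h5

/-- NS-6a: a free group acts freely if there is a potential such that at each point at most one
letter does not increase it. -/
theorem free_action {α : Type} {X : Type*} [MulAction (FreeGroup α) X] (Φ : X → ℕ)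
    (hU : ∀ (x : X) (s t : α × Bool), Φ (ev FreeGroup.of s • x) ≤ Φ x →
      Φ (ev FreeGroup.of t • x) ≤ Φ x → s = t)
    (v : FreeGroup α) (hv : v ≠ 1) (x : X) : v • x ≠ x := by
  classical
  intro hx
  have h1 := FreeGroup.reduceCyclically.conj_conjugator_reduceCyclically v.toWord
  set c := FreeGroup.reduceCyclically.conjugator v.toWord
  set L := FreeGroup.reduceCyclically v.toWord with hL
  have h2 : FreeGroup.mk c * FreeGroup.mk L * (FreeGroup.mk c)⁻¹ = v := by
    rw [FreeGroup.inv_mk, FreeGroup.mul_mk, FreeGroup.mul_mk, h1, FreeGroup.mk_toWord]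
  have hcyc : FreeGroup.IsCyclicallyReduced L :=
    FreeGroup.reduceCyclically.isCyclicallyReduced FreeGroup.isReduced_toWord
  have hne : L ≠ [] := by
    intro h
    apply hv
    rw [← h2, h]
    have : FreeGroup.mk ([] : List (α × Bool)) = 1 := rfl
    rw [this, mul_one, mul_inv_cancel]
  refine free_action_cyc Φ hU L hcyc hne ((FreeGroup.mk c)⁻¹ • x) ?_
  rw [← h2, mul_smul, mul_smul] at hx
  exact eq_inv_smul_iff.2 hx

end Helper85.NS
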