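import Pool.Agent.Helper85.NS.Norm

/-!
Growth of Frobenius norms along reduced words.
-/

namespace Helper85.NS

open Matrix

/-- A positive Hermitian form. -/
theorem form_nonneg (p r : ℝ) (q u v : ℂ) (h1 : ‖q‖ ^ 2 < p * r) (h2 : -2 ≤ p + r)
    (h3 : 9 ≤ p * r - ‖q‖ ^ 2) :
    0 ≤ p * ‖u‖ ^ 2 + 2 * (u * q * (starRingEnd ℂ) v).re + r * ‖v‖ ^ 2 := by
  have hq := sq_nonneg ‖q‖
  have hp : 0 < p := by
    by_contra hp
    push Not at hp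
    have hr : r ≤ 0 := by
      by_contra hr
      push Not at hr
      nlinarith
    nlinarith [sq_nonneg (p - r), sq_nonneg (p + r)]
  have hre : |(u * q * (starRingEnd ℂ) v).re| ≤ ‖u‖ * ‖q‖ * ‖v‖ := by
    refine (Complex.abs_re_le_norm _).trans ?_
    rw [norm_mul, norm_mul, Complex.norm_conj]
  have h4 := neg_le_of_abs_le hre
  have hr : 0 < r := by
    by_contra hr
    push Not at hr
    nlinarith
  have h5 : 0 ≤ p * (p * ‖u‖ ^ 2 - 2 * (‖u‖ * ‖q‖ * ‖v‖) + r * ‖v‖ ^ 2) := by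
    nlinarith [sq_nonneg (p * ‖u‖ - ‖q‖ * ‖v‖), mul_nonneg (sub_nonneg.mpr h1.le) (sq_nonneg ‖v‖)]
  have h6 : 0 ≤ p * ‖u‖ ^ 2 - 2 * (‖u‖ * ‖q‖ * ‖v‖) + r * ‖v‖ ^ 2 :=
    nonneg_of_mul_nonneg_right h5 hp
  linarith

theorem row_eq (a b c d u v : ℂ) :
    ‖u * a + v * c‖ ^ 2 + ‖u * b + v * d‖ ^ 2 =
      ‖u‖ ^ 2 * (‖a‖ ^ 2 + ‖b‖ ^ 2) + ‖v‖ ^ 2 * (‖c‖ ^ 2 + ‖d‖ ^ 2) +
        2 * (u * (a * (starRingEnd ℂ) c + b * (starRingEnd ℂ) d) * (starRingEnd ℂ) v).re := by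
  simp only [Complex.sq_norm, Complex.normSq_apply, Complex.add_re, Complex.add_im,
    Complex.mul_re, Complex.mul_im, Complex.conj_re, Complex.conj_im]
  ring

theorem det_eq (a b c d a' b' c' d' : ℂ) :
    (‖a‖ ^ 2 + ‖b‖ ^ 2 + (‖a'‖ ^ 2 + ‖b'‖ ^ 2) - 3) *
        (‖c‖ ^ 2 + ‖d‖ ^ 2 + (‖c'‖ ^ 2 + ‖d'‖ ^ 2) - 3) -
      ‖a * (starRingEnd ℂ) c + b * (starRingEnd ℂ) d +
        (a' * (starRingEnd ℂ) c' + b' * (starRingEnd ℂ) d')‖ ^ 2 =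
    ‖a * d - b * c‖ ^ 2 + ‖a' * d' - b' * c'‖ ^ 2 + 9 -
      3 * (‖a‖ ^ 2 + ‖b‖ ^ 2 + (‖c‖ ^ 2 + ‖d‖ ^ 2) +
        (‖a'‖ ^ 2 + ‖b'‖ ^ 2 + (‖c'‖ ^ 2 + ‖d'‖ ^ 2))) +
      (‖d * a' - b * c'‖ ^ 2 + ‖d * b' - b * d'‖ ^ 2 +
        (‖a * c' - c * a'‖ ^ 2 + ‖a * d' - c * b'‖ ^ 2)) := by
  simp only [Complex.sq_norm, Complex.normSq_apply, Complex.add_re, Complex.add_im,
    Complex.mul_re, Complex.mul_im, Complex.conj_re, Complex.conj_im, Complex.sub_re,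
    Complex.sub_im]
  ring

/-- NS-8a -/
theorem N_add (U V : SL2) (h : 3 * (N U.1 + N V.1) ≤ N (U⁻¹ * V).1 + 2)
    (g : Matrix (Fin 2) (Fin 2) ℂ) : 3 * N g ≤ N (g * U.1) + N (g * V.1) := by
  have hU1 : U.1 0 0 * U.1 1 1 - U.1 0 1 * U.1 1 0 = 1 := by
    rw [← Matrix.det_fin_two]
    exact U.2
  have hV1 : V.1 0 0 * V.1 1 1 - V.1 0 1 * V.1 1 0 = 1 := by
    rw [← Matrix.det_fin_two]
    exact V.2
  have hUi : (U⁻¹).1 = !![U.1 1 1, -U.1 0 1; -U.1 1 0, U.1 0 0] := by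
    rw [Matrix.SpecialLinearGroup.SL2_inv_expl U]
    rfl
  have h2U := two_le_N U
  have h2V := two_le_N V
  have hN : N (U⁻¹ * V).1 = ‖U.1 1 1 * V.1 0 0 - U.1 0 1 * V.1 1 0‖ ^ 2 +
      ‖U.1 1 1 * V.1 0 1 - U.1 0 1 * V.1 1 1‖ ^ 2 +
      (‖U.1 0 0 * V.1 1 0 - U.1 1 0 * V.1 0 0‖ ^ 2 +
        ‖U.1 0 0 * V.1 1 1 - U.1 1 0 * V.1 0 1‖ ^ 2) := by
    have h1 : (U⁻¹ * V).1 = !![U.1 1 1, -U.1 0 1; -U.1 1 0, U.1 0 0] * V.1 := by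
      rw [Matrix.SpecialLinearGroup.coe_mul, hUi]
    rw [h1, N_eq]
    simp only [Matrix.mul_apply, Fin.sum_univ_two]
    simp
    congr 3 <;> ring_nf
  have hd := det_eq (U.1 0 0) (U.1 0 1) (U.1 1 0) (U.1 1 1) (V.1 0 0) (V.1 0 1) (V.1 1 0)
    (V.1 1 1)
  rw [hU1, hV1, ← hN, norm_one] at hd
  have hdet : 9 ≤ (‖U.1 0 0‖ ^ 2 + ‖U.1 0 1‖ ^ 2 + (‖V.1 0 0‖ ^ 2 + ‖V.1 0 1‖ ^ 2) - 3) *
        (‖U.1 1 0‖ ^ 2 + ‖U.1 1 1‖ ^ 2 + (‖V.1 1 0‖ ^ 2 + ‖V.1 1 1‖ ^ 2) - 3) -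
      ‖U.1 0 0 * (starRingEnd ℂ) (U.1 1 0) + U.1 0 1 * (starRingEnd ℂ) (U.1 1 1) +
        (V.1 0 0 * (starRingEnd ℂ) (V.1 1 0) + V.1 0 1 * (starRingEnd ℂ) (V.1 1 1))‖ ^ 2 := by
    rw [hd]
    rw [N_eq U.1, N_eq V.1] at h
    linarith
  rw [N_eq U.1] at h2U
  rw [N_eq V.1] at h2V
  have hrow (u v : ℂ) : 3 * (‖u‖ ^ 2 + ‖v‖ ^ 2) ≤
      ‖u * U.1 0 0 + v * U.1 1 0‖ ^ 2 + ‖u * U.1 0 1 + v * U.1 1 1‖ ^ 2 +
      (‖u * V.1 0 0 + v * V.1 1 0‖ ^ 2 + ‖u * V.1 0 1 + v * V.1 1 1‖ ^ 2) := by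
    have h4 := form_nonneg _ _ _ u v (by linarith) (by linarith) hdet
    rw [row_eq, row_eq]
    rw [mul_add, add_mul, Complex.add_re] at h4
    linarith
  have h5 := hrow (g 0 0) (g 0 1)
  have h6 := hrow (g 1 0) (g 1 1)
  rw [N_eq, N_eq (g * U.1), N_eq (g * V.1)]
  simp only [Matrix.mul_apply, Fin.sum_univ_two]
  linarith

theorem ev_inv {α : Type} {G : Type*} [Group G] (x : α → G) (s : α × Bool) :
    ev x (s.1, !s.2) = (ev x s)⁻¹ := by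
  obtain ⟨i, _ | _⟩ := s <;> simp [ev]

theorem lift_mk_cons {α : Type} (U : α → SL2) (s : α × Bool) (L : List (α × Bool)) :
    FreeGroup.lift U (FreeGroup.mk (s :: L)) = ev U s * FreeGroup.lift U (FreeGroup.mk L) := by
  rw [FreeGroup.lift_mk, FreeGroup.lift_mk, List.map_cons, List.prod_cons]
  rfl

/-- growth, strong form -/
theorem growth' {α : Type} (U : α → SL2)
    (hU : ∀ s t : α × Bool, s ≠ t →
      3 * (N (ev U s).1 + N (ev U t).1) ≤ N ((ev U s)⁻¹ * ev U t).1 + 2)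
    (L : List (α × Bool)) : ∀ (s : α × Bool) (_ : FreeGroup.IsReduced (s :: L))
    (g : Matrix (Fin 2) (Fin 2) ℂ) (_ : N g ≤ N (g * (ev U s).1)),
    2 ^ L.length * N (g * (ev U s).1) ≤
      N (g * (FreeGroup.lift U (FreeGroup.mk (s :: L))).1) := by
  induction L with
  | nil =>
    intro s _ g hg
    rw [lift_mk_cons]
    simp [← FreeGroup.one_eq_mk]
  | cons t L ih =>
    intro s hL g hg
    have hst : (s.1, !s.2) ≠ t := by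
      intro h
      rw [FreeGroup.IsReduced, List.isChain_cons_cons] at hL
      have h1 := hL.1 (by rw [← h])
      rw [← h] at h1
      simp at h1
    have h1 := N_add (ev U (s.1, !s.2)) (ev U t) (hU _ _ hst) (g * (ev U s).1)
    have h2 : g * (ev U s).1 * (ev U (s.1, !s.2)).1 = g := by
      rw [ev_inv, Matrix.mul_assoc, ← Matrix.SpecialLinearGroup.coe_mul, mul_inv_cancel]
      simp
    rw [h2] at h1
    have h3 := ih t (by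
      rw [FreeGroup.IsReduced, List.isChain_cons_cons] at hL
      exact hL.2) (g * (ev U s).1) (by linarith [N_nonneg (g * (ev U s).1)])
    rw [lift_mk_cons U s, Matrix.SpecialLinearGroup.coe_mul, ← Matrix.mul_assoc]
    refine le_trans ?_ h3
    rw [List.length_cons, pow_succ]
    have h4 : (0 : ℝ) < 2 ^ L.length := by positivity
    nlinarith

/-- NS-8b -/
theorem growth {α : Type} (U : α → SL2)
    (hU : ∀ s t : α × Bool, s ≠ t →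
      3 * (N (ev U s).1 + N (ev U t).1) ≤ N ((ev U s)⁻¹ * ev U t).1 + 2)
    (s : α × Bool) (L : List (α × Bool)) (hL : FreeGroup.IsReduced (s :: L))
    (g : Matrix (Fin 2) (Fin 2) ℂ) (hg : N g ≤ N (g * (ev U s).1)) :
    2 ^ L.length * N g ≤ N (g * (FreeGroup.lift U (FreeGroup.mk (s :: L))).1) := by
  refine le_trans ?_ (growth' U hU L s hL g hg)
  exact mul_le_mul_of_nonneg_left hg (by positivity)

end Helper85.NS
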