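import Pool.Agent.Helper85.NS.Push

/-!
An ascending HNN extension of `S ∗ ⟨k⟩`.
-/

namespace Helper85.NS

open Monoid Function

/-- The endomorphism `s ↦ τ s`, `k ↦ k² a` of `S ∗ ⟨k⟩`. -/
def asc {S : Type} [Group S] (τ : S ≃* S) (a : S) :
    Monoid.Coprod S (FreeGroup Unit) →* Monoid.Coprod S (FreeGroup Unit) :=
  Monoid.Coprod.lift (Monoid.Coprod.inl.comp τ.toMonoidHom)
    (FreeGroup.lift fun _ => (Monoid.Coprod.inr (FreeGroup.of ())) ^ 2 * Monoid.Coprod.inl a)

theorem hnn_zpow (x : FreeGroup Unit) : ∃ n : ℤ, x = (FreeGroup.of ()) ^ n :=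
  ⟨FreeGroup.freeGroupUnitEquivInt x, (FreeGroup.freeGroupUnitEquivInt.symm_apply_apply x).symm⟩

theorem hnn_sq_injective :
    Injective (FreeGroup.lift fun _ : Unit => (FreeGroup.of () : FreeGroup Unit) ^ 2) := by
  rw [injective_iff_map_eq_one]
  intro x hx
  obtain ⟨n, rfl⟩ := hnn_zpow x
  rw [map_zpow, FreeGroup.lift_apply_of] at hx
  let ψ : FreeGroup Unit →* Multiplicative ℤ :=
    FreeGroup.lift fun _ : Unit => Multiplicative.ofAdd (1 : ℤ)
  have h0 : ψ (((FreeGroup.of () : FreeGroup Unit) ^ 2) ^ n) = 1 := by rw [hx, map_one]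
  rw [map_zpow, map_pow, FreeGroup.lift_apply_of, ← ofAdd_nsmul, ← ofAdd_zsmul] at h0
  have h2 : n • (2 • (1 : ℤ)) = 0 := Multiplicative.ofAdd.injective h0
  simp only [nsmul_eq_mul, smul_eq_mul] at h2
  have h3 : n = 0 := by omega
  rw [h3, zpow_zero]

/-- NS-3a -/
theorem asc_injective {S : Type} [Group S] (τ : S ≃* S) (a : S) : Injective (asc τ a) := by
  let kk : FreeGroup Unit := FreeGroup.of ()
  let μ : S → (Monoid.Coprod S (FreeGroup Unit) →* Monoid.Coprod S (FreeGroup Unit)) := fun b =>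
    Monoid.Coprod.lift Monoid.Coprod.inl
      (FreeGroup.lift fun _ => Monoid.Coprod.inr kk * Monoid.Coprod.inl b)
  let sq : Monoid.Coprod S (FreeGroup Unit) →* Monoid.Coprod S (FreeGroup Unit) :=
    Monoid.Coprod.map (MonoidHom.id S) (FreeGroup.lift fun _ : Unit => kk ^ 2)
  let ta : Monoid.Coprod S (FreeGroup Unit) →* Monoid.Coprod S (FreeGroup Unit) :=
    Monoid.Coprod.map τ.toMonoidHom (MonoidHom.id _)
  have hμ : (μ a⁻¹).comp (μ a) = MonoidHom.id _ := by
    apply Monoid.Coprod.hom_ext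
    · ext x
      simp [μ]
    · ext x
      simp [μ, kk]
  have hμi : Injective (μ a) := by
    intro x y hxy
    have h1 := DFunLike.congr_fun hμ x
    have h2 := DFunLike.congr_fun hμ y
    rw [MonoidHom.comp_apply, MonoidHom.id_apply] at h1 h2
    rw [← h1, ← h2, hxy]
  have hsq : Injective sq := coprod_map_injective _ _ injective_id hnn_sq_injective
  have hta : Injective ta := coprod_map_injective _ _ τ.injective injective_id
  have h : asc τ a = sq.comp ((μ a).comp ta) := by
    apply Monoid.Coprod.hom_ext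
    · ext x
      simp [asc, sq, μ, ta]
    · ext x
      simp [asc, sq, μ, ta, kk]
  rw [h]
  exact hsq.comp (hμi.comp hta)

/-- NS-3b -/
theorem not_mem_range_asc {S : Type} [Group S] (τ : S ≃* S) (a : S) :
    (Monoid.Coprod.inr (FreeGroup.of ()) : Monoid.Coprod S (FreeGroup Unit)) ∉
      (asc τ a).range := by
  let π : Monoid.Coprod S (FreeGroup Unit) →* Multiplicative (ZMod 2) :=
    Monoid.Coprod.lift 1 (FreeGroup.lift fun _ => Multiplicative.ofAdd 1)
  have h : π.comp (asc τ a) = 1 := by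
    apply Monoid.Coprod.hom_ext
    · ext x
      simp [asc, π]
    · ext x
      simp only [asc, π, MonoidHom.comp_apply, Monoid.Coprod.lift_apply_inr,
        FreeGroup.lift_apply_of, map_mul, map_pow, Monoid.Coprod.lift_apply_inl,
        MonoidHom.one_apply, mul_one]
      rfl
  rintro ⟨y, hy⟩
  have h1 := DFunLike.congr_fun h y
  rw [MonoidHom.comp_apply, hy, MonoidHom.one_apply] at h1
  simp only [π, Monoid.Coprod.lift_apply_inr, FreeGroup.lift_apply_of] at h1
  have h2 : (1 : ZMod 2) = 0 := congrArg Multiplicative.toAdd h1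
  exact absurd h2 (by decide)

/-- NS-3c -/
theorem exists_ascending {S : Type} [Group S] (τ : S ≃* S) (a : S) :
    ∃ (E : Type) (_ : Group E) (o : Monoid.Coprod S (FreeGroup Unit) →* E) (T : E)
      (ε : E →* Multiplicative ℤ), Injective o ∧
      (∀ x, T * o x * T⁻¹ = o (asc τ a x)) ∧ (∀ x, ε (o x) = 1) ∧
      ε T = Multiplicative.ofAdd 1 := by
  let Q := Monoid.Coprod S (FreeGroup Unit)
  let φ : (⊤ : Subgroup Q) ≃* (asc τ a).range :=
    Subgroup.topEquiv.trans (MonoidHom.ofInjective (asc_injective τ a))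
  refine ⟨HNNExtension Q ⊤ (asc τ a).range φ, inferInstance, HNNExtension.of, HNNExtension.t,
    HNNExtension.lift 1 (Multiplicative.ofAdd 1) (fun _ => by simp), ?_, ?_, ?_, ?_⟩
  · exact HNNExtension.of_injective (φ := φ)
  · intro x
    have h1 := HNNExtension.equiv_eq_conj (φ := φ) (⟨x, trivial⟩ : (⊤ : Subgroup Q))
    exact h1.symm
  · intro x
    rw [HNNExtension.lift_of]
    rfl
  · rw [HNNExtension.lift_t]

end Helper85.NS
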