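import Pool.Agent.Helper85.NS.Wpq

/-!
Lengths of products of letters.
-/

namespace Helper85.NS

section blocks

variable {α : Type}

theorem mk_cons' (a : α × Bool) (L : List (α × Bool)) :
    FreeGroup.mk (a :: L) = FreeGroup.mk [a] * FreeGroup.mk L := by
  rw [FreeGroup.mul_mk]
  rfl

theorem mk_replicate_true (c : α) (n : ℕ) :
    FreeGroup.mk (List.replicate n (c, true)) = FreeGroup.of c ^ n := by
  induction n with
  | zero => rfl
  | succ n ih =>
    rw [List.replicate_succ, mk_cons', ih, pow_succ']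
    rfl

theorem mk_replicate_false (c : α) (n : ℕ) :
    FreeGroup.mk (List.replicate n (c, false)) = (FreeGroup.of c ^ n)⁻¹ := by
  induction n with
  | zero => rfl
  | succ n ih =>
    rw [List.replicate_succ, mk_cons', ih, pow_succ, mul_inv_rev]
    rfl

theorem red_blk {c : α} {ε : Bool} {n : ℕ} {L : List (α × Bool)} (hL : FreeGroup.IsReduced L)
    (h : ∀ y ∈ L.head?, y.1 ≠ c) : FreeGroup.IsReduced (List.replicate n (c, ε) ++ L) := by
  unfold FreeGroup.IsReduced at hL ⊢
  rw [List.isChain_append]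
  refine ⟨List.isChain_replicate_of_rel n (fun _ => rfl), hL, fun x hx y hy hxy => ?_⟩
  have h1 : x = (c, ε) := List.eq_of_mem_replicate (List.mem_of_getLast? hx)
  rw [h1] at hxy
  exact absurd hxy.symm (h y hy)

theorem head_blk {c : α} {ε : Bool} {n : ℕ} {L : List (α × Bool)} (hn : 0 < n) :
    ∀ y ∈ (List.replicate n (c, ε) ++ L).head?, y.1 = c := by
  intro y hy
  obtain ⟨m, rfl⟩ : ∃ m, n = m + 1 := ⟨n - 1, by omega⟩
  rw [List.replicate_succ] at hy
  simp only [List.cons_append, List.head?_cons, Option.mem_some_iff] at hy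
  rw [← hy]

/-- the word of `κ⁻¹ k₀^(±m) κ` followed by `T` -/
def wl (b₀ k₀ : α) (p q m : ℕ) (ε : Bool) (T : List (α × Bool)) : List (α × Bool) :=
  List.replicate q (k₀, true) ++ (List.replicate p (b₀, false) ++ (List.replicate m (k₀, ε) ++
    (List.replicate p (b₀, true) ++ (List.replicate q (k₀, false) ++ T))))

theorem wl_reduced {b₀ k₀ : α} (hbk : b₀ ≠ k₀) {p q m : ℕ} (hp : 0 < p) (hq : 0 < q)
    (hm : 0 < m) (ε : Bool) {T : List (α × Bool)} (hT : FreeGroup.IsReduced T)
    (hT' : ∀ y ∈ T.head?, y.1 ≠ k₀) : FreeGroup.IsReduced (wl b₀ k₀ p q m ε T) := by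
  unfold wl
  refine red_blk (red_blk (red_blk (red_blk (red_blk hT hT') ?_) ?_) ?_) ?_
  · intro y hy
    rw [head_blk hq y hy]
    exact hbk.symm
  · intro y hy
    rw [head_blk hp y hy]
    exact hbk
  · intro y hy
    rw [head_blk hm y hy]
    exact hbk.symm
  · intro y hy
    rw [head_blk hp y hy]
    exact hbk

theorem wl_head {b₀ k₀ : α} {p q m : ℕ} (hq : 0 < q) (ε : Bool) (T : List (α × Bool)) :
    ∀ y ∈ (wl b₀ k₀ p q m ε T).head?, y.1 = k₀ := by
  unfold wl
  exact head_blk hq

theorem wl_length (b₀ k₀ : α) (p q m : ℕ) (ε : Bool) (T : List (α × Bool)) :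
    (wl b₀ k₀ p q m ε T).length = 2 * (p + q) + m + T.length := by
  unfold wl
  simp only [List.length_append, List.length_replicate]
  omega

theorem mk_wl_true (b₀ k₀ : α) (p q m : ℕ) (T : List (α × Bool)) :
    FreeGroup.mk (wl b₀ k₀ p q m true T)
      = (kap b₀ k₀ p q)⁻¹ * FreeGroup.of k₀ ^ m * kap b₀ k₀ p q * FreeGroup.mk T := by
  unfold wl kap
  simp only [← FreeGroup.mul_mk, mk_replicate_true, mk_replicate_false]
  group

theorem mk_wl_false (b₀ k₀ : α) (p q m : ℕ) (T : List (α × Bool)) :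
    FreeGroup.mk (wl b₀ k₀ p q m false T)
      = (kap b₀ k₀ p q)⁻¹ * (FreeGroup.of k₀ ^ m)⁻¹ * kap b₀ k₀ p q * FreeGroup.mk T := by
  unfold wl kap
  simp only [← FreeGroup.mul_mk, mk_replicate_true, mk_replicate_false]
  group

theorem norm_mk_of_reduced [DecidableEq α] {L : List (α × Bool)} (h : FreeGroup.IsReduced L) :
    (FreeGroup.mk L).norm = L.length := by
  unfold FreeGroup.norm
  rw [FreeGroup.toWord_mk, h.reduce_eq]

end blocks

/-- the letter of index `k₀` as a word -/
theorem wlet_k {α : Type} [DecidableEq α] (b₀ k₀ : α) (p q : ℕ) (ε : Bool) :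
    wlet' b₀ k₀ p q (k₀, ε) = FreeGroup.mk (wl b₀ k₀ p q 1 ε []) := by
  have h1 : wpq b₀ k₀ p q (FreeGroup.of k₀)
      = (kap b₀ k₀ p q)⁻¹ * FreeGroup.of k₀ * kap b₀ k₀ p q := by
    unfold wpq
    rw [FreeGroup.lift_apply_of, if_pos rfl]
  cases ε with
  | true =>
    rw [mk_wl_true]
    show wpq b₀ k₀ p q (FreeGroup.of k₀) = _
    rw [h1, pow_one]
    exact (mul_one _).symm
  | false =>
    rw [mk_wl_false]
    show (wpq b₀ k₀ p q (FreeGroup.of k₀))⁻¹ = _
    rw [h1, pow_one]
    have e : FreeGroup.mk ([] : List (α × Bool)) = 1 := rfl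
    rw [e]
    group

/-- the letters of index different from `k₀` -/
theorem wlet_ne {α : Type} [DecidableEq α] (b₀ k₀ : α) (p q : ℕ) {s : α × Bool} (hs : s.1 ≠ k₀) :
    wlet' b₀ k₀ p q s = FreeGroup.mk [s] := by
  have h1 : wpq b₀ k₀ p q (FreeGroup.of s.1) = FreeGroup.of s.1 := by
    unfold wpq
    rw [FreeGroup.lift_apply_of, if_neg hs]
  obtain ⟨i, ε⟩ := s
  cases ε with
  | true => exact h1
  | false =>
    show (wpq b₀ k₀ p q (FreeGroup.of i))⁻¹ = _
    rw [show wpq b₀ k₀ p q (FreeGroup.of i) = FreeGroup.of i from h1]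
    rfl

theorem wlet_inv {α : Type} [DecidableEq α] (b₀ k₀ : α) (p q : ℕ) (s : α × Bool) :
    (wlet' b₀ k₀ p q s)⁻¹ = wlet' b₀ k₀ p q (s.1, !s.2) := by
  obtain ⟨i, ε⟩ := s
  cases ε with
  | true => rfl
  | false => exact inv_inv _

/-- NS-23 -/
theorem norm_wlet' {α : Type} [DecidableEq α] (b₀ k₀ : α) (hbk : b₀ ≠ k₀) (p q : ℕ) (hp : 0 < p)
    (hq : 0 < q) (s t : α × Bool) (hst : s ≠ t) :
    (wlet' b₀ k₀ p q s).norm < ((wlet' b₀ k₀ p q s)⁻¹ * wlet' b₀ k₀ p q t).norm ∧
    (wlet' b₀ k₀ p q t).norm < ((wlet' b₀ k₀ p q s)⁻¹ * wlet' b₀ k₀ p q t).norm := by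
  have hnil : FreeGroup.IsReduced ([] : List (α × Bool)) := FreeGroup.IsReduced.nil
  have hnil' : ∀ y ∈ ([] : List (α × Bool)).head?, y.1 ≠ k₀ := by simp
  -- norms of the letters
  have nk : ∀ ε, (wlet' b₀ k₀ p q (k₀, ε)).norm = 2 * (p + q) + 1 := by
    intro ε
    rw [wlet_k, norm_mk_of_reduced (wl_reduced hbk hp hq one_pos ε hnil hnil'), wl_length]
    rfl
  have nn : ∀ s : α × Bool, s.1 ≠ k₀ → (wlet' b₀ k₀ p q s).norm = 1 := by
    intro s hs
    rw [wlet_ne _ _ _ _ hs, norm_mk_of_reduced FreeGroup.IsReduced.singleton]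
    rfl
  rw [wlet_inv]
  by_cases hs : s.1 = k₀
  · by_cases ht : t.1 = k₀
    · -- both special
      obtain ⟨i, ε⟩ := s
      obtain ⟨j, δ⟩ := t
      simp only at hs ht
      subst hs
      subst ht
      have hεδ : (!ε) = δ := by
        cases ε <;> cases δ <;> simp_all
      subst hεδ
      have e : wlet' b₀ j p q (j, !ε) * wlet' b₀ j p q (j, !ε)
          = FreeGroup.mk (wl b₀ j p q 2 (!ε) []) := by
        rw [wlet_k]
        have e1 : FreeGroup.mk ([] : List (α × Bool)) = 1 := rfl
        cases ε with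
        | true =>
          simp only [Bool.not_true, mk_wl_false, e1]
          group
        | false =>
          simp only [Bool.not_false, mk_wl_true, e1]
          group
      simp only
      rw [e, norm_mk_of_reduced (wl_reduced hbk hp hq two_pos _ hnil hnil'), wl_length, nk, nk]
      simp
    · obtain ⟨i, ε⟩ := s
      simp only at hs
      subst hs
      have e : wlet' b₀ i p q (i, !ε) * wlet' b₀ i p q t
          = FreeGroup.mk (wl b₀ i p q 1 (!ε) [t]) := by
        rw [wlet_k, wlet_ne _ _ _ _ ht]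
        have e1 : FreeGroup.mk ([] : List (α × Bool)) = 1 := rfl
        cases ε with
        | true => simp only [Bool.not_true, mk_wl_false, e1, mul_one]
        | false => simp only [Bool.not_false, mk_wl_true, e1, mul_one]
      have hr : FreeGroup.IsReduced (wl b₀ i p q 1 (!ε) [t]) :=
        wl_reduced hbk hp hq one_pos _ FreeGroup.IsReduced.singleton (by
          intro y hy
          simp only [List.head?_cons, Option.mem_some_iff] at hy
          rw [← hy]
          exact ht)
      simp only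
      rw [e, norm_mk_of_reduced hr, wl_length, nk, nn t ht]
      simp only [List.length_singleton]
      omega
  · by_cases ht : t.1 = k₀
    · obtain ⟨j, δ⟩ := t
      simp only at ht
      subst ht
      have e : wlet' b₀ j p q (s.1, !s.2) * wlet' b₀ j p q (j, δ)
          = FreeGroup.mk ((s.1, !s.2) :: wl b₀ j p q 1 δ []) := by
        rw [wlet_k, wlet_ne (s := (s.1, !s.2)) _ _ _ _ hs, ← mk_cons']
      have hr : FreeGroup.IsReduced ((s.1, !s.2) :: wl b₀ j p q 1 δ []) := by
        have h1 := red_blk (c := s.1) (ε := !s.2) (n := 1)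
          (wl_reduced hbk hp hq one_pos δ hnil hnil') (by
            intro y hy
            rw [wl_head hq δ [] y hy]
            exact Ne.symm hs)
        exact h1
      rw [e, norm_mk_of_reduced hr, List.length_cons, wl_length, nk, nn s hs]
      simp only [List.length_nil]
      omega
    · have e : wlet' b₀ k₀ p q (s.1, !s.2) * wlet' b₀ k₀ p q t
          = FreeGroup.mk [(s.1, !s.2), t] := by
        rw [wlet_ne (s := (s.1, !s.2)) _ _ _ _ hs, wlet_ne _ _ _ _ ht, ← mk_cons']
      have hr : FreeGroup.IsReduced [(s.1, !s.2), t] := by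
        rw [FreeGroup.isReduced_cons_cons]
        refine ⟨fun h1 => ?_, FreeGroup.IsReduced.singleton⟩
        simp only at h1
        by_contra h2
        apply hst
        refine Prod.ext h1 ?_
        cases hs2 : s.2 <;> cases ht2 : t.2 <;> simp_all
      rw [e, norm_mk_of_reduced hr, nn s hs, nn t ht]
      simp

end Helper85.NS
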