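import Pool.Agent.Helper85.NS.Defs

/-!
Frobenius norms.
-/

namespace Helper85.NS

open Matrix
open scoped ComplexOrder

theorem N_eq (M : Matrix (Fin 2) (Fin 2) ℂ) :
    N M = ‖M 0 0‖ ^ 2 + ‖M 0 1‖ ^ 2 + (‖M 1 0‖ ^ 2 + ‖M 1 1‖ ^ 2) := by
  simp [N, Fin.sum_univ_two]

theorem N_nonneg (M : Matrix (Fin 2) (Fin 2) ℂ) : 0 ≤ N M := by
  rw [N_eq]
  positivity

theorem N_one : N (1 : Matrix (Fin 2) (Fin 2) ℂ) = 2 := by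
  rw [N_eq]
  norm_num

theorem N_neg (M : Matrix (Fin 2) (Fin 2) ℂ) : N (-M) = N M := by
  simp [N_eq]

theorem N_inv (g : SL2) : N (g⁻¹).1 = N g.1 := by
  have h : (g⁻¹).1 = !![g.1 1 1, -g.1 0 1; -g.1 1 0, g.1 0 0] := by
    have h1 := Matrix.SpecialLinearGroup.SL2_inv_expl g
    rw [h1]
    rfl
  rw [h, N_eq, N_eq]
  simp
  ring

theorem two_le_N (g : SL2) : 2 ≤ N g.1 := by
  have h1 : g.1 0 0 * g.1 1 1 - g.1 0 1 * g.1 1 0 = 1 := by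
    rw [← Matrix.det_fin_two]
    exact g.2
  have h2 : (1 : ℝ) ≤ ‖g.1 0 0‖ * ‖g.1 1 1‖ + ‖g.1 0 1‖ * ‖g.1 1 0‖ := by
    rw [← norm_mul, ← norm_mul]
    calc (1 : ℝ) = ‖(1 : ℂ)‖ := by simp
      _ = ‖g.1 0 0 * g.1 1 1 - g.1 0 1 * g.1 1 0‖ := by rw [h1]
      _ ≤ _ := norm_sub_le _ _
  rw [N_eq]
  nlinarith [sq_nonneg (‖g.1 0 0‖ - ‖g.1 1 1‖), sq_nonneg (‖g.1 0 1‖ - ‖g.1 1 0‖)]

theorem norm_add_mul_sq_le (a b c d : ℂ) :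
    ‖a * b + c * d‖ ^ 2 ≤ (‖a‖ ^ 2 + ‖c‖ ^ 2) * (‖b‖ ^ 2 + ‖d‖ ^ 2) := by
  have h1 : ‖a * b + c * d‖ ≤ ‖a‖ * ‖b‖ + ‖c‖ * ‖d‖ := by
    rw [← norm_mul, ← norm_mul]
    exact norm_add_le _ _
  have h2 : ‖a * b + c * d‖ ^ 2 ≤ (‖a‖ * ‖b‖ + ‖c‖ * ‖d‖) ^ 2 :=
    pow_le_pow_left₀ (norm_nonneg _) h1 2
  nlinarith [sq_nonneg (‖a‖ * ‖d‖ - ‖b‖ * ‖c‖)]

theorem N_mul_le (M M' : Matrix (Fin 2) (Fin 2) ℂ) : N (M * M') ≤ N M * N M' := by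
  rw [N_eq, N_eq, N_eq]
  simp only [Matrix.mul_apply, Fin.sum_univ_two]
  have h00 := norm_add_mul_sq_le (M 0 0) (M' 0 0) (M 0 1) (M' 1 0)
  have h01 := norm_add_mul_sq_le (M 0 0) (M' 0 1) (M 0 1) (M' 1 1)
  have h10 := norm_add_mul_sq_le (M 1 0) (M' 0 0) (M 1 1) (M' 1 0)
  have h11 := norm_add_mul_sq_le (M 1 0) (M' 0 1) (M 1 1) (M' 1 1)
  nlinarith [h00, h01, h10, h11]

theorem toPSL_eq_one_iff (g : SL2) : toPSL g = 1 ↔ g = 1 ∨ g = -1 := by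
  rw [toPSL, QuotientGroup.mk'_apply, QuotientGroup.eq_one_iff,
    Matrix.SpecialLinearGroup.mem_center_iff]
  constructor
  · rintro ⟨c, hc, hg⟩
    simp only [Fintype.card_fin] at hc
    rcases sq_eq_one_iff.mp hc with h | h
    · left
      apply Subtype.ext
      rw [← hg, h]
      simp
    · right
      apply Subtype.ext
      rw [← hg, h]
      ext i j
      fin_cases i <;> fin_cases j <;> simp
  · rintro (rfl | rfl)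
    · exact ⟨1, by simp, by simp⟩
    · refine ⟨-1, by simp, ?_⟩
      ext i j
      fin_cases i <;> fin_cases j <;> simp

end Helper85.NS
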