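import Pool.Agent.Helper85.NS.Fp4
import Pool.Agent.Helper85.NS.CcProof
import Pool.Agent.Helper85.NS.Final

/-!
Amalgams along free products.
-/

namespace Helper85.NS

open Monoid Function

/-- Amalgams along free products. -/
theorem partOne (B C Γ₁ : Type) [Group B] [Group C] [Group Γ₁] (Γ₁' : Subgroup Γ₁)
    (χ : Γ₁' →* Multiplicative ℤ) (hfp : Group.IsFinitelyPresented χ.ker)
    (i₁ : Coprod B C →* Γ₁) (hi₁ : Injective i₁) (x : B) (z : C)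
    (hx : Detects χ (i₁ (Coprod.inl x))) (hz : Detects χ (i₁ (Coprod.inr z))) :
    ∃ (p : ℕ) (q : ℤ), 0 < p ∧ q ≠ 0 ∧
      ∀ (Γ₂ : Type) [Group Γ₂] (j : Coprod B C →* Γ₂), Injective j →
        Injective (pc j x z p q) ∧ (Malnormal j.range → Malnormal (pc j x z p q).range) ∧
        (∀ f : Γ₂ →* PSL2, ConvexCocompact (f.comp j) →
          ConvexCocompact (f.comp (pc j x z p q))) ∧
        HasNonseparable (Amalgam i₁ (pc j x z p q)) := by
  obtain ⟨m, hx, hz, hm, hχx, hχz⟩ := hx.common hz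
  obtain ⟨c, p, q, hp, hq, hxp, hzq, he, hne⟩ :=
    exists_exponents χ (i₁ (Coprod.inl x)) (i₁ (Coprod.inr z)) m hm hx hz hχx hχz
  obtain ⟨q', hq', hq'0⟩ : ∃ q' : ℤ, q' = cond c (-(q : ℤ)) q ∧ q' ≠ 0 := by
    cases c
    · exact ⟨_, rfl, by simp; omega⟩
    · exact ⟨_, rfl, by simp; omega⟩
  refine ⟨p, q', hp, hq'0, ?_⟩
  have hxx : i₁ (Coprod.inl (x ^ p)) = i₁ (Coprod.inl x) ^ p := by
    rw [map_pow, map_pow]
  have hzz : i₁ (Coprod.inr (z ^ q')⁻¹) = (cond c (i₁ (Coprod.inr z)) (i₁ (Coprod.inr z))⁻¹) ^ q := by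
    rw [hq', map_inv, map_inv, map_zpow, map_zpow]
    cases c <;> simp
  have hx' : i₁ (Coprod.inl (x ^ p)) ∈ Γ₁' := by rwa [hxx]
  have hz' : i₁ (Coprod.inr (z ^ q')⁻¹) ∈ Γ₁' := by rwa [hzz]
  have he' : χ ⟨_, hz'⟩ = χ ⟨_, hx'⟩ := by
    have h1 : (⟨_, hz'⟩ : Γ₁') = ⟨_, hzq⟩ := Subtype.ext hzz
    have h2 : (⟨_, hx'⟩ : Γ₁') = ⟨_, hxp⟩ := Subtype.ext hxx
    rw [h1, h2, he]
  have hne' : χ ⟨_, hx'⟩ ≠ 1 := by
    have h2 : (⟨_, hx'⟩ : Γ₁') = ⟨_, hxp⟩ := Subtype.ext hxx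
    rw [h2]
    exact hne
  have hx1 : x ^ p ≠ 1 := by
    intro h
    apply hne'
    rw [← map_one χ]
    congr 1
    apply Subtype.ext
    simp [h]
  have hz1 : z ^ q' ≠ 1 := by
    intro h
    apply hne'
    rw [← he', ← map_one χ]
    congr 1
    apply Subtype.ext
    simp [h]
  intro Γ₂ _ j hj
  obtain ⟨hw, hmal, H, hH1, g, hg⟩ := crit3 Γ₁' χ hfp i₁ hi₁ (x ^ p) (z ^ q') hx' hz' he' hne' j hj
  refine ⟨?_, ?_, ?_, H, hH1, ⟨g, hg⟩, not_separable H g hg⟩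
  · have h1 := hj.comp hw
    have h2 := pconj_eq j (Coprod.inl (x ^ p) * Coprod.inr (z ^ q'))
    rw [pc, h2]
    exact h1
  · intro h
    have h2 := pconj_eq j (Coprod.inl (x ^ p) * Coprod.inr (z ^ q'))
    rw [pc, h2]
    exact malnormal_comp j hj _ hmal h
  · intro f hf
    have h2 : f.comp (pconj j (Coprod.inl (x ^ p) * Coprod.inr (z ^ q'))) =
        pconj (f.comp j) (kz (x ^ p) (z ^ q')) := by
      apply Coprod.hom_ext
      · ext b
        simp only [MonoidHom.comp_apply, pconj_inl]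
      · ext c
        simp only [MonoidHom.comp_apply, pconj_inr, map_mul, map_inv, kz]
    rw [pc, h2]
    exact cc_pconj _ _ hx1 hz1 _ hf

end Helper85.NS
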