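import Pool.Agent.Helper85.NS.Len2
import Pool.Agent.Helper85.NS.Len
import Pool.Agent.Helper85.NS.Asym
import Pool.Agent.Helper85.NS.Ev
import Pool.Agent.Helper85.NS.Disc4
import Pool.Agent.Helper85.NS.Sep

/-!
Schottky type subgroups which satisfy the separation condition.
-/

namespace Helper85.NS

open Matrix Filter Topology Function

/-- Letters have length one. -/
theorem norm_ev {α : Type} [DecidableEq α] (s : α × Bool) : (ev FreeGroup.of s).norm = 1 := by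
  obtain ⟨i, _ | _⟩ := s <;> simp [ev]

/-- The product of two letters which do not cancel has length two. -/
theorem norm_ev_mul {α : Type} [DecidableEq α] (s t : α × Bool) (hst : s ≠ t) :
    ((ev FreeGroup.of s)⁻¹ * ev FreeGroup.of t).norm = 2 := by
  have h : (ev FreeGroup.of s)⁻¹ * ev FreeGroup.of t = FreeGroup.mk [(s.1, !s.2), t] := by
    obtain ⟨i, _ | _⟩ := s <;> obtain ⟨j, _ | _⟩ := t <;> rfl
  rw [h, FreeGroup.norm, FreeGroup.toWord_mk, FreeGroup.IsReduced.reduce_eq]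
  · rfl
  · rw [FreeGroup.IsReduced]
    simp only [List.isChain_cons_cons, List.isChain_singleton, and_true]
    intro h1
    obtain ⟨i, b⟩ := s
    obtain ⟨j, c⟩ := t
    simp only at h1 ⊢
    subst h1
    simp only [ne_eq, Prod.mk.injEq, true_and] at hst
    cases b <;> cases c <;> simp_all

theorem eventually_sep' {α : Type} [DecidableEq α] [Finite α] (u : α × Bool → FreeGroup α)
    (hu : ∀ s t, s ≠ t → (u s).norm < ((u s)⁻¹ * u t).norm ∧
      (u t).norm < ((u s)⁻¹ * u t).norm) {R : ℝ} (hR : 1 < R) (Y : ℕ → α → SL2)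
    (hY : ∀ v : FreeGroup α, ∃ C : ℝ, 0 < C ∧ Tendsto (fun n : ℕ =>
      N (FreeGroup.lift (Y n) v).1 / R ^ (2 * n * v.norm)) atTop (𝓝 C)) :
    ∀ᶠ n in atTop, ∀ s t, s ≠ t → 3 * (N (FreeGroup.lift (Y n) (u s)).1 +
      N (FreeGroup.lift (Y n) (u t)).1) ≤ N (FreeGroup.lift (Y n) ((u s)⁻¹ * u t)).1 + 2 := by
  rw [eventually_all]
  intro s
  rw [eventually_all]
  intro t
  by_cases hst : s = t
  · exact Eventually.of_forall fun n h => absurd hst h
  · obtain ⟨C₁, -, h₁⟩ := hY (u s)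
    obtain ⟨C₂, -, h₂⟩ := hY (u t)
    obtain ⟨C₃, h₃, h₃'⟩ := hY ((u s)⁻¹ * u t)
    filter_upwards [eventually_sep hR h₃ (hu s t hst).1 (hu s t hst).2 h₁ h₂ h₃'] with n hn _
    exact hn

theorem ev_lift {α : Type} {G : Type*} [Group G] (x : α → G) (s : α × Bool) :
    FreeGroup.lift x (ev FreeGroup.of s) = ev x s := by
  obtain ⟨i, _ | _⟩ := s <;> simp [ev]

theorem ev_wlet' {α : Type} [DecidableEq α] {G : Type*} [Group G] (b₀ k₀ : α) (p q : ℕ)
    (x : α → G) (s : α × Bool) : FreeGroup.lift x (wlet' b₀ k₀ p q s) =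
      ev (fun i => FreeGroup.lift x (wpq b₀ k₀ p q (FreeGroup.of i))) s := by
  obtain ⟨i, _ | _⟩ := s <;> simp [ev, wlet']

theorem conj_lift {α : Type} {G : Type*} [Group G] (P : G) (x : α → G) (v : FreeGroup α) :
    P⁻¹ * FreeGroup.lift x v * P = FreeGroup.lift (fun i => P⁻¹ * x i * P) v := by
  have h : ((MulAut.conj P⁻¹).toMonoidHom).comp (FreeGroup.lift x) =
      FreeGroup.lift (fun i => P⁻¹ * x i * P) := by
    ext i
    simp
  rw [← h]
  simp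

theorem sep_of {α : Type} (P : SL2) (x₀ x : α → SL2) (u : α × Bool → FreeGroup α)
    (hu : ∀ s, FreeGroup.lift x₀ (u s) = ev x s)
    (h : ∀ s t, s ≠ t → 3 * (N (FreeGroup.lift (fun i => P⁻¹ * x₀ i * P) (u s)).1 +
      N (FreeGroup.lift (fun i => P⁻¹ * x₀ i * P) (u t)).1) ≤
      N (FreeGroup.lift (fun i => P⁻¹ * x₀ i * P) ((u s)⁻¹ * u t)).1 + 2) : Sep P x := by
  intro s t hst
  have h3 := h s t hst
  rw [← conj_lift, ← conj_lift, ← conj_lift, map_mul, map_inv, hu, hu] at h3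
  exact h3

theorem exists_schottky {r : ℕ} (b₀ k₀ : Fin r) (hbk : b₀ ≠ k₀) (p q : ℕ) (hp : 0 < p)
    (hq : 0 < q) {Γ : Subgroup PSL2}
    (hd : Discrete Γ) (ht : ∀ g ∈ Γ, ∀ n : ℕ, 0 < n → g ^ n = 1 → g = 1)
    (hna : ∃ g ∈ Γ, ∃ h ∈ Γ, g * h ≠ h * g) (P : SL2) (l : ℂ) (hl : l ≠ 0) (hl1 : 1 < ‖l‖)
    (hz : toPSL (P * dg l hl * P⁻¹) ∈ Γ) (g : Fin r → SL2) (hg : ∀ i, toPSL (g i) ∈ Γ) :
    ∃ (n : ℕ) (h : Fin r → SL2), (∀ i, toPSL (h i) ∈ Γ) ∧
      Sep P (fun i => g i * (h i * (P * dg l hl * P⁻¹) ^ n * (h i)⁻¹)) ∧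
      Sep P (fun i => FreeGroup.lift (fun i => g i * (h i * (P * dg l hl * P⁻¹) ^ n * (h i)⁻¹))
        (wpq b₀ k₀ p q (FreeGroup.of i))) := by
  obtain ⟨h, hh, h12, h21⟩ := exists_conj hd ht hna P l hl hl1 hz r g hg
  have hconj (n : ℕ) (i : Fin r) : P⁻¹ * (g i * (h i * (P * dg l hl * P⁻¹) ^ n * (h i)⁻¹)) * P =
      (P⁻¹ * (g i * h i) * P) * (dg l hl) ^ n * (P⁻¹ * h i * P)⁻¹ := by
    rw [← MulAut.conj_apply P, ← map_pow, MulAut.conj_apply]
    group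
  have hA := asym (fun i => P⁻¹ * (g i * h i) * P) (fun i => P⁻¹ * h i * P) l hl hl1
    (fun i j => by
      have h1 := (entry_ne_zero hd ht P l hl hl1 hz ((h i)⁻¹ * (g j * h j)) (by
        rw [map_mul, map_mul, map_inv]
        exact Γ.mul_mem (Γ.inv_mem (hh i)) (Γ.mul_mem (hg j) (hh j)))).1
      rwa [show (P⁻¹ * h i * P)⁻¹ * (P⁻¹ * (g j * h j) * P) =
        P⁻¹ * ((h i)⁻¹ * (g j * h j)) * P by group])
    (fun i j => by
      have h1 := (entry_ne_zero hd ht P l hl hl1 hz ((g i * h i)⁻¹ * h j) (by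
        rw [map_mul, map_inv, map_mul]
        exact Γ.mul_mem (Γ.inv_mem (Γ.mul_mem (hg i) (hh i))) (hh j))).2
      rwa [show (P⁻¹ * (g i * h i) * P)⁻¹ * (P⁻¹ * h j * P) =
        P⁻¹ * ((g i * h i)⁻¹ * h j) * P by group])
    (fun i j hij => by
      have h1 := h12 i j hij
      rwa [show (P⁻¹ * h i * P)⁻¹ * (P⁻¹ * h j * P) = P⁻¹ * ((h i)⁻¹ * h j) * P by group])
    (fun i j hij => by
      have h1 := h21 i j hij
      rwa [show (P⁻¹ * (g i * h i) * P)⁻¹ * (P⁻¹ * (g j * h j) * P) =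
        P⁻¹ * ((g i * h i)⁻¹ * (g j * h j)) * P by group])
  have h1 := eventually_sep' (ev FreeGroup.of) (fun s t hst => by
    rw [norm_ev, norm_ev, norm_ev_mul s t hst]
    simp) hl1 _ hA
  have h2 := eventually_sep' (wlet' b₀ k₀ p q) (norm_wlet' b₀ k₀ hbk p q hp hq) hl1 _ hA
  obtain ⟨n, hn1, hn2⟩ := (h1.and h2).exists
  refine ⟨n, h, hh, ?_, ?_⟩
  · refine sep_of P _ _ (ev FreeGroup.of) (ev_lift _) ?_
    simpa only [hconj] using hn1
  · refine sep_of P _ _ (wlet' b₀ k₀ p q) (ev_wlet' b₀ k₀ p q _) ?_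
    simpa only [hconj] using hn2

end Helper85.NS
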