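import Pool.Agent.Helper85.NS.Defs

/-!
A second family of endomorphisms of free groups.
-/

namespace Helper85.NS

/-- The element `b₀ᵖ k₀⁻q` of a free group. -/
def kap {α : Type} (b₀ k₀ : α) (p q : ℕ) : FreeGroup α :=
  FreeGroup.of b₀ ^ p * (FreeGroup.of k₀ ^ q)⁻¹

/-- The endomorphism of a free group which sends `k₀` to `κ⁻¹ k₀ κ`, where `κ = b₀ᵖ k₀⁻q`, and
fixes the other generators. -/
def wpq {α : Type} [DecidableEq α] (b₀ k₀ : α) (p q : ℕ) : FreeGroup α →* FreeGroup α :=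
  FreeGroup.lift fun i => if i = k₀ then
    (kap b₀ k₀ p q)⁻¹ * FreeGroup.of k₀ * kap b₀ k₀ p q else FreeGroup.of i

/-- The letters of the words in the generators `wpq b₀ k₀ p q i` and their inverses. -/
def wlet' {α : Type} [DecidableEq α] (b₀ k₀ : α) (p q : ℕ) (s : α × Bool) : FreeGroup α :=
  cond s.2 (wpq b₀ k₀ p q (FreeGroup.of s.1)) (wpq b₀ k₀ p q (FreeGroup.of s.1))⁻¹

/-- The homomorphism of the free group on two generators which sends them to `b₀ᵖ` and
`k₀q`. -/
def pw {α : Type} (b₀ k₀ : α) (p q : ℕ) : FreeGroup Bool →* FreeGroup α :=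
  FreeGroup.lift fun c => cond c (FreeGroup.of b₀ ^ p) (FreeGroup.of k₀ ^ q)

end Helper85.NS
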